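import Pool.Agent.H242Z.AEDefs

/-!
# A strategy for Avoider in the triangle game
-/

set_option autoImplicit false

namespace Pool.Agent.H242Z.AE

open Finset

variable {n : ℕ}

theorem card_edgesK (n : ℕ) : (edgesK n).card = n.choose 2 := by
  have : edgesK n = (⊤ : SimpleGraph (Fin n)).edgeFinset := by
    ext e
    simp [edgesK]
  rw [this, SimpleGraph.card_edgeFinset_top_eq_card_choose_two, Fintype.card_fin]

theorem mem_edgesK {a b : Fin n} : s(a, b) ∈ edgesK n ↔ a ≠ b := by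
  simp [edgesK]

def Tch (A : Finset (Sym2 (Fin n))) : Finset (Fin n) := univ.filter (fun v => ∃ e ∈ A, v ∈ e)

theorem mem_Tch {A : Finset (Sym2 (Fin n))} {v : Fin n} : v ∈ Tch A ↔ ∃ u, s(v, u) ∈ A := by
  simp only [Tch, mem_filter, mem_univ, true_and]
  constructor
  · rintro ⟨e, he, hv⟩
    obtain ⟨u, rfl⟩ := Sym2.mem_iff_exists.mp hv
    exact ⟨u, he⟩
  · rintro ⟨u, hu⟩
    exact ⟨_, hu, Sym2.mem_mk_left _ _⟩

theorem card_Tch (A : Finset (Sym2 (Fin n))) : (Tch A).card ≤ 2 * A.card := by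
  have h1 : Tch A ⊆ A.biUnion (fun e => univ.filter (fun v => v ∈ e)) := by
    intro v hv
    simpa [Tch] using hv
  refine (card_le_card h1).trans (card_biUnion_le.trans ?_)
  refine (Finset.sum_le_card_nsmul _ _ 2 (fun e _ => ?_)).trans (by simp [mul_comm])
  induction e using Sym2.ind with
  | _ a b =>
    refine (card_le_card (t := {a, b}) (fun v hv => ?_)).trans card_le_two
    simpa using hv

def prs (P Q : Finset (Fin n)) : Finset (Sym2 (Fin n)) := (P ×ˢ Q).image (fun p => s(p.1, p.2))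

theorem mem_prs {P Q : Finset (Fin n)} {e : Sym2 (Fin n)} :
    e ∈ prs P Q ↔ ∃ a ∈ P, ∃ b ∈ Q, s(a, b) = e := by
  simp [prs, and_assoc]

theorem card_prs_le (P Q : Finset (Fin n)) : (prs P Q).card ≤ P.card * Q.card :=
  card_image_le.trans (card_product _ _).le

theorem card_prs {P Q : Finset (Fin n)} (h : Disjoint P Q) : (prs P Q).card = P.card * Q.card := by
  rw [prs, card_image_of_injOn, card_product]
  rintro ⟨a, b⟩ h1 ⟨c, d⟩ h2 he
  simp only [coe_product, Set.mem_prod, mem_coe, Sym2.eq_iff] at h1 h2 he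
  rcases he with ⟨rfl, rfl⟩ | ⟨rfl, rfl⟩
  · rfl
  · exact absurd h2.2 (Finset.disjoint_left.mp h h1.1)

def TF (A : Finset (Sym2 (Fin n))) : Prop :=
  ∀ a b c : Fin n, a ≠ b → b ≠ c → a ≠ c → s(a, b) ∈ A → s(b, c) ∈ A → s(a, c) ∈ A → False

def Inv (A : Finset (Sym2 (Fin n))) (U : Finset (Fin n)) : Prop :=
  ∀ w u : Fin n, w ∉ U → s(w, u) ∈ A → u ∉ U ∧ ∀ v, s(w, v) ∈ A → v = u

theorem TF.not_contained {A : Finset (Sym2 (Fin n))} (h : TF A) :
    ¬ (⊤ : SimpleGraph (Fin 3)).IsContained (SimpleGraph.fromEdgeSet (A : Set (Sym2 (Fin n)))) := by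
  rintro ⟨f⟩
  have h1 := f.toHom.map_adj (show (⊤ : SimpleGraph (Fin 3)).Adj 0 1 by decide)
  have h2 := f.toHom.map_adj (show (⊤ : SimpleGraph (Fin 3)).Adj 1 2 by decide)
  have h3 := f.toHom.map_adj (show (⊤ : SimpleGraph (Fin 3)).Adj 0 2 by decide)
  rw [SimpleGraph.fromEdgeSet_adj] at h1 h2 h3
  exact h _ _ _ h1.2 h2.2 h3.2 h1.1 h2.1 h3.1

theorem TF.insert {A : Finset (Sym2 (Fin n))} {U : Finset (Fin n)} (h : TF A) (hI : Inv A U)
    {a b : Fin n} (ha : a ∉ U) : TF (insert s(a, b) A) := by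
  have key : ∀ z, s(a, z) ∈ A → s(b, z) ∈ A → a = b := by
    intro z h1 h2
    have h3 := (hI a z ha h1).1
    rw [Sym2.eq_swap] at h1 h2
    exact ((hI z a h3 h1).2 b h2).symm
  have sw : ∀ x y : Fin n, s(x, y) ∈ A → s(y, x) ∈ A := fun x y h => by rwa [Sym2.eq_swap]
  intro x y z hxy hyz hxz h1 h2 h3
  simp only [mem_insert, Sym2.eq_iff] at h1 h2 h3
  rcases h1 with (⟨rfl, rfl⟩ | ⟨rfl, rfl⟩) | h1
  · rcases h2 with (h2 | h2) | h2
    · exact hxy h2.1.symm
    · exact hxz h2.2.symm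
    · rcases h3 with (h3 | h3) | h3
      · exact hyz h3.2.symm
      · exact hxy h3.1
      · exact hxy (key z h3 h2)
  · rcases h2 with (h2 | h2) | h2
    · exact hxz h2.2.symm
    · exact hxy h2.1.symm
    · rcases h3 with (h3 | h3) | h3
      · exact hxy h3.1
      · exact hyz h3.2.symm
      · exact hxy (key z h2 h3).symm
  · rcases h2 with (⟨rfl, rfl⟩ | ⟨rfl, rfl⟩) | h2
    · rcases h3 with (h3 | h3) | h3
      · exact hxy h3.1
      · exact hxz h3.1
      · exact hyz (key x (sw _ _ h1) (sw _ _ h3))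
    · rcases h3 with (h3 | h3) | h3
      · exact hxz h3.1
      · exact hxy h3.1
      · exact hyz (key x (sw _ _ h3) (sw _ _ h1)).symm
    · rcases h3 with (⟨rfl, rfl⟩ | ⟨rfl, rfl⟩) | h3
      · exact hxz (key y h1 (sw _ _ h2))
      · exact hxz (key y (sw _ _ h2) h1).symm
      · exact h x y z hxy hyz hxz h1 h2 h3

theorem Inv.insert {A : Finset (Sym2 (Fin n))} {U : Finset (Fin n)} (hI : Inv A U) (a b : Fin n) :
    ∃ U' : Finset (Fin n), Inv (insert s(a, b) A) U' ∧ U'.card ≤ U.card + 4 := by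
  have sw : ∀ x y : Fin n, s(x, y) ∈ A → s(y, x) ∈ A := fun x y h => by rwa [Sym2.eq_swap]
  have hc : ∀ x : Fin n, (univ.filter (fun u => x ∉ U ∧ s(x, u) ∈ A)).card ≤ 1 := by
    intro x
    rw [Finset.card_le_one]
    intro u hu v hv
    simp only [mem_filter, mem_univ, true_and] at hu hv
    exact (hI x v hv.1 hv.2).2 u hu.2
  refine ⟨U ∪ {a, b} ∪ univ.filter (fun u => a ∉ U ∧ s(a, u) ∈ A) ∪
    univ.filter (fun u => b ∉ U ∧ s(b, u) ∈ A), ?_, ?_⟩
  · intro w u hw hwu
    simp only [mem_union, mem_insert, mem_singleton, mem_filter, mem_univ, true_and, not_or,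
      not_and] at hw ⊢
    obtain ⟨⟨⟨h1, h2, h3⟩, h4⟩, h5⟩ := hw
    have hA : ∀ v, s(w, v) ∈ Insert.insert s(a, b) A → s(w, v) ∈ A := by
      intro v hv
      rcases mem_insert.mp hv with hv | hv
      · rcases Sym2.eq_iff.mp hv with hv | hv
        · exact absurd hv.1 h2
        · exact absurd hv.1 h3
      · exact hv
    have h6 := hA u hwu
    obtain ⟨h7, h8⟩ := hI w u h1 h6
    have h9 := (hI u w h7 (sw _ _ h6)).2
    refine ⟨⟨⟨⟨h7, ?_, ?_⟩, ?_⟩, ?_⟩, fun v hv => h8 v (hA v (mem_insert.mpr hv))⟩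
    · rintro rfl
      exact h4 h7 (sw _ _ h6)
    · rintro rfl
      exact h5 h7 (sw _ _ h6)
    · intro _ h
      exact h2 (h9 a (sw _ _ h)).symm
    · intro _ h
      exact h3 (h9 b (sw _ _ h)).symm
  · refine (card_union_le _ _).trans ?_
    have h1 := card_union_le (U ∪ {a, b}) (univ.filter (fun u => a ∉ U ∧ s(a, u) ∈ A))
    have h2 := card_union_le U {a, b}
    have h3 : ({a, b} : Finset (Fin n)).card ≤ 2 := card_le_two
    have h4 := hc a
    have h5 := hc b
    omega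

theorem Inv.insert_untouched {A : Finset (Sym2 (Fin n))} (hI : Inv A ∅) {a b : Fin n}
    (ha : a ∉ Tch A) (hb : b ∉ Tch A) : Inv (Insert.insert s(a, b) A) ∅ := by
  intro w u _ hwu
  refine ⟨notMem_empty _, fun v hv => ?_⟩
  rw [mem_Tch, not_exists] at ha hb
  rcases mem_insert.mp hwu with h1 | h1 <;> rcases mem_insert.mp hv with h2 | h2
  · rw [← h2] at h1
    exact (Sym2.congr_right.mp h1).symm
  · rcases Sym2.eq_iff.mp h1 with h | h
    · exact absurd (h.1 ▸ h2) (ha v)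
    · exact absurd (h.1 ▸ h2) (hb v)
  · rcases Sym2.eq_iff.mp h2 with h | h
    · exact absurd (h.1 ▸ h1) (ha u)
    · exact absurd (h.1 ▸ h1) (hb u)
  · exact (hI w u (notMem_empty _) h1).2 v h2

theorem avoid_move {b q r L j : ℕ} (hr : 1 ≤ r) (hq : 2 * q * n ≤ (L + 1) * (b + 1))
    (hL : (4 * L) ^ 2 < r) {A F : Finset (Sym2 (Fin n))} {U : Finset (Fin n)}
    (hF : F.card = j * (b + 1) + r) (hT : TF A) (hI : Inv A U) (hA : A.card ≤ q)
    (hU : U = ∅ ∨ U.card + 4 * j ≤ 4 * L) :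
    ∃ e ∈ F, ∃ U' : Finset (Fin n), TF (insert e A) ∧ Inv (insert e A) U' ∧
      (U' = ∅ ∨ U'.card + 4 * j ≤ 4 * L + 4) := by
  have second : U.card + 4 * j ≤ 4 * L → ∃ e ∈ F, ∃ U' : Finset (Fin n), TF (insert e A) ∧
      Inv (insert e A) U' ∧ (U' = ∅ ∨ U'.card + 4 * j ≤ 4 * L + 4) := by
    intro h
    have h1 : (prs U U).card < F.card := by
      refine (card_prs_le U U).trans_lt ?_
      have : U.card * U.card ≤ (4 * L) ^ 2 := by
        rw [sq]
        exact Nat.mul_le_mul (by omega) (by omega)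
      omega
    obtain ⟨e, he, he'⟩ := exists_mem_notMem_of_card_lt_card h1
    obtain ⟨a, c, rfl, ha⟩ : ∃ a c, e = s(a, c) ∧ a ∉ U := by
      induction e using Sym2.ind with
      | _ x y =>
        by_cases hx : x ∈ U
        · refine ⟨y, x, Sym2.eq_swap, fun hy => he' (mem_prs.mpr ⟨x, hx, y, hy, rfl⟩)⟩
        · exact ⟨x, y, rfl, hx⟩
    obtain ⟨U', h2, h3⟩ := hI.insert a c
    exact ⟨_, he, U', hT.insert hI ha, h2, Or.inr (by omega)⟩
  rcases hU with rfl | hU
  · by_cases h : ∃ a c, s(a, c) ∈ F ∧ a ∉ Tch A ∧ c ∉ Tch A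
    · obtain ⟨a, c, h1, h2, h3⟩ := h
      exact ⟨_, h1, ∅, hT.insert hI (notMem_empty _), hI.insert_untouched h2 h3, Or.inl rfl⟩
    · apply second
      have h1 : F ⊆ prs (Tch A) univ := by
        intro e he
        induction e using Sym2.ind with
        | _ x y =>
          by_cases hx : x ∈ Tch A
          · exact mem_prs.mpr ⟨x, hx, y, mem_univ _, rfl⟩
          · by_cases hy : y ∈ Tch A
            · exact mem_prs.mpr ⟨y, hy, x, mem_univ _, Sym2.eq_swap⟩
            · exact (h ⟨x, y, he, hx, hy⟩).elim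
      have h2 := (card_le_card h1).trans (card_prs_le _ _)
      rw [card_univ, Fintype.card_fin] at h2
      have h3 : (Tch A).card * n ≤ 2 * q * n :=
        Nat.mul_le_mul_right _ ((card_Tch A).trans (by omega))
      have h4 : j * (b + 1) < (L + 1) * (b + 1) := by omega
      have h5 := Nat.lt_of_mul_lt_mul_right h4
      simp only [card_empty]
      omega
  · exact second hU

theorem free_after (A E T : Finset (Sym2 (Fin n))) (e : Sym2 (Fin n)) :
    edgesK n \ (insert e A ∪ (E ∪ T)) = (edgesK n \ insert e (A ∪ E)) \ T := by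
  ext x
  simp only [mem_sdiff, mem_union, mem_insert]
  tauto

theorem avoid {b q r L : ℕ} (hN : n.choose 2 = q * (b + 1) + r) (hr : 1 ≤ r) (hrb : r ≤ b + 1)
    (hq : 2 * q * n ≤ (L + 1) * (b + 1)) (hL : (4 * L) ^ 2 < r) :
    ¬ EnforcerWins (⊤ : SimpleGraph (Fin 3)) n b := by
  rintro ⟨S, h0, hS⟩
  have main : ∀ j : ℕ, ∀ (A E : Finset (Sym2 (Fin n))) (U : Finset (Fin n)), (A, E) ∈ S →
      (edgesK n \ (A ∪ E)).card = j * (b + 1) + r → TF A → Inv A U → A.card + j ≤ q →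
      (U = ∅ ∨ U.card + 4 * j ≤ 4 * L) → False := by
    intro j
    induction j with
    | zero =>
      intro A E U hp hF hT hI hA hU
      obtain ⟨e, he, U', h1, -, -⟩ := avoid_move hr hq hL hF hT hI (by omega) hU
      obtain ⟨T, hT1, hT2, hT3⟩ := (hS _ hp).2 e he
      have hc : (edgesK n \ insert e (A ∪ E)).card = r - 1 := by
        rw [sdiff_insert, card_erase_of_mem he, hF]
        simp
      simp only at hT1 hT2 hT3
      have hT4 : T = edgesK n \ insert e (A ∪ E) :=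
        eq_of_subset_of_card_le hT1 (by rw [hT2, hc]; omega)
      refine h1.not_contained ((hS _ hT3).1 ?_)
      simp only
      rw [free_after, ← hT4, Finset.sdiff_self]
    | succ j ih =>
      intro A E U hp hF hT hI hA hU
      obtain ⟨e, he, U', h1, h2, h3⟩ := avoid_move hr hq hL hF hT hI (by omega) hU
      obtain ⟨T, hT1, hT2, hT3⟩ := (hS _ hp).2 e he
      have hc : (edgesK n \ insert e (A ∪ E)).card = j * (b + 1) + r + b := by
        rw [sdiff_insert, card_erase_of_mem he, hF, add_mul]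
        omega
      simp only at hT1 hT2 hT3
      refine ih (insert e A) (E ∪ T) U' hT3 ?_ h1 h2 ?_ (h3.imp id (fun h => by omega))
      · rw [free_after, card_sdiff_of_subset hT1, hT2, hc]
        omega
      · have := card_insert_le e A
        omega
  refine main q ∅ ∅ ∅ h0 ?_ ?_ ?_ (by simp) (Or.inl rfl)
  · simp [card_edgesK, hN]
  · intro a b c _ _ _ h
    simp at h
  · intro w u _ h
    simp at h

/-- If the bias is at least of order `n ^ (3 / 2)` and Enforcer wins the triangle game, then some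
`C(n,2) - r` with bounded `r` has a divisor of order `√n`. -/
theorem divisor_of_wins {b L : ℕ} (hn : 2 ≤ n) (hb : n ^ 3 ≤ L * b ^ 2)
    (h : EnforcerWins (⊤ : SimpleGraph (Fin 3)) n b) : ∃ r q d : ℕ, 1 ≤ r ∧ r ≤ (4 * L) ^ 2 ∧
      n.choose 2 = q * d + r ∧ n ≤ 16 * q ^ 2 ∧ q ^ 2 ≤ L * n := by
  have h2 : 2 * n.choose 2 = n * (n - 1) := by
    rw [Nat.choose_two_right]
    exact Nat.mul_div_cancel' (Nat.even_mul_pred_self _).two_dvd
  obtain ⟨m, rfl⟩ : ∃ m, n = m + 2 := ⟨n - 2, by omega⟩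
  have h2' : 2 * (m + 2).choose 2 = (m + 2) * (m + 1) := h2
  set N := (m + 2).choose 2 with hN
  have hN0 : 1 ≤ N := by nlinarith
  have hdm := Nat.div_add_mod (N - 1) (b + 1)
  have hml := Nat.mod_lt (N - 1) (show 0 < b + 1 by omega)
  generalize (N - 1) / (b + 1) = q at hdm
  generalize (N - 1) % (b + 1) = r at hdm hml
  have hNq : N = q * (b + 1) + (r + 1) := by rw [mul_comm]; omega
  have hqb : 2 * q * (b + 1) ≤ (m + 2) ^ 2 := by nlinarith
  have hbig : ¬ 2 * q * (m + 2) ≤ (0 + 1) * (b + 1) := fun hc =>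
    avoid (L := 0) hNq (by omega) (by omega) hc (by simp) h
  have hmid : 2 * q * (m + 2) ≤ (L + 1) * (b + 1) := by
    have a1 : 2 * q * (m + 2) * (b + 1) ≤ (L + 1) * (b + 1) * (b + 1) := by
      calc 2 * q * (m + 2) * (b + 1) = 2 * q * (b + 1) * (m + 2) := by ring
        _ ≤ (m + 2) ^ 2 * (m + 2) := Nat.mul_le_mul_right _ hqb
        _ = (m + 2) ^ 3 := by ring
        _ ≤ L * b ^ 2 := hb
        _ ≤ (L + 1) * (b + 1) ^ 2 := by gcongr <;> omega
        _ = _ := by ring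
    exact Nat.le_of_mul_le_mul_right a1 (by omega)
  refine ⟨r + 1, q, b + 1, by omega, ?_, hNq, ?_, ?_⟩
  · by_contra hc
    exact avoid hNq (by omega) (by omega) hmid (by omega) h
  · have hq1 : 1 ≤ q := by
      rcases Nat.eq_zero_or_pos q with h0 | h0
      · subst h0
        simp at hbig
      · exact h0
    have a1 : N ≤ (2 * q) * (2 * q * (m + 2)) := by
      calc N ≤ (q + 1) * (b + 1) := by rw [hNq, add_mul]; omega
        _ ≤ _ := Nat.mul_le_mul (by omega) (by omega)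
    have a2 : (m + 2) * (m + 2) ≤ (m + 2) * (16 * q ^ 2) := by nlinarith
    exact Nat.le_of_mul_le_mul_left a2 (by omega)
  · have a1 : q * b ≤ (m + 2) ^ 2 := by nlinarith
    have a2 : (m + 2) ^ 3 * q ^ 2 ≤ (m + 2) ^ 3 * (L * (m + 2)) := by
      calc (m + 2) ^ 3 * q ^ 2 ≤ L * b ^ 2 * q ^ 2 := Nat.mul_le_mul_right _ hb
        _ = L * (q * b) ^ 2 := by ring
        _ ≤ L * ((m + 2) ^ 2) ^ 2 := by gcongr
        _ = _ := by ring
    exact Nat.le_of_mul_le_mul_left a2 (by positivity)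

end Pool.Agent.H242Z.AE
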