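import Mathlib

/-!
# The strict `(1 : b)` Avoider-Enforcer `H`-game on `K_n`
-/

set_option autoImplicit false

namespace Pool.Agent.H242Z.AE

/-- The edges of the complete graph `K_n`. -/
def edgesK (n : ℕ) : Finset (Sym2 (Fin n)) := Finset.univ.filter (fun e => ¬ e.IsDiag)

/-- Enforcer has a winning strategy in the strict `(1 : b)` Avoider-Enforcer `H`-game on `K_n`
(Avoider moves first): there is a set `S` of positions (edges of Avoider, edges of Enforcer; Avoider
to move) that contains the initial position, such that in every final position in `S` the graph of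
Avoider contains a copy of `H`, and to every move `e` of Avoider from a position in `S` Enforcer has
an answer `T` (exactly `b` free edges, or all of them if fewer remain) that leads back to `S`. -/
def EnforcerWins {V : Type} (H : SimpleGraph V) (n b : ℕ) : Prop :=
  ∃ S : Set (Finset (Sym2 (Fin n)) × Finset (Sym2 (Fin n))),
    ((∅ : Finset (Sym2 (Fin n))), (∅ : Finset (Sym2 (Fin n)))) ∈ S ∧
    ∀ p ∈ S,
      (edgesK n \ (p.1 ∪ p.2) = ∅ →
        H.IsContained (SimpleGraph.fromEdgeSet (p.1 : Set (Sym2 (Fin n))))) ∧
      ∀ e ∈ edgesK n \ (p.1 ∪ p.2), ∃ T : Finset (Sym2 (Fin n)),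
        T ⊆ edgesK n \ (insert e (p.1 ∪ p.2)) ∧
        T.card = min b (edgesK n \ (insert e (p.1 ∪ p.2))).card ∧
        (insert e p.1, p.2 ∪ T) ∈ S

/-- The lower threshold: the largest `m` such that Enforcer wins for every bias `1 ≤ b ≤ m`. -/
noncomputable def fLower {V : Type} (H : SimpleGraph V) (n : ℕ) : ℕ :=
  sSup {m : ℕ | ∀ b : ℕ, 1 ≤ b → b ≤ m → EnforcerWins H n b}

/-- The upper threshold: the largest bias `b ≥ 1` for which Enforcer wins. -/
noncomputable def fUpper {V : Type} (H : SimpleGraph V) (n : ℕ) : ℕ :=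
  sSup {b : ℕ | 1 ≤ b ∧ EnforcerWins H n b}

/-- The graph `H - e`: delete the edge `e` and every end of `e` that has degree one in `H`. -/
def delEdge {V : Type} (H : SimpleGraph V) (e : Sym2 V) :
    SimpleGraph {v : V // ¬ (v ∈ e ∧ (H.neighborSet v).ncard = 1)} :=
  (H.deleteEdges {e}).comap Subtype.val

/-- The maximum over the edges `e` of `H` of the lower threshold of `H - e`. -/
noncomputable def maxLower {V : Type} [Fintype V] [DecidableEq V] (H : SimpleGraph V)
    [DecidableRel H.Adj] (n : ℕ) : ℕ :=
  H.edgeFinset.sup (fun e => fLower (delEdge H e) n)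

end Pool.Agent.H242Z.AE
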