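import Pool.Agent.H242Z.AEMain

/-!
# A strategy for Enforcer in the game for the path with two edges
-/

set_option autoImplicit false

namespace Pool.Agent.H242Z.AE

open Finset

variable {n : ℕ}

def Cherry (A : Finset (Sym2 (Fin n))) : Prop :=
  ∃ a b c : Fin n, a ≠ b ∧ a ≠ c ∧ b ≠ c ∧ s(a, b) ∈ A ∧ s(a, c) ∈ A

def Threat (A : Finset (Sym2 (Fin n))) (e : Sym2 (Fin n)) : Prop := ∃ v ∈ e, v ∈ Tch A

theorem Threat.mono {A : Finset (Sym2 (Fin n))} {e f : Sym2 (Fin n)} (h : Threat A e) :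
    Threat (insert f A) e := by
  obtain ⟨v, hv, h⟩ := h
  obtain ⟨u, hu⟩ := mem_Tch.mp h
  exact ⟨v, hv, mem_Tch.mpr ⟨u, mem_insert_of_mem hu⟩⟩

theorem Threat.cherry {A : Finset (Sym2 (Fin n))} {e : Sym2 (Fin n)} (h : Threat A e)
    (hA : A ⊆ edgesK n) (he : e ∈ edgesK n) (he' : e ∉ A) : Cherry (insert e A) := by
  obtain ⟨v, hv, h⟩ := h
  obtain ⟨u, hu⟩ := mem_Tch.mp h
  obtain ⟨x, rfl⟩ := Sym2.mem_iff_exists.mp hv
  refine ⟨v, x, u, mem_edgesK.mp he, mem_edgesK.mp (hA hu), ?_, mem_insert_self _ _,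
    mem_insert_of_mem hu⟩
  rintro rfl
  exact he' hu

theorem Cherry.mono {A : Finset (Sym2 (Fin n))} (h : Cherry A) (e : Sym2 (Fin n)) :
    Cherry (insert e A) := by
  obtain ⟨a, b, c, h1, h2, h3, h4, h5⟩ := h
  exact ⟨a, b, c, h1, h2, h3, mem_insert_of_mem h4, mem_insert_of_mem h5⟩

/-- the positions from which Enforcer wins -/
def Good (b m : ℕ) (X Y : Finset (Fin n)) (A E : Finset (Sym2 (Fin n))) : Prop :=
  A ⊆ edgesK n ∧ (Cherry A ∨
    ((edgesK n \ (A ∪ E)).Nonempty ∧ ∀ e ∈ edgesK n \ (A ∪ E), Threat A e) ∨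
    (∃ Θ ⊆ edgesK n \ (A ∪ E), (∀ e ∈ Θ, Threat A e) ∧ b < Θ.card) ∨
    (E ⊆ prs X Y ∧ 2 * E.card ≤ (Tch A).card * b ∧ 2 * A.card ≤ (Tch A).card ∧
      (Tch A).card * m ≤ 2 * b))

theorem answer_theta {b m : ℕ} {X Y : Finset (Fin n)} {A E Θ : Finset (Sym2 (Fin n))}
    {e : Sym2 (Fin n)} (hA : insert e A ⊆ edgesK n) (h1 : Θ ⊆ edgesK n \ insert e (A ∪ E))
    (h2 : ∀ f ∈ Θ, Threat (insert e A) f) (h3 : b < Θ.card) :
    ∃ T : Finset (Sym2 (Fin n)), T ⊆ edgesK n \ (insert e (A ∪ E)) ∧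
      T.card = min b (edgesK n \ (insert e (A ∪ E))).card ∧ Good b m X Y (insert e A) (E ∪ T) := by
  have h4 := card_le_card h1
  unfold Good
  simp only [free_after]
  generalize edgesK n \ insert e (A ∪ E) = F at h1 h4
  by_cases h : b ≤ (F \ Θ).card
  · obtain ⟨T, hT1, hT2⟩ := exists_subset_card_eq h
    refine ⟨T, hT1.trans sdiff_subset, by omega, hA, Or.inr (Or.inr (Or.inl ⟨Θ, ?_, h2, h3⟩))⟩
    intro f hf
    exact mem_sdiff.mpr ⟨h1 hf, fun hT => (mem_sdiff.mp (hT1 hT)).2 hf⟩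
  · obtain ⟨T, hT1, hT2, hT3⟩ := exists_subsuperset_card_eq (n := b) (sdiff_subset : F \ Θ ⊆ F)
      (by omega) (by omega)
    refine ⟨T, hT2, by omega, hA, Or.inr (Or.inl ⟨?_, fun f hf => h2 f ?_⟩)⟩
    · rw [← card_pos, card_sdiff_of_subset hT2]
      omega
    · by_contra hc
      rw [mem_sdiff] at hf
      exact hf.2 (hT1 (mem_sdiff.mpr ⟨hf.1, hc⟩))

theorem prs_subset {P Q : Finset (Fin n)} (h : Disjoint P Q) : prs P Q ⊆ edgesK n := by
  intro e he
  obtain ⟨a, ha, c, hc, rfl⟩ := mem_prs.mp he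
  rw [mem_edgesK]
  rintro rfl
  exact Finset.disjoint_left.mp h ha hc

theorem good_step {b m : ℕ} {X Y Z : Finset (Fin n)} (hX : X.card = m) (hY : Y.card = m)
    (hZ : Z.card = m) (hXY : Disjoint X Y) (hXZ : Disjoint X Z) (hYZ : Disjoint Y Z)
    (hm : 16 ≤ m) (hb1 : 1 ≤ b) (hb : 2 * b ^ 2 < m ^ 3) {A E : Finset (Sym2 (Fin n))}
    (h : Good b m X Y A E) :
    (edgesK n \ (A ∪ E) = ∅ → Cherry A) ∧ ∀ e ∈ edgesK n \ (A ∪ E),
      ∃ T : Finset (Sym2 (Fin n)), T ⊆ edgesK n \ (insert e (A ∪ E)) ∧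
        T.card = min b (edgesK n \ (insert e (A ∪ E))).card ∧
        Good b m X Y (insert e A) (E ∪ T) := by
  obtain ⟨hA, h⟩ := h
  have hXYc : (prs X Y).card = m * m := by rw [card_prs hXY, hX, hY]
  constructor
  · intro hF
    rcases h with h | h | ⟨Θ, h1, -, h3⟩ | ⟨h1, h2, h3, h4⟩
    · exact h
    · rw [hF] at h
      simp at h
    · rw [hF, subset_empty] at h1
      subst h1
      simp at h3
    · exfalso
      have a1 : prs X Y ⊆ A ∪ E := (prs_subset hXY).trans (sdiff_eq_empty_iff_subset.mp hF)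
      have a2 := (card_le_card a1).trans (card_union_le _ _)
      rw [hXYc] at a2
      generalize (Tch A).card = s at h2 h3 h4
      have a3 : 2 * (m * m) ≤ 2 * (s * b) := by nlinarith
      have a4 : m * (m * m) ≤ s * m * b := by nlinarith
      nlinarith
  · intro e he
    have he1 := (mem_sdiff.mp he).1
    have he2 : e ∉ A := fun hc => (mem_sdiff.mp he).2 (mem_union_left _ hc)
    have hA' : insert e A ⊆ edgesK n := insert_subset he1 hA
    have hch : Cherry (insert e A) → ∃ T : Finset (Sym2 (Fin n)),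
        T ⊆ edgesK n \ (insert e (A ∪ E)) ∧ T.card = min b (edgesK n \ (insert e (A ∪ E))).card ∧
        Good b m X Y (insert e A) (E ∪ T) := by
      intro hc
      obtain ⟨T, hT1, hT2⟩ := exists_subset_card_eq
        (min_le_right b (edgesK n \ (insert e (A ∪ E))).card)
      exact ⟨T, hT1, hT2, hA', Or.inl hc⟩
    by_cases hth : Threat A e
    · exact hch (hth.cherry hA he1 he2)
    rcases h with h | h | ⟨Θ, h1, h2, h3⟩ | ⟨h1, h2, h3, h4⟩
    · exact hch (h.mono e)
    · exact absurd (h.2 e he) hth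
    · refine answer_theta (Θ := Θ) hA' (fun f hf => ?_) (fun f hf => (h2 f hf).mono) h3
      rw [sdiff_insert]
      refine mem_erase.mpr ⟨?_, h1 hf⟩
      rintro rfl
      exact hth (h2 _ hf)
    · have hs : (Tch (insert e A)).card = (Tch A).card + 2 := by
        induction e using Sym2.ind with
        | _ x y =>
          have hx : x ∉ Tch A := fun hc => hth ⟨x, Sym2.mem_mk_left _ _, hc⟩
          have hy : y ∉ Tch A := fun hc => hth ⟨y, Sym2.mem_mk_right _ _, hc⟩
          have hxy : x ≠ y := mem_edgesK.mp he1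
          have : Tch (insert s(x, y) A) = insert x (insert y (Tch A)) := by
            ext v
            simp [Tch, or_assoc]
          rw [this, card_insert_of_notMem (by simp [hx, hxy]), card_insert_of_notMem hy]
      by_cases hΘ : b < (prs (Tch (insert e A)) (Z \ Tch (insert e A))).card
      · refine answer_theta hA' (fun f hf => ?_) (fun f hf => ?_) hΘ
        · refine mem_sdiff.mpr ⟨prs_subset disjoint_sdiff hf, fun hc => ?_⟩
          obtain ⟨a, -, c, hc', rfl⟩ := mem_prs.mp hf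
          rw [mem_sdiff] at hc'
          rw [← insert_union] at hc
          rcases mem_union.mp hc with hc | hc
          · exact hc'.2 (mem_Tch.mpr ⟨a, by rwa [Sym2.eq_swap]⟩)
          · obtain ⟨x, hx, y, hy, hxy⟩ := mem_prs.mp (h1 hc)
            rcases Sym2.eq_iff.mp hxy with h5 | h5
            · exact Finset.disjoint_left.mp hYZ hy (h5.2 ▸ hc'.1)
            · exact Finset.disjoint_left.mp hXZ hx (h5.1 ▸ hc'.1)
        · obtain ⟨a, ha, c, -, rfl⟩ := mem_prs.mp hf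
          exact ⟨a, Sym2.mem_mk_left _ _, ha⟩
      · rw [card_prs disjoint_sdiff] at hΘ
        have a1 := le_card_sdiff (Tch (insert e A)) Z
        rw [hZ] at a1
        have hAe : (insert e A).card = A.card + 1 := card_insert_of_notMem he2
        generalize (Z \ Tch (insert e A)).card = y at hΘ a1
        rw [hs] at hΘ a1
        have a2 : 2 * ((Tch A).card + 2) ≤ m := by
          generalize (Tch A).card = s at h4
          by_contra hc
          have b1 : (s * m) ^ 2 ≤ (2 * b) ^ 2 := Nat.pow_le_pow_left h4 2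
          have b2 : m ^ 2 * s ^ 2 < m ^ 2 * (2 * m) := by nlinarith
          have b3 := Nat.lt_of_mul_lt_mul_left b2
          obtain ⟨k, rfl⟩ : ∃ k, m = k + 16 := ⟨m - 16, by omega⟩
          have b4 : k + 13 ≤ 2 * s := by omega
          have b5 : (k + 13) ^ 2 ≤ (2 * s) ^ 2 := Nat.pow_le_pow_left b4 2
          nlinarith
        have a3 : ((Tch A).card + 2) * m ≤ 2 * b := by
          have b1 : m ≤ 2 * y := by omega
          have b2 := Nat.mul_le_mul_left ((Tch A).card + 2) b1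
          nlinarith
        have a4 : b ≤ (prs X Y \ insert e (A ∪ E)).card := by
          have b1 := le_card_sdiff (insert e (A ∪ E)) (prs X Y)
          have b2 := card_insert_le e (A ∪ E)
          have b3 := card_union_le A E
          rw [hXYc] at b1
          generalize (Tch A).card = s at h2 h3 a3
          have b4 : 2 * (A.card + E.card + 1 + b) ≤ 2 * ((s + 2) * b) := by nlinarith
          have b5 : m * (A.card + E.card + 1 + b) ≤ m * (m * m) := by nlinarith
          have b6 := Nat.le_of_mul_le_mul_left b5 (by omega)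
          omega
        obtain ⟨T, hT1, hT2⟩ := exists_subset_card_eq a4
        have hT3 : T ⊆ edgesK n \ insert e (A ∪ E) :=
          hT1.trans (sdiff_subset_sdiff (prs_subset hXY) subset_rfl)
        have hT4 := card_le_card hT3
        refine ⟨T, hT3, by omega, hA', Or.inr (Or.inr (Or.inr ⟨?_, ?_, ?_, ?_⟩))⟩
        · exact union_subset h1 (hT1.trans sdiff_subset)
        · have := card_union_le E T
          rw [hs, add_mul]
          omega
        · rw [hs, hAe]
          omega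
        · rw [hs]
          exact a3

abbrev P3 := delEdge (⊤ : SimpleGraph (Fin 3)) s(1, 2)

theorem ncard_nbr (v : Fin 3) : ((⊤ : SimpleGraph (Fin 3)).neighborSet v).ncard ≠ 1 := by
  rw [Set.ncard_eq_toFinset_card', Set.toFinset_card, SimpleGraph.card_neighborSet_eq_degree]
  simp

theorem Cherry.contained {A : Finset (Sym2 (Fin n))} (h : Cherry A) :
    P3.IsContained (SimpleGraph.fromEdgeSet (A : Set (Sym2 (Fin n)))) := by
  obtain ⟨a, b, c, h1, h2, h3, h4, h5⟩ := h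
  refine ⟨⟨⟨fun v => ![a, b, c] v.1, ?_⟩, ?_⟩⟩
  · rintro ⟨u, hu⟩ ⟨v, hv⟩ huv
    simp only [delEdge, SimpleGraph.comap_adj, SimpleGraph.deleteEdges_adj, SimpleGraph.top_adj,
      Set.mem_singleton_iff] at huv
    rw [SimpleGraph.fromEdgeSet_adj]
    have h4' : s(b, a) ∈ A := by rwa [Sym2.eq_swap]
    have h5' : s(c, a) ∈ A := by rwa [Sym2.eq_swap]
    fin_cases u <;> fin_cases v <;> simp_all [eq_comm]
  · rintro ⟨u, hu⟩ ⟨v, hv⟩ huv
    apply Subtype.ext
    fin_cases u <;> fin_cases v <;> simp_all [eq_comm]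

theorem enforce {b : ℕ} (hn : 48 ≤ n) (hb1 : 1 ≤ b) (hb : 2 * b ^ 2 < (n / 3) ^ 3) :
    EnforcerWins P3 n b := by
  obtain ⟨X, -, hX⟩ := exists_subset_card_eq (s := (univ : Finset (Fin n))) (n := n / 3)
    (by rw [card_univ, Fintype.card_fin]; omega)
  obtain ⟨Y, hY1, hY⟩ := exists_subset_card_eq (s := (univ : Finset (Fin n)) \ X) (n := n / 3)
    (by rw [card_sdiff_of_subset (subset_univ _), card_univ, Fintype.card_fin]; omega)
  obtain ⟨Z, hZ1, hZ⟩ := exists_subset_card_eq (s := (univ : Finset (Fin n)) \ (X ∪ Y))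
    (n := n / 3) (by
      have := card_union_le X Y
      rw [card_sdiff_of_subset (subset_univ _), card_univ, Fintype.card_fin]; omega)
  have hXY : Disjoint X Y := Finset.disjoint_left.mpr (fun v hv hv' => (mem_sdiff.mp (hY1 hv')).2 hv)
  have hXZ : Disjoint X Z := Finset.disjoint_left.mpr
    (fun v hv hv' => (mem_sdiff.mp (hZ1 hv')).2 (mem_union_left _ hv))
  have hYZ : Disjoint Y Z := Finset.disjoint_left.mpr
    (fun v hv hv' => (mem_sdiff.mp (hZ1 hv')).2 (mem_union_right _ hv))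
  refine ⟨{p | Good b (n / 3) X Y p.1 p.2}, ⟨empty_subset _, Or.inr (Or.inr (Or.inr ?_))⟩,
    fun p hp => ?_⟩
  · simp [Tch]
  · obtain ⟨h1, h2⟩ := good_step hX hY hZ hXY hXZ hYZ (by omega) hb1 hb hp
    exact ⟨fun h => (h1 h).contained, h2⟩

theorem not_wins_big (hn : 2 ≤ n) : ¬ EnforcerWins P3 n ((edgesK n).card + 1) := by
  rintro ⟨S, h0, hS⟩
  obtain ⟨e, he⟩ : (edgesK n).Nonempty :=
    ⟨s(⟨0, by omega⟩, ⟨1, by omega⟩), mem_edgesK.mpr (by simp)⟩
  obtain ⟨T, hT1, hT2, hT3⟩ := (hS _ h0).2 e (by simpa using he)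
  simp only at hT1 hT2 hT3
  have hT4 : T = edgesK n \ insert e (∅ ∪ ∅) := eq_of_subset_of_card_le hT1 (by
    have := card_le_card (sdiff_subset : edgesK n \ insert e (∅ ∪ ∅) ⊆ edgesK n)
    omega)
  obtain ⟨f⟩ := (hS _ hT3).1 (by simp only; rw [free_after, ← hT4, Finset.sdiff_self])
  let v : Fin 3 → {v : Fin 3 // ¬ (v ∈ (s(1, 2) : Sym2 (Fin 3)) ∧
      ((⊤ : SimpleGraph (Fin 3)).neighborSet v).ncard = 1)} := fun i => ⟨i, fun h => ncard_nbr i h.2⟩
  have h1 := f.toHom.map_adj (show P3.Adj (v 0) (v 1) by simp [delEdge, v])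
  have h2 := f.toHom.map_adj (show P3.Adj (v 0) (v 2) by simp [delEdge, v])
  rw [SimpleGraph.fromEdgeSet_adj] at h1 h2
  simp only [insert_empty_eq, coe_singleton, Set.mem_singleton_iff] at h1 h2
  have h3 := Sym2.congr_right.mp (h1.1.trans h2.1.symm)
  have h4 := congrArg Subtype.val (f.injective h3)
  simp [v] at h4

theorem fLower_big (hn : 48 ≤ n) : n ^ 3 ≤ 512 * (fLower P3 n) ^ 2 := by
  have hbdd : BddAbove {m : ℕ | ∀ b : ℕ, 1 ≤ b → b ≤ m → EnforcerWins P3 n b} := by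
    refine ⟨(edgesK n).card, fun m hm => ?_⟩
    by_contra hc
    exact not_wins_big (by omega) (hm _ (by omega) (by omega))
  have h1 : (n / 3) ^ 3 ≤ 2 * (fLower P3 n + 1) ^ 2 := by
    by_contra hc
    have h2 : fLower P3 n + 1 ≤ fLower P3 n := le_csSup hbdd (fun b hb1 hb2 =>
      enforce hn hb1 (lt_of_le_of_lt (Nat.mul_le_mul_left _ (Nat.pow_le_pow_left hb2 2))
        (not_le.mp hc)))
    omega
  generalize fLower P3 n = f at h1
  have h2 : n ^ 3 ≤ (4 * (n / 3)) ^ 3 := Nat.pow_le_pow_left (by omega) 3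
  have h3 : 16 ^ 3 ≤ (n / 3) ^ 3 := Nat.pow_le_pow_left (by omega) 3
  have h4 : 1 ≤ f := by
    rcases Nat.eq_zero_or_pos f with h | h
    · subst h
      omega
    · exact h
  rw [mul_pow] at h2
  nlinarith

theorem not_theta : ¬ ∃ c : ℝ, 0 < c ∧ ∀ᶠ n in Filter.atTop,
    c * (maxLower (⊤ : SimpleGraph (Fin 3)) n : ℝ) ≤ fUpper (⊤ : SimpleGraph (Fin 3)) n := by
  rintro ⟨c, hc, h⟩
  obtain ⟨n0, h⟩ := Filter.eventually_atTop.mp h
  obtain ⟨L, hL⟩ := exists_nat_gt (512 / c ^ 2)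
  have hL1 : 1 ≤ L := by
    have : (0 : ℝ) < L := lt_trans (by positivity) hL
    exact_mod_cast this
  obtain ⟨n, hn, hw⟩ := triangle_small L (n0 + 48)
  have h1 := h n (by omega)
  have h2 : fLower P3 n ≤ maxLower (⊤ : SimpleGraph (Fin 3)) n :=
    Finset.le_sup (f := fun e => fLower (delEdge (⊤ : SimpleGraph (Fin 3)) e) n) (b := s(1, 2))
      (by simp)
  have h3 := fLower_big (n := n) (by omega)
  have h4 : L * (fUpper (⊤ : SimpleGraph (Fin 3)) n) ^ 2 ≤ n ^ 3 := by
    by_cases hne : {b : ℕ | 1 ≤ b ∧ EnforcerWins (⊤ : SimpleGraph (Fin 3)) n b}.Nonempty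
    · refine (hw _ (Nat.sSup_mem hne ⟨n ^ 3, fun b hb => ?_⟩).2).le
      exact ((Nat.le_self_pow two_ne_zero b).trans (Nat.le_mul_of_pos_left _ hL1)).trans
        (hw b hb.2).le
    · rw [Set.not_nonempty_iff_eq_empty] at hne
      simp [fUpper, hne]
  have h5 : 0 < n ^ 3 := Nat.pow_pos (by omega)
  generalize fUpper (⊤ : SimpleGraph (Fin 3)) n = g at h1 h4
  generalize maxLower (⊤ : SimpleGraph (Fin 3)) n = M at h1 h2
  generalize fLower P3 n = f at h2 h3
  have h6 : L * g ^ 2 ≤ 512 * M ^ 2 :=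
    h4.trans (h3.trans (Nat.mul_le_mul_left _ (Nat.pow_le_pow_left h2 2)))
  have h7 : 0 < M ^ 2 := by
    have := Nat.pow_le_pow_left h2 2
    omega
  have h6' : (L : ℝ) * g ^ 2 ≤ 512 * M ^ 2 := by exact_mod_cast h6
  have h7' : (0 : ℝ) < M ^ 2 := by exact_mod_cast h7
  have h8 : (c * M) ^ 2 ≤ (g : ℝ) ^ 2 := pow_le_pow_left₀ (by positivity) h1 2
  rw [div_lt_iff₀ (by positivity)] at hL
  have h9 : (0 : ℝ) ≤ L := Nat.cast_nonneg L
  rw [mul_pow] at h8
  nlinarith [mul_le_mul_of_nonneg_left h8 h9, mul_lt_mul_of_pos_right hL h7']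

end Pool.Agent.H242Z.AE
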