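import Pool.Agent.H242Z.AERough
import Pool.Agent.Helper256.KM.Mertens

/-!
# Infinitely many `n` such that no `C(n,2) - r`, `1 ≤ r ≤ K`, has a divisor of order `√n`
-/

set_option autoImplicit false

namespace Pool.Agent.H242Z.AE

open Finset Filter

theorem cnt_union {ι : Type} (s : Finset ι) (Q : ℕ → Prop) (R : ι → ℕ → Prop) (a N : ℕ)
    (h : ∀ t, a ≤ t → t < a + N → Q t → ∃ i ∈ s, R i t) :
    cnt Q a N ≤ ∑ i ∈ s, cnt (R i) a N := by
  classical
  unfold cnt
  refine le_trans (Finset.card_le_card ?_) Finset.card_biUnion_le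
  intro t ht
  rw [mem_filter, mem_Ico] at ht
  obtain ⟨i, hi, hi'⟩ := h t ht.1.1 ht.1.2 ht.2
  exact mem_biUnion.mpr ⟨i, hi, mem_filter.mpr ⟨mem_Ico.mpr ht.1, hi'⟩⟩

theorem exp_le_one_sub {x : ℝ} (h0 : 0 ≤ x) (h1 : x ≤ 1 / 2) : Real.exp (-(2 * x)) ≤ 1 - x := by
  have h2 := Real.add_one_le_exp (2 * x)
  rw [Real.exp_neg, inv_le_comm₀ (Real.exp_pos _) (by linarith), inv_eq_one_div,
    div_le_iff₀ (by linarith)]
  nlinarith

/-- the sieve step -/
theorem sieve_step (K w M z B i T h : ℕ) (hw : 8 * K + 1 ≤ w) (hwz : w ≤ z)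
    (hM : ∀ p : ℕ, p.Prime → p ∣ M → p ≤ w) (hB : 2 ≤ B) (hT : B ^ (2 * i) ≤ T)
    (Λ : ℝ) (hΛ : 2 * K * ∑ p ∈ (Icc 1 z).filter Nat.Prime, (1 : ℝ) / p ≤ Λ)
    (h1 : 10 * Real.exp (4 * Λ) ≤ 4 ^ h)
    (h2 : 4 * B * 4 ^ h * (1 + 2 * K * z) ^ (2 * h + 1) ≤ B ^ i)
    (h3 : 10 * K * ∑ q ∈ Win z B i, (q.divisors.card : ℝ) / q ≤ 1) :
    ∃ t, T ≤ t ∧ t < T + T ∧
      (∀ p : ℕ, p.Prime → w < p → p ≤ z → ∀ r ∈ Icc 1 K, ¬ (p : ℤ) ∣ GG r (M * t)) ∧
      ∀ r ∈ Icc 1 K, ∀ q ∈ Win z B i, ¬ (q : ℤ) ∣ GG r (M * t) := by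
  classical
  by_contra hcon
  let P : Finset ℕ := (Ioc w z).filter Nat.Prime
  have hP : ∀ p, p ∈ P ↔ (w < p ∧ p ≤ z) ∧ p.Prime := fun p => by simp [P]
  let E : ℕ → ℕ → Prop := fun p t => ∃ r ∈ Icc 1 K, (p : ℤ) ∣ GG r (M * t)
  have hEper : ∀ p, Function.Periodic (E p) p := by
    intro p t
    simp only [E]
    congr! 3 with r
    exact (GG_periodic p M r t).to_iff
  have hroot : ∀ (y q r : ℕ), w ≤ y → Rough y q → 0 < q → r ∈ Icc 1 K →
      cnt (fun t => (q : ℤ) ∣ GG r (M * t)) 0 q ≤ q.divisors.card := by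
    intro y q r hy hq hq0 hr
    rw [mem_Icc] at hr
    exact roots_le hq0 (hq.coprime (fun p hp h => (hM p hp h).trans hy))
      (hq.coprime_le (by omega) (by omega))
  have hρ : ∀ p ∈ P, cnt (E p) 0 p ≤ 2 * K := by
    intro p hp
    rw [hP] at hp
    refine (cnt_union (Icc 1 K) (E p) (fun r t => (p : ℤ) ∣ GG r (M * t)) 0 p
      (fun t _ _ ht => ht)).trans ?_
    refine (Finset.sum_le_card_nsmul _ _ 2 (fun r hr => ?_)).trans (by simp [mul_comm])
    refine (hroot w p r le_rfl (fun p' hp' hd => ?_) hp.2.pos hr).trans ?_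
    · rw [(Nat.prime_dvd_prime_iff_eq hp' hp.2).mp hd]
      exact hp.1.1
    · rw [hp.2.divisors]
      exact Finset.card_le_two
  obtain ⟨TT, -, hT1, hT2⟩ := brun E T T P (fun p hp => ((hP p).mp hp).2.pos) (fun p _ => hEper p)
    (fun p hp p' hp' hne => (Nat.coprime_primes ((hP p).mp hp).2 ((hP p').mp hp').2).mpr hne)
  set l : ℝ := ∑ p ∈ P, (cnt (E p) 0 p : ℝ) / p with hl
  set s : ℝ := ∑ p ∈ P, (cnt (E p) 0 p : ℝ) with hs
  set V : ℝ := ∏ p ∈ P, (1 - (cnt (E p) 0 p : ℝ) / p) with hV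
  have hl0 : 0 ≤ l := Finset.sum_nonneg (fun _ _ => by positivity)
  have hs0 : 0 ≤ s := Finset.sum_nonneg (fun _ _ => by positivity)
  have hlΛ : l ≤ Λ := by
    refine le_trans ?_ hΛ
    rw [Finset.mul_sum]
    refine le_trans (Finset.sum_le_sum (g := fun p : ℕ => 2 * K * ((1 : ℝ) / p)) (fun p hp => ?_))
      (Finset.sum_le_sum_of_subset_of_nonneg ?_ (fun _ _ _ => by positivity))
    · rw [mul_one_div]
      exact div_le_div_of_nonneg_right (by exact_mod_cast hρ p hp) (Nat.cast_nonneg _)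
    · intro p hp
      rw [hP] at hp
      rw [mem_filter, mem_Icc]
      exact ⟨⟨hp.2.pos, hp.1.2⟩, hp.2⟩
  have hsz : s ≤ 2 * K * z := by
    have a1 := Finset.sum_le_card_nsmul P (fun p => (cnt (E p) 0 p : ℝ)) (2 * K)
      (fun p hp => by exact_mod_cast hρ p hp)
    have a2 : P.card ≤ z := (Finset.card_filter_le _ _).trans (by simp)
    have a3 : (P.card : ℝ) ≤ z := by exact_mod_cast a2
    rw [nsmul_eq_mul] at a1
    have : (0 : ℝ) ≤ 2 * K := by positivity
    nlinarith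
  have hVl : Real.exp (-(2 * l)) ≤ V := by
    rw [hl, Finset.mul_sum, ← Finset.sum_neg_distrib, Real.exp_sum]
    refine Finset.prod_le_prod (fun _ _ => (Real.exp_pos _).le) (fun p hp => ?_)
    refine exp_le_one_sub (by positivity) ?_
    have a1 : (cnt (E p) 0 p : ℝ) ≤ 2 * K := by exact_mod_cast hρ p hp
    have a2 : ((8 * K + 1 : ℕ) : ℝ) ≤ p := by
      exact_mod_cast hw.trans ((hP p).mp hp).1.1.le
    push_cast at a2
    have : (0 : ℝ) ≤ K := Nat.cast_nonneg K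
    rw [div_le_iff₀ (by linarith)]
    linarith
  have hexp : 10 * Real.exp (4 * l) ≤ 4 ^ h :=
    le_trans (by have := Real.exp_le_exp.mpr (show 4 * l ≤ 4 * Λ by linarith); linarith) h1
  have hee : Real.exp (4 * l) * Real.exp (-(2 * l)) = Real.exp (2 * l) := by
    rw [← Real.exp_add]; congr 1; ring
  have h4pos : (0 : ℝ) < 4 ^ h := by positivity
  have hV0 : 0 < V := lt_of_lt_of_le (Real.exp_pos _) hVl
  have htail : ∀ k, 2 * h ≤ k → l ^ (k + 1) / ((k + 1).factorial : ℝ) ≤ V / 10 := by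
    intro k hk
    have a1 := Real.pow_div_factorial_le_exp (2 * l) (by linarith) (k + 1)
    have a2 : (4 : ℝ) ^ h ≤ 2 ^ (k + 1) := by
      rw [show (4 : ℝ) = 2 ^ 2 by norm_num, ← pow_mul]
      exact pow_le_pow_right₀ (by norm_num) (by omega)
    rw [mul_pow, mul_div_assoc] at a1
    have a3 : 0 ≤ l ^ (k + 1) / ((k + 1).factorial : ℝ) := by positivity
    have a4 : 4 ^ h * (l ^ (k + 1) / ((k + 1).factorial : ℝ)) ≤ Real.exp (2 * l) :=
      (mul_le_mul_of_nonneg_right a2 a3).trans a1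
    have a5 : 10 * Real.exp (2 * l) ≤ 4 ^ h * V := by
      rw [← hee, ← mul_assoc]
      exact mul_le_mul hexp hVl (Real.exp_pos _).le h4pos.le
    have a6 : 4 ^ h * (l ^ (k + 1) / ((k + 1).factorial : ℝ)) ≤ 4 ^ h * (V / 10) := by linarith
    exact le_of_mul_le_mul_left a6 h4pos
  have hV4 : 1 ≤ 4 ^ h * V := by
    have a5 : 10 * Real.exp (2 * l) ≤ 4 ^ h * V := by
      rw [← hee, ← mul_assoc]
      exact mul_le_mul hexp hVl (Real.exp_pos _).le h4pos.le
    have := Real.add_one_le_exp (2 * l)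
    linarith
  set Err : ℝ := (1 + 2 * K * z) ^ (2 * h + 1) with hErr
  have hz0 : (0 : ℝ) ≤ 2 * K * z := by positivity
  have hErr1 : ∀ k, k ≤ 2 * h + 1 → (1 + s) ^ k ≤ Err := by
    intro k hk
    exact (pow_le_pow_left₀ (by linarith) (by linarith) k).trans
      (pow_le_pow_right₀ (by linarith) hk)
  have hErr0 : 0 < Err := by positivity
  have hT0 : (0 : ℝ) ≤ T := Nat.cast_nonneg T
  -- lower bound
  have hlow : T * (V - V / 10) - Err ≤ cnt (fun t => ∀ p ∈ P, ¬ E p t) T T := by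
    have a1 := hT2 (2 * h + 1) (fun _ => True) 1 one_pos (fun _ => rfl)
      (fun p _ => Nat.coprime_one_left p)
    have a2 : cnt (fun _ => True) 0 1 = 1 := by simp [cnt]
    rw [a2, cnt_congr (Q' := fun t => ∀ p ∈ P, ¬ E p t) (fun t => by simp),
      (odd_two_mul_add_one h).neg_one_pow] at a1
    have a3 := abs_le.mp ((hT1 (2 * h + 1)).trans (htail _ (by omega)))
    have a4 := hErr1 (2 * h + 1) le_rfl
    have a5 := mul_le_mul_of_nonneg_left a3.1 hT0
    simp only [Nat.cast_one, div_one, mul_one, one_mul] at a1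
    nlinarith
  -- upper bounds
  have hup : ∀ r ∈ Icc 1 K, ∀ q ∈ Win z B i,
      (cnt (fun t => (q : ℤ) ∣ GG r (M * t) ∧ ∀ p ∈ P, ¬ E p t) T T : ℝ) ≤
        (T * (V + V / 10) + B ^ (i + 1) * Err) * ((q.divisors.card : ℝ) / q) := by
    intro r hr q hq
    rw [mem_Win] at hq
    have hq0 : 0 < q := lt_of_lt_of_le (Nat.pow_pos (by omega)) hq.1.1
    have hq0' : (0 : ℝ) < q := by exact_mod_cast hq0
    have a1 := hT2 (2 * h) (fun t => (q : ℤ) ∣ GG r (M * t)) q hq0 (GG_periodic q M r)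
      (fun p hp => hq.2.coprime_le ((hP p).mp hp).2.pos ((hP p).mp hp).1.2)
    rw [(even_two_mul h).neg_one_pow, one_mul] at a1
    have a2 : (cnt (fun t => (q : ℤ) ∣ GG r (M * t)) 0 q : ℝ) ≤ q.divisors.card := by
      exact_mod_cast hroot z q r hwz hq.2 hq0 hr
    have a3 := abs_le.mp ((hT1 (2 * h)).trans (htail _ le_rfl))
    have a4 := hErr1 (2 * h) (by omega)
    set ρ : ℝ := (cnt (fun t => (q : ℤ) ∣ GG r (M * t)) 0 q : ℝ) with hρ'
    have hρ0 : 0 ≤ ρ := Nat.cast_nonneg _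
    have a5 : ρ / q ≤ (q.divisors.card : ℝ) / q := div_le_div_of_nonneg_right a2 hq0'.le
    have a6 : T * (ρ / q) * TT (2 * h) ≤ T * (V + V / 10) * ((q.divisors.card : ℝ) / q) := by
      calc T * (ρ / q) * TT (2 * h) ≤ T * (ρ / q) * (V + V / 10) :=
            mul_le_mul_of_nonneg_left (by linarith [a3.2]) (by positivity)
        _ = T * (V + V / 10) * (ρ / q) := by ring
        _ ≤ _ := mul_le_mul_of_nonneg_left a5 (by positivity)
    have a7 : ρ * (1 + s) ^ (2 * h) ≤ B ^ (i + 1) * Err * ((q.divisors.card : ℝ) / q) := by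
      have b1 : (q : ℝ) ≤ B ^ (i + 1) := by exact_mod_cast hq.1.2.le
      calc ρ * (1 + s) ^ (2 * h) ≤ q.divisors.card * Err :=
            mul_le_mul a2 a4 (by positivity) (by positivity)
        _ = q * Err * ((q.divisors.card : ℝ) / q) := by field_simp
        _ ≤ _ := by gcongr
    linarith
  have hunion := cnt_union (Icc 1 K ×ˢ Win z B i) (fun t => ∀ p ∈ P, ¬ E p t)
    (fun x t => (x.2 : ℤ) ∣ GG x.1 (M * t) ∧ ∀ p ∈ P, ¬ E p t) T T (by
      intro t ht1 ht2 ht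
      by_contra hc
      refine hcon ⟨t, ht1, ht2, fun p hp hp1 hp2 r hr hd => ?_, fun r hr q hq hd => ?_⟩
      · exact ht p ((hP p).mpr ⟨⟨hp1, hp2⟩, hp⟩) ⟨r, hr, hd⟩
      · exact hc ⟨(r, q), mem_product.mpr ⟨hr, hq⟩, hd, ht⟩)
  have hunion' : (cnt (fun t => ∀ p ∈ P, ¬ E p t) T T : ℝ) ≤
      (T * (V + V / 10) + B ^ (i + 1) * Err) *
        (K * ∑ q ∈ Win z B i, (q.divisors.card : ℝ) / q) := by
    refine le_trans (by exact_mod_cast hunion : _ ≤ ∑ x ∈ Icc 1 K ×ˢ Win z B i,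
      (cnt (fun t => (x.2 : ℤ) ∣ GG x.1 (M * t) ∧ ∀ p ∈ P, ¬ E p t) T T : ℝ)) ?_
    refine (Finset.sum_le_sum (fun x hx => hup x.1 (mem_product.mp hx).1 x.2
      (mem_product.mp hx).2)).trans (le_of_eq ?_)
    rw [← Finset.mul_sum, Finset.sum_product]
    simp
  have hX : 0 ≤ T * (V + V / 10) + B ^ (i + 1) * Err := by positivity
  have hfin : T * (V - V / 10) - Err ≤ (T * (V + V / 10) + B ^ (i + 1) * Err) * (1 / 10) :=
    hlow.trans (hunion'.trans (mul_le_mul_of_nonneg_left (by linarith) hX))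
  have h2' : (4 : ℝ) * B * 4 ^ h * Err ≤ B ^ i := by
    rw [hErr]
    exact_mod_cast h2
  have hT' : (B : ℝ) ^ i * B ^ i ≤ T := by
    rw [← pow_add, ← two_mul]
    exact_mod_cast hT
  have hBi : (1 : ℝ) ≤ B ^ (i + 1) := one_le_pow₀ (by exact_mod_cast (by omega : 1 ≤ B))
  have hfin2 : 4 * (B ^ (i + 1) * Err) ≤ T * V := by
    calc 4 * (B ^ (i + 1) * Err) ≤ 4 * (B ^ (i + 1) * Err) * (4 ^ h * V) :=
          le_mul_of_one_le_right (by positivity) hV4
      _ = B ^ i * (4 * B * 4 ^ h * Err) * V := by ring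
      _ ≤ B ^ i * B ^ i * V := by gcongr
      _ ≤ T * V := by gcongr
  have hfin3 : Err ≤ B ^ (i + 1) * Err := le_mul_of_one_le_left hErr0.le hBi
  nlinarith

theorem ev1 (K : ℕ) (C : ℝ) : ∀ᶠ h : ℕ in atTop,
    10 * Real.exp (4 * (2 * K * (2 * Real.log h + C))) ≤ 4 ^ h := by
  have h1 := (tendsto_pow_const_div_const_pow_of_one_lt (16 * K) (r := 4) (by norm_num)).const_mul
    (10 * Real.exp (8 * K * C))
  rw [mul_zero] at h1
  filter_upwards [h1.eventually (gt_mem_nhds one_pos), eventually_ge_atTop 1] with h hh h0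
  have h0' : (0 : ℝ) < h := by exact_mod_cast h0
  rw [← mul_div_assoc, div_lt_one (by positivity)] at hh
  refine le_trans (le_of_eq ?_) hh.le
  have : 4 * (2 * K * (2 * Real.log h + C)) = 8 * K * C + ((16 * K : ℕ) : ℝ) * Real.log h := by
    push_cast; ring
  rw [this, Real.exp_add, Real.exp_nat_mul, Real.exp_log h0']
  ring

theorem nt_main (K A n0 : ℕ) (hK : 1 ≤ K) (hA : 1 ≤ A) : ∃ n, n0 ≤ n ∧ ∀ r q d : ℕ, 1 ≤ r → r ≤ K →
    n.choose 2 = q * d + r → n ≤ A * q ^ 2 → q ^ 2 ≤ A * n → False := by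
  classical
  obtain ⟨C, hC⟩ := Pool.Agent.Helper256.KM.mertens_inv
  set w := 8 * K + 1 with hw
  set W := w.factorial with hW
  have hW0 : 0 < W := Nat.factorial_pos _
  set M := 2 * W * W with hM
  have hM0 : 0 < M := by positivity
  set B := 2 * A * A * K * K * M + 2 with hB
  have hB2 : 2 ≤ B := by omega
  have hlogB : 0 < Real.log B := Real.log_pos (by exact_mod_cast (by omega : 1 < B))
  obtain ⟨h0, hh0⟩ := exists_nat_gt (10 * K * (2 + 16 * Real.log B) ^ 2)
  obtain ⟨h, ⟨e1, e2⟩⟩ := ((ev1 K C).and (eventually_ge_atTop (h0 + 4 * B + w + n0 + 2))).exists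
  have hh : h < 2 ^ h := Nat.lt_two_pow_self
  have hhz : 2 ^ h ≤ 2 ^ (h ^ 2) := Nat.pow_le_pow_right (by omega) (Nat.le_self_pow two_ne_zero h)
  have hcube : 2 * h ≤ h ^ 3 := by
    have b1 : 2 ≤ h ^ 2 := (by omega : 2 ≤ h).trans (Nat.le_self_pow two_ne_zero h)
    calc 2 * h ≤ h ^ 2 * h := Nat.mul_le_mul_right _ b1
      _ = h ^ 3 := by ring
  have hexp6 : 2 * h ^ 2 * (2 * h + 1) ≤ 6 * h ^ 3 := by
    calc 2 * h ^ 2 * (2 * h + 1) ≤ 2 * h ^ 2 * (3 * h) := Nat.mul_le_mul_left _ (by omega)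
      _ = 6 * h ^ 3 := by ring
  set z := 2 ^ (h ^ 2) with hz
  obtain ⟨i, hi, hwin⟩ := window z B (8 * h ^ 3) hB2 (by
    have : 0 < h ^ 3 := Nat.pow_pos (by omega)
    omega)
  have hlog2 := Real.log_two_gt_d9
  have hlog2' := Real.log_two_lt_d9
  have hlogz : Real.log z = h ^ 2 * Real.log 2 := by
    rw [hz]
    push_cast
    rw [Real.log_pow]
    push_cast
    ring
  have hh1 : (2 : ℝ) ≤ h := by exact_mod_cast (by omega : 2 ≤ h)
  have hBi : 2 ^ (8 * h ^ 3) ≤ B ^ i :=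
    (Nat.pow_le_pow_right (by omega) hi).trans (Nat.pow_le_pow_left hB2 i)
  obtain ⟨t, ht1, ht2, ht3, ht4⟩ := sieve_step K w M z B i (A * K * K * B ^ (2 * i)) h le_rfl
    (by omega) (by
      intro p hp hd
      rcases (Nat.Prime.dvd_mul hp).mp hd with h1 | h1
      · rcases (Nat.Prime.dvd_mul hp).mp h1 with h2 | h2
        · have := Nat.le_of_dvd two_pos h2
          omega
        · exact (Nat.Prime.dvd_factorial hp).mp h2
      · exact (Nat.Prime.dvd_factorial hp).mp h1) hB2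
    (Nat.le_mul_of_pos_left _ (by positivity)) (2 * K * (2 * Real.log h + C)) (by
      refine mul_le_mul_of_nonneg_left ?_ (by positivity)
      have a1 := (abs_le.mp (hC z (by omega))).2
      have a2 : Real.log (Real.log z) ≤ 2 * Real.log h := by
        rw [hlogz, show 2 * Real.log h = Real.log (h ^ 2) by rw [Real.log_pow]; norm_num]
        exact Real.log_le_log (by positivity) (by nlinarith)
      linarith) e1 (by
      refine le_trans ?_ hBi
      have a1 : 1 + 2 * K * z ≤ 2 ^ (2 * h ^ 2) := by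
        rw [two_mul (h ^ 2), pow_add, ← hz]
        calc 1 + 2 * K * z ≤ z + 2 * K * z := by omega
          _ = (1 + 2 * K) * z := by ring
          _ ≤ z * z := Nat.mul_le_mul_right _ (by omega)
      have a2 : (1 + 2 * K * z) ^ (2 * h + 1) ≤ 2 ^ (6 * h ^ 3) := by
        refine (Nat.pow_le_pow_left a1 _).trans ?_
        rw [← pow_mul]
        exact Nat.pow_le_pow_right (by omega) hexp6
      have a3 : 4 * B * 4 ^ h ≤ 2 ^ (2 * h ^ 3) := by
        calc 4 * B * 4 ^ h ≤ 2 ^ h * 4 ^ h := Nat.mul_le_mul_right _ (by omega)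
          _ = 2 ^ (3 * h) := by
            rw [show 4 = 2 ^ 2 by norm_num, ← pow_mul, ← pow_add]
            congr 1
            ring
          _ ≤ _ := Nat.pow_le_pow_right (by omega) (by omega)
      calc _ ≤ 2 ^ (2 * h ^ 3) * 2 ^ (6 * h ^ 3) := Nat.mul_le_mul a3 a2
        _ = _ := by rw [← pow_add]; congr 1; ring) (by
      have a1 := rough_sum z (B ^ (2 * (8 * h ^ 3))) (by omega)
      set σ := ∑ a ∈ RR z (B ^ (2 * (8 * h ^ 3))), (1 : ℝ) / a with hσ
      have hσ0 : 0 ≤ σ := Finset.sum_nonneg (fun _ _ => by positivity)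
      set D := ∑ q ∈ Win z B i, (q.divisors.card : ℝ) / q with hD
      have hD0 : 0 ≤ D := Finset.sum_nonneg (fun _ _ => by positivity)
      have hzpos : (0 : ℝ) < z := by exact_mod_cast (by omega : 0 < z)
      have hBpos : (0 : ℝ) < B := by exact_mod_cast (by omega : 0 < B)
      rw [Nat.cast_mul, Real.log_mul (by positivity) hzpos.ne', hlogz, Nat.cast_pow,
        Real.log_pow] at a1
      push_cast at a1 hwin
      set L := 2 + 16 * Real.log B with hL
      have hh3 : (h : ℝ) ^ 2 ≤ h ^ 3 := pow_le_pow_right₀ (by linarith) (by norm_num)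
      have hh4 : (1 : ℝ) ≤ h ^ 2 := one_le_pow₀ (by linarith)
      have a2 : σ * (h ^ 2 * (1 / 2)) ≤ h ^ 3 * L := by
        have b1 : σ * (h ^ 2 * (1 / 2)) ≤ σ * (h ^ 2 * Real.log 2) := by gcongr; linarith
        have b2 : (h : ℝ) ^ 2 * Real.log 2 ≤ h ^ 3 := by nlinarith
        rw [hL]
        nlinarith
      have a3 : σ ≤ 2 * h * L := by
        have b1 : (h : ℝ) ^ 2 * σ ≤ h ^ 2 * (2 * h * L) := by nlinarith
        exact le_of_mul_le_mul_left b1 (by positivity)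
      have hL0 : 0 < L := by positivity
      have a4 : σ ^ 2 ≤ (2 * h * L) ^ 2 := pow_le_pow_left₀ hσ0 a3 2
      have a5 : (h : ℝ) ^ 2 * (h * D) ≤ h ^ 2 * L ^ 2 := by nlinarith
      have a6 : h * D ≤ L ^ 2 := le_of_mul_le_mul_left a5 (by positivity)
      have a7 : (h0 : ℝ) ≤ h := by exact_mod_cast (by omega : h0 ≤ h)
      have hK0 : (0 : ℝ) ≤ 10 * K := by positivity
      have a8 : h * (10 * K * D) ≤ h * 1 := by nlinarith
      exact le_of_mul_le_mul_left a8 (by positivity))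
  have hB2i : B ^ i ≤ B ^ (2 * i) := Nat.pow_le_pow_right (by omega) (by omega)
  have hTn : A * K * K * B ^ (2 * i) ≤ M * t := ht1.trans (Nat.le_mul_of_pos_left _ hM0)
  refine ⟨M * t, ?_, fun r q d hr1 hr2 hN hq1 hq2 => ?_⟩
  · have a1 : 2 ^ h ≤ 2 ^ (8 * h ^ 3) := Nat.pow_le_pow_right (by omega) (by omega)
    have a2 : B ^ (2 * i) ≤ A * K * K * B ^ (2 * i) := Nat.le_mul_of_pos_left _ (by positivity)
    omega
  · obtain ⟨W', hW'⟩ : r ∣ W := Nat.dvd_factorial hr1 (by omega)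
    have hNN : (M * t).choose 2 = r * (W * (W' * t * (M * t - 1))) := by
      rw [Nat.choose_two_right]
      apply Nat.div_eq_of_eq_mul_right two_pos
      generalize M * t - 1 = y
      rw [hM]
      nth_rewrite 2 [hW']
      ring
    obtain ⟨u, hu⟩ : ∃ u, W * (W' * t * (M * t - 1)) = u + 1 := by
      apply Nat.exists_eq_succ_of_ne_zero
      intro h
      rw [h] at hNN
      omega
    have hqd : q * d = r * u := by
      rw [hu, hN] at hNN
      linarith
    obtain ⟨q1, q2, hq1r, hq2u, rfl⟩ := exists_dvd_and_dvd_of_dvd_mul (⟨d, hqd.symm⟩ : q ∣ r * u)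
    have hG : GG r (M * t) = 2 * r * u := by
      have b1 : 2 * (M * t).choose 2 = M * t * (M * t - 1) := by
        rw [Nat.choose_two_right]
        exact Nat.mul_div_cancel' (Nat.even_mul_pred_self _).two_dvd
      have b2 : 1 ≤ M * t := le_trans (Nat.succ_le_of_lt (by positivity)) hTn
      rw [hN, hqd] at b1
      have b3 : (2 : ℤ) * (r * u + r) = ((M * t : ℕ) : ℤ) * (((M * t : ℕ) : ℤ) - 1) := by
        have := congrArg (Nat.cast : ℕ → ℤ) b1
        rw [Nat.cast_mul (M * t), Nat.cast_sub b2] at this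
        exact_mod_cast this
      unfold GG
      linarith
    have hr : r ∈ Icc 1 K := mem_Icc.mpr ⟨hr1, hr2⟩
    have hq1pos : 0 < q1 := Nat.pos_of_dvd_of_pos hq1r hr1
    have hq1K : q1 ≤ K := (Nat.le_of_dvd hr1 hq1r).trans hr2
    refine ht4 r hr q2 (mem_Win.mpr ⟨⟨?_, ?_⟩, fun p hp hd => ?_⟩) ?_
    · have b1 : A * K * K * (B ^ i) ^ 2 ≤ A * K * K * q2 ^ 2 := by
        rw [← pow_mul, mul_comm i 2]
        refine hTn.trans (hq1.trans ?_)
        calc A * (q1 * q2) ^ 2 = A * q1 * q1 * q2 ^ 2 := by ring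
          _ ≤ _ := by gcongr
      exact (Nat.pow_le_pow_iff_left two_ne_zero).mp (Nat.le_of_mul_le_mul_left b1 (by positivity))
    · have b1 : q2 ^ 2 < (B ^ (i + 1)) ^ 2 := by
        calc q2 ^ 2 ≤ (q1 * q2) ^ 2 := Nat.pow_le_pow_left (Nat.le_mul_of_pos_left _ hq1pos) 2
          _ ≤ A * (M * t) := hq2
          _ ≤ A * (M * (A * K * K * B ^ (2 * i) + A * K * K * B ^ (2 * i))) := by gcongr
          _ = (2 * A * A * K * K * M) * B ^ (2 * i) := by ring
          _ < (B * B) * B ^ (2 * i) := by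
            refine Nat.mul_lt_mul_of_pos_right ?_ (by positivity)
            nlinarith
          _ = _ := by ring
      exact (Nat.pow_lt_pow_iff_left two_ne_zero).mp b1
    · by_contra hc
      have hpu : p ∣ u := hd.trans hq2u
      by_cases hpw : p ≤ w
      · have b1 : p ∣ u + 1 := by
          rw [← hu]
          exact ((Nat.Prime.dvd_factorial hp).mpr hpw).mul_right _
        exact hp.one_lt.ne' (Nat.eq_one_of_dvd_one ((Nat.dvd_add_right hpu).mp b1))
      · refine ht3 p hp (by omega) (by omega) r hr ?_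
        rw [hG]
        exact Dvd.dvd.mul_left (by exact_mod_cast hpu) _
    · rw [hG]
      exact Dvd.dvd.mul_left (by exact_mod_cast hq2u) _

end Pool.Agent.H242Z.AE
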