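import Pool.Agent.H242Z.AEAvoid
import Pool.Agent.H242Z.AENT

set_option autoImplicit false

namespace Pool.Agent.H242Z.AE

/-- For infinitely many `n` Avoider wins the triangle game for every bias of order at least
`n ^ (3 / 2)`. -/
theorem triangle_small (L n0 : ℕ) : ∃ n, n0 ≤ n ∧ ∀ b,
    EnforcerWins (⊤ : SimpleGraph (Fin 3)) n b → L * b ^ 2 < n ^ 3 := by
  obtain ⟨n, hn, h⟩ := nt_main ((4 * L) ^ 2 + 1) (L + 16) (n0 + 2) (by omega) (by omega)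
  refine ⟨n, by omega, fun b hb => ?_⟩
  by_contra hc
  obtain ⟨r, q, d, h1, h2, h3, h4, h5⟩ := divisor_of_wins (by omega) (not_lt.mp hc) hb
  exact h r q d h1 (by omega) h3 (h4.trans (Nat.mul_le_mul_right _ (by omega)))
    (h5.trans (Nat.mul_le_mul_right _ (by omega)))

theorem not_unicyclic (c : ℝ) (hc : 0 < c) (n0 : ℕ) : ∃ n, n0 ≤ n ∧ ∀ b : ℕ,
    c * (n : ℝ) ^ ((3 : ℝ) / (3 - 1)) ≤ b → ¬ EnforcerWins (⊤ : SimpleGraph (Fin 3)) n b := by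
  obtain ⟨L, hL⟩ := exists_nat_gt (1 / c ^ 2)
  obtain ⟨n, hn, h⟩ := triangle_small L n0
  refine ⟨n, hn, fun b hb hw => ?_⟩
  have h1 : (L : ℝ) * b ^ 2 < n ^ 3 := by exact_mod_cast h b hw
  have h2 : ((n : ℝ) ^ ((3 : ℝ) / (3 - 1))) ^ 2 = n ^ 3 := by
    rw [← Real.rpow_natCast, ← Real.rpow_mul (Nat.cast_nonneg n), ← Real.rpow_natCast]
    norm_num
  have h3 : c ^ 2 * n ^ 3 ≤ (b : ℝ) ^ 2 := by
    rw [← h2, ← mul_pow]
    exact pow_le_pow_left₀ (by positivity) hb 2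
  rw [div_lt_iff₀ (by positivity)] at hL
  have h4 : (0 : ℝ) ≤ n ^ 3 := by positivity
  have h5 : (0 : ℝ) ≤ L := Nat.cast_nonneg L
  nlinarith [mul_le_mul_of_nonneg_left h3 h5, mul_le_mul_of_nonneg_right hL.le h4]

end Pool.Agent.H242Z.AE
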