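import Pool.Agent.H242Z.AESieve

/-!
# Roots of `n ^ 2 - n - 2 r` and sums over rough numbers
-/

set_option autoImplicit false

namespace Pool.Agent.H242Z.AE

open Finset

def GG (r n : ℕ) : ℤ := (n : ℤ) ^ 2 - n - 2 * r

def Rough (z a : ℕ) : Prop := ∀ p : ℕ, p.Prime → p ∣ a → z < p

theorem Rough.coprime {z a m : ℕ} (h : Rough z a) (hm : ∀ p : ℕ, p.Prime → p ∣ m → p ≤ z) :
    Nat.Coprime a m := by
  apply Nat.coprime_of_dvd
  intro p hp h1 h2
  have := h p hp h1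
  have := hm p hp h2
  omega

theorem Rough.coprime_le {z a m : ℕ} (h : Rough z a) (h0 : 0 < m) (hm : m ≤ z) :
    Nat.Coprime a m :=
  h.coprime (fun _ _ hp => (Nat.le_of_dvd h0 hp).trans hm)

theorem Rough.of_dvd {z a b : ℕ} (h : Rough z a) (hb : b ∣ a) : Rough z b :=
  fun p hp h1 => h p hp (h1.trans hb)

theorem GG_periodic (q M r : ℕ) : Function.Periodic (fun t => (q : ℤ) ∣ GG r (M * t)) q := by
  intro t
  have : GG r (M * (t + q)) = GG r (M * t) + q * (2 * M * M * t + M * M * q - M) := by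
    unfold GG
    push_cast
    ring
  simp only [this]
  exact propext (dvd_add_left (Dvd.intro _ rfl))

theorem root_aux {q : ℕ} (hq : 0 < q) {x y : ℤ} (h : (q : ℤ) ∣ (x - y) * (x + y - 1)) :
    ((q / Int.gcd q (x - y) : ℕ) : ℤ) ∣ x + y - 1 := by
  set g := Int.gcd q (x - y) with hg
  have hg0 : 0 < g := Int.gcd_pos_of_ne_zero_left _ (by exact_mod_cast hq.ne')
  have h1 : (g : ℤ) ∣ q := Int.gcd_dvd_left _ _
  have h2 : (g : ℤ) ∣ x - y := Int.gcd_dvd_right _ _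
  have h3 : Int.gcd ((q : ℤ) / g) ((x - y) / g) = 1 := Int.gcd_div_gcd_div_gcd hg0
  obtain ⟨q', hq'⟩ := h1
  obtain ⟨u, hu⟩ := h2
  have hgz : (g : ℤ) ≠ 0 := by exact_mod_cast hg0.ne'
  rw [Int.natCast_div]
  rw [hq', hu, Int.mul_ediv_cancel_left _ hgz, Int.mul_ediv_cancel_left _ hgz] at h3
  rw [hq', hu, mul_assoc] at h
  rw [hq', Int.mul_ediv_cancel_left _ hgz]
  exact Int.dvd_of_dvd_mul_right_of_gcd_one ((mul_dvd_mul_iff_left hgz).mp h) h3

theorem roots_le {q M r : ℕ} (hq : 0 < q) (h1 : Nat.Coprime q M) (h2 : Nat.Coprime q (1 + 8 * r)) :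
    cnt (fun t => (q : ℤ) ∣ GG r (M * t)) 0 q ≤ q.divisors.card := by
  classical
  unfold cnt
  rcases (((Ico 0 (0 + q)).filter (fun t => (q : ℤ) ∣ GG r (M * t)))).eq_empty_or_nonempty with
    h | ⟨t0, ht0⟩
  · calc _ = ((Ico 0 (0 + q)).filter (fun t => (q : ℤ) ∣ GG r (M * t))).card := by congr
      _ ≤ _ := by rw [h]; simp
  have ht0' := (mem_filter.mp ht0).2
  set y : ℤ := ((M * t0 : ℕ) : ℤ) with hy
  have hfac : ∀ t : ℕ, (q : ℤ) ∣ GG r (M * t) →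
      (q : ℤ) ∣ (((M * t : ℕ) : ℤ) - y) * (((M * t : ℕ) : ℤ) + y - 1) := by
    intro t ht
    have : (((M * t : ℕ) : ℤ) - y) * (((M * t : ℕ) : ℤ) + y - 1) = GG r (M * t) - GG r (M * t0) := by
      unfold GG
      rw [hy]
      ring
    rw [this]
    exact dvd_sub ht ht0'
  refine Finset.card_le_card_of_injOn (fun t => Int.gcd q (((M * t : ℕ) : ℤ) - y)) ?_ ?_
  · intro t _
    simp only [mem_coe, Nat.mem_divisors]
    exact ⟨by exact_mod_cast Int.gcd_dvd_left (q : ℤ) (((M * t : ℕ) : ℤ) - y), hq.ne'⟩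
  · intro t ht s hs hts
    simp only [coe_filter, mem_Ico, Set.mem_ofPred_eq, zero_add, zero_le, true_and] at ht hs hts
    have a1 := root_aux hq (hfac t ht.2)
    have a2 := root_aux hq (hfac s hs.2)
    have b1 : ((Int.gcd q (((M * t : ℕ) : ℤ) - y) : ℕ) : ℤ) ∣ ((M * t : ℕ) : ℤ) - y :=
      Int.gcd_dvd_right _ _
    have b2 : ((Int.gcd q (((M * s : ℕ) : ℤ) - y) : ℕ) : ℤ) ∣ ((M * s : ℕ) : ℤ) - y :=
      Int.gcd_dvd_right _ _
    have b3 : Int.gcd q (((M * t : ℕ) : ℤ) - y) ∣ q := by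
      exact_mod_cast Int.gcd_dvd_left (q : ℤ) (((M * t : ℕ) : ℤ) - y)
    rw [← hts] at a2 b2
    generalize Int.gcd q (((M * t : ℕ) : ℤ) - y) = g at a1 a2 b1 b2 b3
    have hcop : Nat.Coprime g (q / g) := by
      have c1 : ((Nat.gcd g (q / g) : ℕ) : ℤ) ∣ (g : ℤ) := by exact_mod_cast Nat.gcd_dvd_left _ _
      have c2 : ((Nat.gcd g (q / g) : ℕ) : ℤ) ∣ ((q / g : ℕ) : ℤ) := by
        exact_mod_cast Nat.gcd_dvd_right _ _
      have c3 : ((Nat.gcd g (q / g) : ℕ) : ℤ) ∣ (q : ℤ) := c1.trans (by exact_mod_cast b3)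
      have c4 : ((Nat.gcd g (q / g) : ℕ) : ℤ) ∣ 2 * y - 1 := by
        have := dvd_sub (c2.trans a1) (c1.trans b1)
        rwa [show ((M * t : ℕ) : ℤ) + y - 1 - (((M * t : ℕ) : ℤ) - y) = 2 * y - 1 by ring] at this
      have c5 : ((Nat.gcd g (q / g) : ℕ) : ℤ) ∣ ((1 + 8 * r : ℕ) : ℤ) := by
        have e : ((1 + 8 * r : ℕ) : ℤ) = (2 * y - 1) * (2 * y - 1) - 4 * GG r (M * t0) := by
          unfold GG
          rw [hy]
          push_cast
          ring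
        rw [e]
        exact dvd_sub (c4.mul_right _) ((c3.trans ht0').mul_left _)
      have c6 : Nat.gcd g (q / g) ∣ Nat.gcd q (1 + 8 * r) :=
        Nat.dvd_gcd (by exact_mod_cast c3) (by exact_mod_cast c5)
      rw [h2] at c6
      exact Nat.eq_one_of_dvd_one c6
    have d1 : (g : ℤ) ∣ ((M * t : ℕ) : ℤ) - ((M * s : ℕ) : ℤ) := by
      have := dvd_sub b1 b2
      rwa [sub_sub_sub_cancel_right] at this
    have d2 : ((q / g : ℕ) : ℤ) ∣ ((M * t : ℕ) : ℤ) - ((M * s : ℕ) : ℤ) := by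
      have := dvd_sub a1 a2
      rwa [show ((M * t : ℕ) : ℤ) + y - 1 - (((M * s : ℕ) : ℤ) + y - 1) =
        ((M * t : ℕ) : ℤ) - ((M * s : ℕ) : ℤ) by ring] at this
    have d3 := (Nat.isCoprime_iff_coprime.mpr hcop).mul_dvd d1 d2
    rw [← Nat.cast_mul, Nat.mul_div_cancel' b3] at d3
    have d4 : M * s ≡ M * t [MOD q] := (Nat.modEq_iff_dvd).mpr d3
    have d5 : s ≡ t [MOD q] := Nat.ModEq.cancel_left_of_coprime h1 d4
    exact (Nat.ModEq.eq_of_lt_of_lt d5 hs.1 ht.1).symm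

open Classical in
noncomputable def RR (z X : ℕ) : Finset ℕ := (Icc 1 X).filter (Rough z)

theorem mem_RR {z X a : ℕ} : a ∈ RR z X ↔ (1 ≤ a ∧ a ≤ X) ∧ Rough z a := by
  simp [RR]

theorem rough_sum (z X : ℕ) (hz : 1 ≤ z) :
    (∑ a ∈ RR z X, (1 : ℝ) / a) * Real.log z ≤ 1 + Real.log (X * z : ℕ) := by
  classical
  have h1 : Real.log z ≤ ∑ m ∈ Icc 1 z, (1 : ℝ) / m := by
    have h2 := log_add_one_le_harmonic z
    rw [harmonic_eq_sum_Icc] at h2
    push_cast at h2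
    simp only [one_div]
    refine le_trans (Real.log_le_log (by exact_mod_cast hz) (by linarith)) h2
  have h3 : ∑ n ∈ Icc 1 (X * z), (1 : ℝ) / n ≤ 1 + Real.log (X * z : ℕ) := by
    have h2 := harmonic_le_one_add_log (X * z)
    rw [harmonic_eq_sum_Icc] at h2
    simp only [one_div]
    refine le_trans (le_of_eq ?_) h2
    push_cast
    rfl
  have h0 : 0 ≤ ∑ a ∈ RR z X, (1 : ℝ) / a := Finset.sum_nonneg (fun _ _ => by positivity)
  refine (mul_le_mul_of_nonneg_left h1 h0).trans (le_trans ?_ h3)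
  rw [Finset.sum_mul_sum, ← Finset.sum_product']
  have hinj : Set.InjOn (fun x : ℕ × ℕ => x.1 * x.2) (RR z X ×ˢ Icc 1 z : Finset (ℕ × ℕ)) := by
    rintro ⟨a, m⟩ h ⟨a', m'⟩ h' he
    simp only [coe_product, Set.mem_prod, mem_coe, mem_RR, mem_Icc] at h h' he
    have c1 : a ∣ a' := (h.1.2.coprime_le h'.2.1 h'.2.2).dvd_of_dvd_mul_right ⟨m, he.symm⟩
    have c2 : a' ∣ a := (h'.1.2.coprime_le h.2.1 h.2.2).dvd_of_dvd_mul_right ⟨m', he⟩
    obtain rfl : a = a' := Nat.dvd_antisymm c1 c2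
    obtain rfl : m = m' := Nat.eq_of_mul_eq_mul_left h.1.1.1 he
    rfl
  calc ∑ x ∈ RR z X ×ˢ Icc 1 z, (1 : ℝ) / x.1 * (1 / x.2)
      = ∑ n ∈ (RR z X ×ˢ Icc 1 z).image (fun x : ℕ × ℕ => x.1 * x.2), (1 : ℝ) / n := by
        rw [Finset.sum_image hinj]
        refine Finset.sum_congr rfl (fun x _ => ?_)
        push_cast
        rw [one_div_mul_one_div]
    _ ≤ _ := by
        refine Finset.sum_le_sum_of_subset_of_nonneg ?_ (fun _ _ _ => by positivity)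
        intro n hn
        obtain ⟨⟨a, m⟩, h, rfl⟩ := mem_image.mp hn
        simp only [mem_product, mem_RR, mem_Icc] at h ⊢
        exact ⟨Nat.mul_pos h.1.1.1 h.2.1, Nat.mul_le_mul h.1.1.2 h.2.2⟩

theorem d_sum (z X : ℕ) :
    ∑ q ∈ RR z X, (q.divisors.card : ℝ) / q ≤ (∑ a ∈ RR z X, (1 : ℝ) / a) ^ 2 := by
  classical
  rw [sq, Finset.sum_mul_sum, ← Finset.sum_product']
  have h1 : ∀ q ∈ RR z X, (q.divisors.card : ℝ) / q =
      ∑ x ∈ q.divisorsAntidiagonal, (1 : ℝ) / x.1 * (1 / x.2) := by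
    intro q _
    rw [Finset.sum_congr rfl (g := fun _ => (1 : ℝ) / q) (fun x hx => by
      rw [← (Nat.mem_divisorsAntidiagonal.mp hx).1, one_div_mul_one_div, Nat.cast_mul]),
      Finset.sum_const, ← Nat.map_div_right_divisors, Finset.card_map, nsmul_eq_mul, mul_one_div]
  rw [Finset.sum_congr rfl h1, ← Finset.sum_biUnion]
  · refine Finset.sum_le_sum_of_subset_of_nonneg ?_ (fun _ _ _ => by positivity)
    rintro ⟨a, b⟩ hx
    obtain ⟨q, hq, hx⟩ := mem_biUnion.mp hx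
    obtain ⟨h2, h3⟩ := Nat.mem_divisorsAntidiagonal.mp hx
    simp only at h2
    rw [mem_RR] at hq
    have ha : a ∣ q := ⟨b, h2.symm⟩
    have hb : b ∣ q := ⟨a, by rw [← h2, mul_comm]⟩
    simp only [mem_product, mem_RR]
    exact ⟨⟨⟨Nat.pos_of_dvd_of_pos ha hq.1.1, (Nat.le_of_dvd hq.1.1 ha).trans hq.1.2⟩,
      hq.2.of_dvd ha⟩, ⟨⟨Nat.pos_of_dvd_of_pos hb hq.1.1, (Nat.le_of_dvd hq.1.1 hb).trans hq.1.2⟩,
      hq.2.of_dvd hb⟩⟩
  · intro q _ q' _ hne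
    rw [Function.onFun, Finset.disjoint_left]
    intro x hx hx'
    exact hne ((Nat.mem_divisorsAntidiagonal.mp hx).1.symm.trans
      (Nat.mem_divisorsAntidiagonal.mp hx').1)

open Classical in
noncomputable def Win (z B i : ℕ) : Finset ℕ := (Ico (B ^ i) (B ^ (i + 1))).filter (Rough z)

theorem mem_Win {z B i a : ℕ} : a ∈ Win z B i ↔ (B ^ i ≤ a ∧ a < B ^ (i + 1)) ∧ Rough z a := by
  simp [Win]

theorem window (z B I : ℕ) (hB : 2 ≤ B) (hI : 1 ≤ I) : ∃ i, I ≤ i ∧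
    I * ∑ q ∈ Win z B i, (q.divisors.card : ℝ) / q ≤
      (∑ a ∈ RR z (B ^ (2 * I)), (1 : ℝ) / a) ^ 2 := by
  classical
  obtain ⟨i, hi, hmin⟩ := Finset.exists_min_image (Ico I (2 * I))
    (fun i => ∑ q ∈ Win z B i, (q.divisors.card : ℝ) / q) ⟨I, by rw [mem_Ico]; omega⟩
  refine ⟨i, (mem_Ico.mp hi).1, le_trans ?_ (d_sum _ _)⟩
  have h1 := Finset.card_nsmul_le_sum _ _ _ hmin
  rw [Nat.card_Ico, nsmul_eq_mul, show 2 * I - I = I by omega] at h1
  refine h1.trans ?_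
  rw [← Finset.sum_biUnion]
  · refine Finset.sum_le_sum_of_subset_of_nonneg ?_ (fun _ _ _ => by positivity)
    intro q hq
    obtain ⟨j, hj, hq⟩ := mem_biUnion.mp hq
    rw [mem_Win] at hq
    rw [mem_Ico] at hj
    rw [mem_RR]
    refine ⟨⟨le_trans (Nat.one_le_pow _ _ (by omega)) hq.1.1, hq.1.2.le.trans ?_⟩, hq.2⟩
    exact Nat.pow_le_pow_right (by omega) (by omega)
  · intro j _ j' _ hne
    rw [Function.onFun, Finset.disjoint_left]
    intro q hq hq'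
    rw [mem_Win] at hq hq'
    rcases lt_or_gt_of_ne hne with h | h
    · have := Nat.pow_le_pow_right (n := B) (by omega) (show j + 1 ≤ j' by omega)
      omega
    · have := Nat.pow_le_pow_right (n := B) (by omega) (show j' + 1 ≤ j by omega)
      omega

end Pool.Agent.H242Z.AE
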