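import Mathlib

/-!
# Brun's pure sieve for periodic conditions
-/

set_option autoImplicit false

namespace Pool.Agent.H242Z.AE

open Finset

open Classical in
/-- the number of `t` in `[a, a + N)` with `Q t` -/
noncomputable def cnt (Q : ℕ → Prop) (a N : ℕ) : ℕ := ((Ico a (a + N)).filter Q).card

theorem cnt_add (Q : ℕ → Prop) (a N M : ℕ) : cnt Q a (N + M) = cnt Q a N + cnt Q (a + N) M := by
  classical
  unfold cnt
  rw [← add_assoc, ← Finset.Ico_union_Ico_eq_Ico (b := a + N) (by omega) (by omega),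
    Finset.filter_union, Finset.card_union_of_disjoint]
  exact Finset.disjoint_filter_filter (Finset.Ico_disjoint_Ico_consecutive _ _ _)

theorem cnt_period {Q : ℕ → Prop} {q : ℕ} (hQ : Function.Periodic Q q) (a : ℕ) :
    cnt Q a q = cnt Q 0 q := by
  classical
  unfold cnt
  rw [Nat.filter_Ico_card_eq_of_periodic a q Q hQ, Nat.filter_Ico_card_eq_of_periodic 0 q Q hQ]

theorem cnt_mul {Q : ℕ → Prop} {q : ℕ} (hQ : Function.Periodic Q q) (a k : ℕ) :
    cnt Q a (k * q) = k * cnt Q 0 q := by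
  induction k with
  | zero => simp [cnt]
  | succ k ih => rw [add_mul, one_mul, cnt_add, ih, cnt_period hQ (a + k * q), add_mul, one_mul]

theorem cnt_mono (Q : ℕ → Prop) (a : ℕ) {N M : ℕ} (h : N ≤ M) : cnt Q a N ≤ cnt Q a M := by
  obtain ⟨k, rfl⟩ := Nat.exists_eq_add_of_le h
  rw [cnt_add]
  omega

theorem cnt_approx {Q : ℕ → Prop} {q : ℕ} (hq : 0 < q) (hQ : Function.Periodic Q q) (a N : ℕ) :
    |(cnt Q a N : ℝ) - N * ((cnt Q 0 q : ℝ) / q)| ≤ cnt Q 0 q := by
  have h1 : cnt Q a (N / q * q) ≤ cnt Q a N := cnt_mono Q a (Nat.div_mul_le_self N q)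
  have h2 : cnt Q a N ≤ cnt Q a ((N / q + 1) * q) :=
    cnt_mono Q a (by have := Nat.lt_div_mul_add (a := N) hq; nlinarith)
  rw [cnt_mul hQ] at h1 h2
  have hq' : (0 : ℝ) < q := by exact_mod_cast hq
  have h3 : ((N / q : ℕ) : ℝ) ≤ N / q := Nat.cast_div_le
  have h4 : (N : ℝ) / q ≤ ((N / q : ℕ) : ℝ) + 1 := by
    rw [div_le_iff₀ hq']
    have := Nat.lt_div_mul_add (a := N) hq
    have h5 : N ≤ (N / q + 1) * q := by nlinarith
    exact_mod_cast h5
  have h1' : ((N / q : ℕ) : ℝ) * cnt Q 0 q ≤ cnt Q a N := by exact_mod_cast h1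
  have h2' : (cnt Q a N : ℝ) ≤ (((N / q : ℕ) : ℝ) + 1) * cnt Q 0 q := by exact_mod_cast h2
  have h0 : (0 : ℝ) ≤ cnt Q 0 q := Nat.cast_nonneg _
  have e : (N : ℝ) * ((cnt Q 0 q : ℝ) / q) = N / q * cnt Q 0 q := by ring
  rw [e, abs_le]
  constructor <;> nlinarith

theorem cnt_crt {Q E : ℕ → Prop} {q p : ℕ} (hq : 0 < q) (hp : 0 < p) (hc : Nat.Coprime q p)
    (hQ : Function.Periodic Q q) (hE : Function.Periodic E p) :
    cnt (fun t => Q t ∧ E t) 0 (q * p) = cnt Q 0 q * cnt E 0 p := by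
  classical
  unfold cnt
  rw [← Finset.card_product]
  refine Finset.card_bij (fun t _ => (t % q, t % p)) ?_ ?_ ?_
  · intro t ht
    simp only [mem_filter, mem_Ico, mem_product, zero_add, zero_le, true_and] at ht ⊢
    exact ⟨⟨Nat.mod_lt _ hq, by rw [hQ.map_mod_nat]; exact ht.2.1⟩,
      ⟨Nat.mod_lt _ hp, by rw [hE.map_mod_nat]; exact ht.2.2⟩⟩
  · intro t ht s hs h
    simp only [mem_filter, mem_Ico, zero_add, zero_le, true_and, Prod.mk.injEq] at ht hs h
    have : t ≡ s [MOD q * p] := (Nat.modEq_and_modEq_iff_modEq_mul hc).mp h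
    exact Nat.ModEq.eq_of_lt_of_lt this ht.1 hs.1
  · rintro ⟨x, y⟩ h
    simp only [mem_filter, mem_Ico, mem_product, zero_add, zero_le, true_and] at h
    let k := Nat.chineseRemainder hc x y
    have h1 : (k : ℕ) % q = x := by rw [k.2.1, Nat.mod_eq_of_lt h.1.1]
    have h2 : (k : ℕ) % p = y := by rw [k.2.2, Nat.mod_eq_of_lt h.2.1]
    refine ⟨k, ?_, by rw [h1, h2]⟩
    simp only [mem_filter, mem_Ico, zero_add, zero_le, true_and]
    refine ⟨Nat.chineseRemainder_lt_mul hc x y hq.ne' hp.ne', ?_, ?_⟩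
    · rw [← hQ.map_mod_nat, h1]; exact h.1.2
    · rw [← hE.map_mod_nat, h2]; exact h.2.2

theorem cnt_split (Q E : ℕ → Prop) (a N : ℕ) :
    cnt Q a N = cnt (fun t => Q t ∧ ¬ E t) a N + cnt (fun t => Q t ∧ E t) a N := by
  classical
  unfold cnt
  rw [← Finset.card_filter_add_card_filter_not (s := (Ico a (a + N)).filter Q) E,
    Finset.filter_filter, Finset.filter_filter, add_comm]
  congr

theorem cnt_congr {Q Q' : ℕ → Prop} (h : ∀ t, Q t ↔ Q' t) (a N : ℕ) : cnt Q a N = cnt Q' a N := by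
  rw [show Q = Q' from funext (fun t => propext (h t))]

theorem cnt_le_of_imp {Q Q' : ℕ → Prop} (h : ∀ t, Q t → Q' t) (a N : ℕ) :
    cnt Q a N ≤ cnt Q' a N := by
  classical
  unfold cnt
  exact Finset.card_le_card (Finset.monotone_filter_right _ (fun t _ => h t))

theorem cnt_le (Q : ℕ → Prop) (a N : ℕ) : cnt Q a N ≤ N := by
  classical
  unfold cnt
  exact (Finset.card_filter_le _ _).trans (by simp)

theorem bern {s r : ℝ} (hs : 0 ≤ s) (hr : 0 ≤ r) (n : ℕ) :
    s ^ (n + 1) + (n + 1) * (r * s ^ n) ≤ (s + r) ^ (n + 1) := by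
  induction n with
  | zero => simp
  | succ n ih =>
    have h1 : 0 ≤ s ^ n := by positivity
    calc s ^ (n + 1 + 1) + ((n + 1 : ℕ) + 1 : ℝ) * (r * s ^ (n + 1))
        ≤ (s + r) * (s ^ (n + 1) + (n + 1) * (r * s ^ n)) := by
          push_cast
          have h2 : 0 ≤ ((n : ℝ) + 1) * (r * (r * s ^ n)) := by positivity
          have e : (s + r) * (s ^ (n + 1) + (n + 1) * (r * s ^ n))
            = s ^ (n + 1 + 1) + (n + 1 + 1) * (r * s ^ (n + 1)) + (n + 1) * (r * (r * s ^ n)) := by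
            ring
          rw [e]; linarith
      _ ≤ (s + r) * (s + r) ^ (n + 1) := by gcongr
      _ = (s + r) ^ (n + 1 + 1) := by ring

theorem brun (E : ℕ → ℕ → Prop) (a N : ℕ) (P : Finset ℕ) : (∀ p ∈ P, 0 < p) →
    (∀ p ∈ P, Function.Periodic (E p) p) →
    (∀ p ∈ P, ∀ p' ∈ P, p ≠ p' → Nat.Coprime p p') →
    ∃ T : ℕ → ℝ, T 0 = 1 ∧
      (∀ k, |T k - ∏ p ∈ P, (1 - (cnt (E p) 0 p : ℝ) / p)| ≤
        (∑ p ∈ P, (cnt (E p) 0 p : ℝ) / p) ^ (k + 1) / ((k + 1).factorial : ℝ)) ∧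
      ∀ (k : ℕ) (Q : ℕ → Prop) (q : ℕ), 0 < q → Function.Periodic Q q →
        (∀ p ∈ P, Nat.Coprime q p) →
        (-1) ^ k * ((cnt (fun t => Q t ∧ ∀ p ∈ P, ¬ E p t) a N : ℝ) -
          N * ((cnt Q 0 q : ℝ) / q) * T k) ≤
          cnt Q 0 q * (1 + ∑ p ∈ P, (cnt (E p) 0 p : ℝ)) ^ k := by
  classical
  induction P using Finset.induction_on with
  | empty =>
    intro _ _ _
    refine ⟨fun _ => 1, rfl, fun k => by simp, fun k Q q hq hQ _ => ?_⟩
    have h1 := cnt_approx hq hQ a N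
    rw [cnt_congr (Q' := Q) (fun t => by simp)]
    simp only [mul_one, sum_empty, add_zero, one_pow]
    refine le_trans (le_abs_self _) ?_
    rw [abs_mul, abs_pow, abs_neg, abs_one, one_pow, one_mul]
    exact h1
  | insert p P hp ih =>
    intro h1 h2 h3
    obtain ⟨T, hT0, hT1, hT2⟩ := ih (fun x hx => h1 x (mem_insert_of_mem hx))
      (fun x hx => h2 x (mem_insert_of_mem hx))
      (fun x hx y hy => h3 x (mem_insert_of_mem hx) y (mem_insert_of_mem hy))
    have hp0 : 0 < p := h1 p (mem_insert_self _ _)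
    have hp0' : (0 : ℝ) < p := by exact_mod_cast hp0
    set ρ : ℝ := (cnt (E p) 0 p : ℝ) with hρ
    have hρ0 : 0 ≤ ρ := Nat.cast_nonneg _
    have hδ0 : 0 ≤ ρ / p := div_nonneg hρ0 hp0'.le
    have hδ1 : ρ / p ≤ 1 := by
      rw [div_le_one hp0', hρ]
      exact_mod_cast cnt_le _ _ _
    set l : ℝ := ∑ p ∈ P, (cnt (E p) 0 p : ℝ) / p with hl
    have hl0 : 0 ≤ l := Finset.sum_nonneg (fun _ _ => by positivity)
    set s : ℝ := ∑ p ∈ P, (cnt (E p) 0 p : ℝ) with hs
    have hs0 : 0 ≤ s := Finset.sum_nonneg (fun _ _ => by positivity)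
    set V : ℝ := ∏ p ∈ P, (1 - (cnt (E p) 0 p : ℝ) / p) with hV
    have hV0 : 0 ≤ V := Finset.prod_nonneg (fun x hx => by
      have hx0 : (0 : ℝ) < x := by exact_mod_cast h1 x (mem_insert_of_mem hx)
      rw [sub_nonneg, div_le_one hx0]
      exact_mod_cast cnt_le _ _ _)
    have hV1 : V ≤ 1 := Finset.prod_le_one (fun x hx => by
      have hx0 : (0 : ℝ) < x := by exact_mod_cast h1 x (mem_insert_of_mem hx)
      rw [sub_nonneg, div_le_one hx0]
      exact_mod_cast cnt_le _ _ _) (fun x _ => by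
      have : (0 : ℝ) ≤ (cnt (E x) 0 x : ℝ) / x := by positivity
      linarith)
    refine ⟨fun k => Nat.casesOn k 1 (fun k => T (k + 1) - ρ / p * T k), rfl, fun k => ?_,
      fun k Q q hq hQ hc => ?_⟩
    · rw [Finset.prod_insert hp, Finset.sum_insert hp, ← hρ, ← hl, ← hV]
      cases k with
      | zero =>
        have h4 := hT1 0
        rw [hT0] at h4
        simp only [zero_add, pow_one, Nat.factorial_one, Nat.cast_one, div_one] at h4 ⊢
        change |1 - (1 - ρ / p) * V| ≤ _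
        rw [abs_le] at h4 ⊢
        constructor <;> nlinarith [h4.1, h4.2]
      | succ k =>
        change |T (k + 1) - ρ / p * T k - (1 - ρ / p) * V| ≤ _
        have e : T (k + 1) - ρ / p * T k - (1 - ρ / p) * V =
            (T (k + 1) - V) - ρ / p * (T k - V) := by ring
        rw [e]
        refine (abs_sub _ _).trans ?_
        rw [abs_mul, abs_of_nonneg hδ0]
        have h4 := hT1 (k + 1)
        have h5 := mul_le_mul_of_nonneg_left (hT1 k) hδ0
        have h6 := bern hl0 hδ0 (k + 1)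
        have hf : (0 : ℝ) < ((k + 1).factorial : ℝ) := by exact_mod_cast Nat.factorial_pos _
        refine (add_le_add h4 h5).trans ?_
        rw [Nat.factorial_succ (k + 1), add_comm (ρ / p) l]
        push_cast at h6 ⊢
        rw [le_div_iff₀ (by positivity)]
        refine le_trans (le_of_eq ?_) h6
        field_simp
    · rw [Finset.sum_insert hp, ← hρ, ← hs]
      have hc0 : (0 : ℝ) ≤ cnt Q 0 q := Nat.cast_nonneg _
      cases k with
      | zero =>
        have h4 := abs_le.mp (cnt_approx hq hQ a N)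
        have h5 : (cnt (fun t => Q t ∧ ∀ x ∈ insert p P, ¬ E x t) a N : ℝ) ≤ cnt Q a N := by
          exact_mod_cast cnt_le_of_imp (Q := fun t => Q t ∧ ∀ x ∈ insert p P, ¬ E x t) (Q' := Q)
            (fun t ht => ht.1) a N
        change (-1) ^ 0 * (_ - _ * 1) ≤ _
        simp only [pow_zero, one_mul, mul_one]
        linarith [h4.2]
      | succ k =>
        have hcp : Nat.Coprime q p := hc p (mem_insert_self _ _)
        have hEp := h2 p (mem_insert_self _ _)
        have hper : Function.Periodic (fun t => Q t ∧ E p t) (q * p) := by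
          intro t
          have e1 := (hQ.nat_mul p) t
          have e2 := (hEp.nat_mul q) t
          simp only [Nat.cast_id] at e1 e2
          simp only
          rw [e2, mul_comm q p, e1]
        have h4 := hT2 (k + 1) Q q hq hQ (fun x hx => hc x (mem_insert_of_mem hx))
        have h5 := hT2 k (fun t => Q t ∧ E p t) (q * p) (Nat.mul_pos hq hp0) hper (fun x hx =>
          Nat.Coprime.mul_left (hc x (mem_insert_of_mem hx))
            (h3 p (mem_insert_self _ _) x (mem_insert_of_mem hx) (fun h => hp (h ▸ hx))))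
        rw [cnt_crt hq hp0 hcp hQ hEp] at h5
        have h6 := cnt_split (fun t => Q t ∧ ∀ x ∈ P, ¬ E x t) (E p) a N
        rw [cnt_congr (Q := fun t => (Q t ∧ ∀ x ∈ P, ¬ E x t) ∧ ¬ E p t)
          (Q' := fun t => Q t ∧ ∀ x ∈ insert p P, ¬ E x t) (fun t => by
            simp only [mem_insert, forall_eq_or_imp]; tauto),
          cnt_congr (Q := fun t => (Q t ∧ ∀ x ∈ P, ¬ E x t) ∧ E p t)
          (Q' := fun t => (Q t ∧ E p t) ∧ ∀ x ∈ P, ¬ E x t) (fun t => by tauto)] at h6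
        have h6' : (cnt (fun t => Q t ∧ ∀ x ∈ P, ¬ E x t) a N : ℝ) =
            cnt (fun t => Q t ∧ ∀ x ∈ insert p P, ¬ E x t) a N +
            cnt (fun t => (Q t ∧ E p t) ∧ ∀ x ∈ P, ¬ E x t) a N := by exact_mod_cast h6
        change (-1) ^ (k + 1) * (_ - _ * (T (k + 1) - ρ / p * T k)) ≤ _
        have hq' : (0 : ℝ) < q := by exact_mod_cast hq
        push_cast at h5
        rw [← hρ] at h5
        have h7 := bern (s := 1 + s) (by linarith) hρ0 k
        have h8 : 0 ≤ ρ * (1 + s) ^ k := by positivity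
        have h9 : (1 + s) ^ (k + 1) + ρ * (1 + s) ^ k ≤ (1 + (ρ + s)) ^ (k + 1) := by
          have h11 : (0 : ℝ) ≤ k * (ρ * (1 + s) ^ k) := mul_nonneg (Nat.cast_nonneg k) h8
          rw [show 1 + (ρ + s) = 1 + s + ρ by ring]
          have e : ((k : ℝ) + 1) * (ρ * (1 + s) ^ k) = k * (ρ * (1 + s) ^ k) + ρ * (1 + s) ^ k := by
            ring
          linarith
        have h10 := mul_le_mul_of_nonneg_left h9 hc0
        have e : (-1 : ℝ) ^ (k + 1) *
            ((cnt (fun t => Q t ∧ ∀ x ∈ insert p P, ¬ E x t) a N : ℝ) -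
              N * ((cnt Q 0 q : ℝ) / q) * (T (k + 1) - ρ / p * T k)) =
            (-1) ^ (k + 1) * ((cnt (fun t => Q t ∧ ∀ x ∈ P, ¬ E x t) a N : ℝ) -
              N * ((cnt Q 0 q : ℝ) / q) * T (k + 1)) +
            (-1) ^ k * ((cnt (fun t => (Q t ∧ E p t) ∧ ∀ x ∈ P, ¬ E x t) a N : ℝ) -
              N * ((cnt Q 0 q : ℝ) * ρ / (q * p)) * T k) := by
          rw [h6', pow_succ]
          field_simp
          ring
        rw [e]
        have e2 : (cnt Q 0 q : ℝ) * ((1 + s) ^ (k + 1) + ρ * (1 + s) ^ k) =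
          cnt Q 0 q * (1 + s) ^ (k + 1) + cnt Q 0 q * ρ * (1 + s) ^ k := by ring
        linarith

end Pool.Agent.H242Z.AE
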