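import Mathlib
import Pool.Agent.H505Z.NP.Defs

/-! Every ball of points of an irreducible affine variety is Zariski dense. -/

set_option autoImplicit false

namespace Pool.Agent.H242Z.Dense

open Polynomial Filter Topology

section Alg

variable {k P A : Type} [Field k] [CommRing P] [CommRing A] [Algebra k P] [Algebra k A]
  [Algebra P A] [IsScalarTower k P A] [Algebra.IsIntegral P A]

/-- a point of the base and a root of the specialised minimal polynomial lift to a point -/
theorem lift_point [IsAlgClosed k] [IsDomain P] [IsDomain A] [IsIntegrallyClosed P]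
    [FaithfulSMul P A] [Algebra.FiniteType k A] (g : A) (ψ : P →ₐ[k] k) (γ : k)
    (hγ : ((minpoly P g).map (ψ : P →+* k)).IsRoot γ) :
    ∃ b : A →ₐ[k] k, (∀ p, b (algebraMap P A p) = ψ p) ∧ b g = γ := by
  let _ : Algebra P[X] A := (aeval g : P[X] →ₐ[P] A).toRingHom.toAlgebra
  have hal : ∀ f : P[X], algebraMap P[X] A f = aeval g f := fun _ => rfl
  have : IsScalarTower P P[X] A := IsScalarTower.of_algebraMap_eq (fun p => by
    rw [hal]; simp)
  have : Algebra.IsIntegral P[X] A := Algebra.IsIntegral.tower_top P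
  let χ : P[X] →+* k := eval₂RingHom (ψ : P →+* k) γ
  have hχ : Function.Surjective χ := fun c => ⟨C (algebraMap k P c), by simp [χ]⟩
  have := RingHom.ker_isMaximal_of_surjective χ hχ
  obtain ⟨Q, hQ, hQ'⟩ := Ideal.exists_ideal_over_maximal_of_isIntegral (S := A) (RingHom.ker χ) (by
    intro f hf
    obtain ⟨q, rfl⟩ := minpoly.isIntegrallyClosed_dvd (Algebra.IsIntegral.isIntegral g)
      (show aeval g f = 0 from hf)
    rw [RingHom.mem_ker, map_mul]
    have : χ (minpoly P g) = 0 := by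
      rw [IsRoot.def, eval_map] at hγ
      exact hγ
    rw [this, zero_mul])
  let _ := Ideal.Quotient.field Q
  have := finite_of_finite_type_of_isJacobsonRing k (A ⧸ Q)
  let b : A →ₐ[k] k := (IsAlgClosed.lift : (A ⧸ Q) →ₐ[k] k).comp (Ideal.Quotient.mkₐ k Q)
  have hb : ∀ f : P[X], b (aeval g f) = χ f := by
    intro f
    have h1 : f - C (algebraMap k P (χ f)) ∈ RingHom.ker χ := by
      rw [RingHom.mem_ker, map_sub]
      simp [χ]
    rw [← hQ', Ideal.mem_comap, hal, map_sub, aeval_C, ← IsScalarTower.algebraMap_apply] at h1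
    have h2 : b (aeval g f - algebraMap k A (χ f)) = 0 := by
      simp only [b, AlgHom.comp_apply, Ideal.Quotient.mkₐ_eq_mk]
      rw [Ideal.Quotient.eq_zero_iff_mem.mpr h1, map_zero]
    rw [map_sub, sub_eq_zero] at h2
    simpa using h2
  refine ⟨b, fun p => ?_, ?_⟩
  · simpa [χ] using hb (C p)
  · simpa [χ] using hb X

theorem exists_unit_pow (ψ : P →ₐ[k] k) (x : A) :
    ∃ (n : ℕ) (y : A), ∀ Z : Ideal A, (∀ p, ψ p = 0 → algebraMap P A p ∈ Z) →
      x ^ n * (1 - x * y) ∈ Z := by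
  obtain ⟨F, hF, hx⟩ := Algebra.IsIntegral.isIntegral (R := P) x
  obtain ⟨q, hq, hq'⟩ := exists_eq_pow_rootMultiplicity_mul_and_not_dvd (F.map (ψ : P →+* k))
    (hF.map _).ne_zero 0
  rw [C_0, sub_zero] at hq hq'
  rw [X_dvd_iff] at hq'
  generalize rootMultiplicity 0 (F.map (ψ : P →+* k)) = m at hq
  refine ⟨m, -((q.coeff 0)⁻¹ • aeval x q.divX), fun Z hZ => ?_⟩
  have h1 : (Ideal.Quotient.mk Z).comp (algebraMap P A) =
      ((Ideal.Quotient.mk Z).comp (algebraMap k A)).comp (ψ : P →+* k) := by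
    ext p
    simp only [RingHom.comp_apply, RingHom.coe_coe]
    rw [Ideal.Quotient.eq, IsScalarTower.algebraMap_apply k P A, ← map_sub]
    exact hZ _ (by simp)
  have h2 : aeval x (F.map (ψ : P →+* k)) ∈ Z := by
    rw [← Ideal.Quotient.eq_zero_iff_mem, aeval_def, hom_eval₂, eval₂_map, ← h1, ← hom_eval₂, hx,
      map_zero]
  have h3 := Z.mul_mem_left (algebraMap k A (q.coeff 0)⁻¹) h2
  rw [hq, map_mul, map_pow, aeval_X] at h3
  have h4 : aeval x q = x * aeval x q.divX + algebraMap k A (q.coeff 0) := by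
    conv_lhs => rw [← X_mul_divX_add q, map_add, map_mul, aeval_X, aeval_C]
  have h5 : algebraMap k A (q.coeff 0)⁻¹ * algebraMap k A (q.coeff 0) = 1 := by
    rw [← map_mul, inv_mul_cancel₀ hq', map_one]
  convert h3 using 1
  rw [h4, Algebra.smul_def]
  linear_combination (-x ^ m) * h5

end Alg

section Normed

variable {k : Type} [NormedField k]

theorem small_root [IsAlgClosed k] (p : k[X]) (hp : p.Monic) (hd : p.natDegree ≠ 0) :
    ∃ γ, p.IsRoot γ ∧ ‖γ‖ ^ p.natDegree ≤ ‖p.coeff 0‖ := by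
  classical
  have hs := IsAlgClosed.splits p
  have hc := hs.natDegree_eq_card_roots
  have hne : p.roots.toFinset.Nonempty := by
    rw [Multiset.toFinset_nonempty]
    intro h
    simp [h, hd] at hc
  obtain ⟨γ, h1, h2⟩ := p.roots.toFinset.exists_min_image (fun x => ‖x‖) hne
  refine ⟨γ, isRoot_of_mem_roots (Multiset.mem_toFinset.mp h1), ?_⟩
  rw [hs.coeff_zero_eq_prod_roots_of_monic hp, norm_mul, norm_pow, norm_neg, norm_one, one_pow,
    one_mul]
  have h3 := Multiset.prod_map_le_prod_map₀ (s := p.roots) (fun _ => ‖γ‖) (fun x => ‖x‖)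
    (fun _ _ => norm_nonneg _) (fun x hx => h2 x (Multiset.mem_toFinset.mpr hx))
  rw [Multiset.map_const', Multiset.prod_replicate, ← hc] at h3
  refine h3.trans (le_of_eq ?_)
  exact (map_multiset_prod (normHom : k →*₀ ℝ) p.roots).symm

theorem root_bound (p : k[X]) (hp : p.Monic) {r : k} (hr : p.IsRoot r) :
    ‖r‖ ≤ ∑ i ∈ Finset.range p.natDegree, ‖p.coeff i‖ + 1 := by
  have h := hr.norm_lt_cauchyBound hp.ne_zero
  rw [cauchyBound, hp.leadingCoeff, nnnorm_one, div_one] at h
  have h2 : (Finset.range p.natDegree).sup (‖p.coeff ·‖₊) ≤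
      ∑ i ∈ Finset.range p.natDegree, ‖p.coeff i‖₊ :=
    Finset.sup_le (fun i hi => Finset.single_le_sum (f := fun i => ‖p.coeff i‖₊)
      (fun _ _ => zero_le) hi)
  have h3 : ‖r‖₊ ≤ ∑ i ∈ Finset.range p.natDegree, ‖p.coeff i‖₊ + 1 :=
    h.le.trans (add_le_add_left h2 1)
  simpa using NNReal.coe_le_coe.mpr h3

theorem core [IsAlgClosed k] {P A ι : Type} [CommRing P] [CommRing A] [Algebra k P] [Algebra k A]
    [Algebra P A] [IsScalarTower k P A] [Algebra.IsIntegral P A] [IsDomain P] [IsDomain A]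
    [IsIntegrallyClosed P] [FaithfulSMul P A] [Algebra.FiniteType k A] (b : A →ₐ[k] k)
    (𝓕 : Filter ι) (ψ : ι → P →ₐ[k] k)
    (hψ : ∀ p, Tendsto (fun i => ψ i p) 𝓕 (𝓝 (b (algebraMap P A p)))) (s : Finset A) :
    ∃ β : ι → A →ₐ[k] k, (∀ i p, β i (algebraMap P A p) = ψ i p) ∧
      ∀ t ∈ s, Tendsto (fun i => β i t) 𝓕 (𝓝 (b t)) := by
  classical
  let ψ0 : P →ₐ[k] k := b.comp (IsScalarTower.toAlgHom k P A)
  choose n y hy using fun x : A => exists_unit_pow ψ0 x
  let x : A → A := fun t => t - algebraMap k A (b t)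
  let g : A := 1 - ∏ t ∈ s, (1 - x t * y (x t))
  have hg : b g = 0 := by simp [g, x]
  have hgi : IsIntegral P g := Algebra.IsIntegral.isIntegral g
  have hm := minpoly.monic hgi
  have hroot : ∀ i, ∃ γ, ((minpoly P g).map (ψ i : P →+* k)).IsRoot γ ∧
      ‖γ‖ ^ (minpoly P g).natDegree ≤ ‖ψ i ((minpoly P g).coeff 0)‖ := by
    intro i
    have := small_root _ (hm.map (ψ i : P →+* k)) (by
      rw [hm.natDegree_map]; exact (minpoly.natDegree_pos hgi).ne')
    simpa [hm.natDegree_map] using this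
  choose γ hγ hγ' using hroot
  choose β hβ hβ' using fun i => lift_point g (ψ i) (γ i) (hγ i)
  have hpow : ∀ (f : ι → k) (m : ℕ), m ≠ 0 → Tendsto (fun i => ‖f i‖ ^ m) 𝓕 (𝓝 0) →
      Tendsto f 𝓕 (𝓝 0) := by
    intro f m hm h
    rw [Metric.tendsto_nhds] at h ⊢
    intro ε hε
    refine (h (ε ^ m) (pow_pos hε m)).mono (fun i hi => ?_)
    rw [dist_zero_right, norm_pow, norm_norm] at hi
    rw [dist_zero_right]
    exact lt_of_pow_lt_pow_left₀ m hε.le hi
  have hbd : ∀ u : A, IsBoundedUnder (· ≤ ·) 𝓕 (norm ∘ fun i => β i u) := by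
    intro u
    obtain ⟨F, hF, hu⟩ := Algebra.IsIntegral.isIntegral (R := P) u
    have h1 := ((tendsto_finsetSum (Finset.range F.natDegree)
      (fun j _ => (hψ (F.coeff j)).norm)).add_const 1).isBoundedUnder_le
    refine h1.mono_le (Eventually.of_forall (fun i => ?_))
    have h2 : (F.map (ψ i : P →+* k)).IsRoot (β i u) := by
      have h3 : (β i : A →+* k).comp (algebraMap P A) = (ψ i : P →+* k) := RingHom.ext (hβ i)
      rw [IsRoot.def, eval_map, ← h3]
      have := hom_eval₂ F (algebraMap P A) (β i : A →+* k) u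
      rw [hu, map_zero] at this
      exact this.symm
    simpa [hF.natDegree_map] using root_bound _ (hF.map _) h2
  let Z : Ideal A :=
    { carrier := {u | Tendsto (fun i => β i u) 𝓕 (𝓝 0)}
      add_mem' := fun {u w} hu hw => by simpa using hu.add hw
      zero_mem' := by simpa using tendsto_const_nhds
      smul_mem' := fun c u hu => by
        simpa using NormedField.tendsto_zero_smul_of_tendsto_zero_of_bounded hu (hbd c) |>.congr
          (fun i => (mul_comm _ _ : β i u * β i c = β i c * β i u)) }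
  have hZ : ∀ u, u ∈ Z ↔ Tendsto (fun i => β i u) 𝓕 (𝓝 0) := fun _ => Iff.rfl
  have hgZ : g ∈ Z := by
    rw [hZ]
    refine hpow _ _ (minpoly.natDegree_pos hgi).ne' ?_
    have h0 : b (algebraMap P A ((minpoly P g).coeff 0)) = 0 := by
      have h1 := congrArg b (minpoly.aeval P g)
      rwa [← X_mul_divX_add (minpoly P g), map_add, map_mul, aeval_X, aeval_C, map_add, map_mul, hg,
        zero_mul, zero_add, map_zero] at h1
    have h1 := (hψ ((minpoly P g).coeff 0)).norm
    rw [h0, norm_zero] at h1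
    exact squeeze_zero (fun i => by positivity) (fun i => by rw [hβ']; exact hγ' i) h1
  refine ⟨β, hβ, fun t ht => ?_⟩
  have h1 := hy (x t) Z (fun p hp => by
    rw [hZ]
    have := hψ p
    rw [show b (algebraMap P A p) = 0 from hp] at this
    simpa [hβ] using this)
  have h2 : x t ^ (n (x t) + 1) ∈ Z := by
    have h3 := Z.add_mem (Z.mul_mem_left (x t ^ (n (x t) + 1)) hgZ)
      (Z.mul_mem_left (x t * ∏ t' ∈ s.erase t, (1 - x t' * y (x t'))) h1)
    convert h3 using 1
    simp only [g]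
    rw [← Finset.mul_prod_erase s _ ht]
    ring
  have h3 := hpow (fun i => β i (x t)) _ (Nat.succ_ne_zero (n (x t))) (by
    simpa using ((hZ _).mp h2).norm)
  simpa [x] using h3.add_const (b t)

theorem dense_normed [IsAlgClosed k] (hc : ∃ c : k, c ≠ 0 ∧ ‖c‖ < 1) (A : Type) [CommRing A]
    [IsDomain A] [Algebra k A] [Algebra.FiniteType k A] (b : A →ₐ[k] k) (s : Finset A) (ε : ℝ)
    (hε : 0 < ε) (a : A) (ha : a ≠ 0) :
    ∃ b' : A →ₐ[k] k, b' a ≠ 0 ∧ ∀ t ∈ s, ‖b' t - b t‖ < ε := by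
  let _ : NontriviallyNormedField k := NontriviallyNormedField.ofNormNeOne
    (hc.imp fun c h => ⟨h.1, h.2.ne⟩)
  obtain ⟨d, φ, hφ, hfin⟩ := exists_finite_inj_algHom_of_fg k A
  let _ : Algebra (MvPolynomial (Fin d) k) A := φ.toRingHom.toAlgebra
  have : IsScalarTower k (MvPolynomial (Fin d) k) A :=
    IsScalarTower.of_algebraMap_eq (fun c => (φ.commutes c).symm)
  have : Module.Finite (MvPolynomial (Fin d) k) A := hfin
  have : FaithfulSMul (MvPolynomial (Fin d) k) A :=
    (faithfulSMul_iff_algebraMap_injective _ _).mpr hφ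
  obtain ⟨N, hN, hN0⟩ := Submodule.exists_mem_ne_zero_of_ne_bot
    (Ideal.comap_ne_bot_of_integral_mem (R := MvPolynomial (Fin d) k) ha
      (Ideal.mem_span_singleton_self a) (Algebra.IsIntegral.isIntegral a))
  let s0 : Fin d → k := fun i => b (φ (MvPolynomial.X i))
  have hs0 : ∀ p, b (algebraMap (MvPolynomial (Fin d) k) A p) = MvPolynomial.eval s0 p := by
    intro p
    have : b.comp φ = MvPolynomial.aeval s0 := by
      ext i
      simp [s0]
    exact DFunLike.congr_fun this p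
  obtain ⟨β, hβ, hβ'⟩ := core b (𝓝 s0) (fun z => MvPolynomial.aeval z) (fun p => by
    rw [hs0]
    exact (MvPolynomial.continuous_eval p).tendsto s0) s
  have h1 : ∀ᶠ z in 𝓝 s0, ∀ t ∈ s, ‖β z t - b t‖ < ε := by
    rw [eventually_all_finset]
    intro t ht
    simpa [dist_eq_norm] using Metric.tendsto_nhds.mp (hβ' t ht) ε hε
  have h2 : ∃ᶠ z in 𝓝 s0, MvPolynomial.eval z N ≠ 0 := by
    intro h
    obtain ⟨r, hr, h3⟩ := Metric.eventually_nhds_iff_ball.mp h
    refine hN0 (MvPolynomial.funext_set (fun i => Metric.ball (s0 i) r)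
      (fun i => infinite_of_mem_nhds (s0 i) (Metric.ball_mem_nhds _ hr)) (fun z hz => ?_))
    rw [← ball_pi _ hr] at hz
    simpa using h3 z hz
  obtain ⟨z, hz, hz'⟩ := (h2.and_eventually h1).exists
  refine ⟨β z, fun h => hz ?_, hz'⟩
  obtain ⟨w, hw⟩ := Ideal.mem_span_singleton'.mp (Ideal.mem_comap.mp hN)
  have := hβ z N
  rw [← hw, map_mul, h, mul_zero] at this
  exact this.symm

end Normed

theorem thm_dense : Pool.Agent.H505Z.NP.S_dense := by
  intro k _ _ v hc A _ _ _ _ b s ε hε a ha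
  exact @dense_normed k v.toNormedField _ hc A _ _ _ _ b s ε hε a ha

end Pool.Agent.H242Z.Dense
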