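import Mathlib

/-!
# A rigid unbounded Hilbert space cocycle, and a slowly oscillating function
-/

set_option autoImplicit false

namespace Pool.Agent.H242Z.Null

open Filter Topology

/-- `N j = 2 ^ j * j !` -/
def NN : ℕ → ℕ
  | 0 => 1
  | j + 1 => 2 * (j + 1) * NN j

theorem NN_ge (j : ℕ) : j + 1 ≤ NN j := by
  induction j with
  | zero => simp [NN]
  | succ j ih => simp only [NN]; nlinarith

theorem NN_pos (j : ℕ) : 0 < NN j := lt_of_lt_of_le (Nat.succ_pos j) (NN_ge j)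

theorem NN_dvd {j k : ℕ} (h : j ≤ k) : NN j ∣ NN k := by
  induction h with
  | refl => exact dvd_rfl
  | step _ ih => exact Dvd.dvd.mul_left ih _

theorem NN_lt {j k : ℕ} (h : k < j) : NN k * (j + 1) ≤ NN j := by
  obtain ⟨i, rfl⟩ : ∃ i, j = i + 1 := ⟨j - 1, by omega⟩
  have h1 : NN k ≤ NN i := Nat.le_of_dvd (NN_pos i) (NN_dvd (by omega))
  simp only [NN]
  nlinarith [NN_pos i]

noncomputable def ee (t : ℝ) (j : ℕ) : ℂ := Complex.exp (Complex.I * (2 * Real.pi * t / NN j : ℝ))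

theorem ee_add (s t : ℝ) (j : ℕ) : ee (s + t) j = ee s j * ee t j := by
  unfold ee
  rw [← Complex.exp_add]
  congr 1
  push_cast
  ring

theorem ee_norm (t : ℝ) (j : ℕ) : ‖ee t j‖ = 1 := by
  unfold ee
  rw [mul_comm]
  exact Complex.norm_exp_ofReal_mul_I _

theorem ee_zero (j : ℕ) : ee 0 j = 1 := by simp [ee]

theorem ee_sub_one (t : ℝ) (j : ℕ) : ‖ee t j - 1‖ ≤ 2 * Real.pi * |t| / NN j := by
  refine Real.norm_exp_I_mul_ofReal_sub_one_le.trans ?_
  rw [Real.norm_eq_abs, abs_div, abs_mul, abs_of_pos (by positivity : 0 < 2 * Real.pi),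
    Nat.abs_cast]

theorem ee_of_dvd (m j : ℕ) (h : NN j ∣ m) : ee m j = 1 := by
  obtain ⟨q, rfl⟩ := h
  unfold ee
  have h0 : (NN j : ℝ) ≠ 0 := by exact_mod_cast (NN_pos j).ne'
  have : 2 * Real.pi * ((NN j * q : ℕ) : ℝ) / NN j = q * (2 * Real.pi) := by
    push_cast
    field_simp
  rw [this, ← Complex.exp_nat_mul_two_pi_mul_I q]
  congr 1
  push_cast
  ring

theorem ee_half (k : ℕ) : ee (((k + 1) * NN k : ℕ) : ℝ) (k + 1) = -1 := by
  unfold ee
  have h0 : (NN k : ℝ) ≠ 0 := by exact_mod_cast (NN_pos k).ne'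
  have : 2 * Real.pi * (((k + 1) * NN k : ℕ) : ℝ) / NN (k + 1) = Real.pi := by
    simp only [NN]
    push_cast
    field_simp
  rw [this, mul_comm, Complex.exp_pi_mul_I]

theorem summ (A : ℝ) : Summable (fun j : ℕ => (A / (j + 1)) ^ 2) := by
  have h1 : Summable (fun j : ℕ => 1 / ((j : ℝ)) ^ 2) := Real.summable_one_div_nat_pow.mpr (by norm_num)
  have h2 := ((summable_nat_add_iff 1).mpr h1).mul_left (A ^ 2)
  refine h2.congr (fun j => ?_)
  push_cast
  rw [div_pow]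
  field_simp

theorem ee_bound (t : ℝ) (j : ℕ) : ‖ee t j - 1‖ ≤ 2 * Real.pi * |t| / (j + 1) := by
  refine (ee_sub_one t j).trans ?_
  apply div_le_div_of_nonneg_left (by positivity) (by positivity)
  exact_mod_cast NN_ge j

theorem summ_ee (t : ℝ) : Summable (fun j : ℕ => ‖ee t j - 1‖ ^ 2) :=
  Summable.of_nonneg_of_le (fun _ => sq_nonneg _)
    (fun j => pow_le_pow_left₀ (norm_nonneg _) (ee_bound t j) 2) (summ _)

abbrev HH : Type := lp (fun _ : ℕ => ℂ) 2

noncomputable def cc (t : ℝ) : HH := ⟨fun j => ee t j - 1, memℓp_gen (by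
  simpa using summ_ee t)⟩

theorem norm_sq_HH (f : HH) : ‖f‖ ^ 2 = ∑' j, ‖f j‖ ^ 2 := by
  have := lp.norm_rpow_eq_tsum (p := 2) (by norm_num) f
  simpa using this

theorem cc_apply (t : ℝ) (j : ℕ) : cc t j = ee t j - 1 := rfl

theorem norm_cc_sub (s t : ℝ) : ‖cc s - cc (-t)‖ = ‖cc (s + t)‖ := by
  have h : ‖cc s - cc (-t)‖ ^ 2 = ‖cc (s + t)‖ ^ 2 := by
    rw [norm_sq_HH, norm_sq_HH]
    congr 1
    funext j
    have h1 : (cc s - cc (-t)) j = (ee (s + t) j - 1) * ee (-t) j := by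
      rw [lp.coeFn_sub, Pi.sub_apply, cc_apply, cc_apply, sub_mul, ← ee_add]
      simp
    rw [h1, norm_mul, ee_norm, mul_one, cc_apply]
  exact (pow_left_inj₀ (norm_nonneg _) (norm_nonneg _) two_ne_zero).mp h

theorem cc_zero : cc 0 = 0 := by
  ext j
  simp [cc_apply, ee_zero]

noncomputable def rho (t : ℝ) : ℝ := ‖cc t‖

theorem rho_neg (t : ℝ) : rho (-t) = rho t := by
  have := norm_cc_sub 0 t
  rwa [cc_zero, zero_sub, norm_neg, zero_add] at this

theorem rho_add (s t : ℝ) : |rho (s + t) - rho s| ≤ rho t := by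
  have h1 := norm_cc_sub s t
  have h2 := abs_norm_sub_norm_le (cc s - cc (-t)) (cc s)
  rw [h1, sub_sub_cancel_left, norm_neg] at h2
  rw [← rho_neg t]
  exact h2

theorem rho_zero : rho 0 = 0 := by simp [rho, cc_zero]

theorem rho_nonneg (t : ℝ) : 0 ≤ rho t := norm_nonneg _

theorem rho_rigid : Tendsto (fun k => rho (NN k)) atTop (𝓝 0) := by
  have h1 : Tendsto (fun k => ∑' j, ‖ee (NN k) j - 1‖ ^ 2) atTop (𝓝 (∑' _ : ℕ, (0 : ℝ))) := by
    refine tendsto_tsum_of_dominated_convergence (summ (2 * Real.pi)) (fun j => ?_)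
      (Eventually.of_forall (fun k j => ?_))
    · refine tendsto_const_nhds.congr' ?_
      filter_upwards [eventually_ge_atTop j] with k hk
      rw [ee_of_dvd _ _ (NN_dvd hk)]
      simp
    · rw [Real.norm_eq_abs, abs_of_nonneg (sq_nonneg _)]
      rcases le_or_gt j k with h | h
      · rw [ee_of_dvd _ _ (NN_dvd h)]
        simp only [sub_self, norm_zero]
        rw [zero_pow two_ne_zero]
        positivity
      · refine pow_le_pow_left₀ (norm_nonneg _) ((ee_sub_one _ j).trans ?_) 2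
        have h2 : (NN k : ℝ) * (j + 1) ≤ NN j := by exact_mod_cast NN_lt h
        have h3 : (0 : ℝ) < NN j := by exact_mod_cast NN_pos j
        rw [Nat.abs_cast, div_le_div_iff₀ h3 (by positivity), mul_assoc]
        exact mul_le_mul_of_nonneg_left h2 (by positivity)
  rw [tsum_zero] at h1
  have h2 := h1.sqrt
  rw [Real.sqrt_zero] at h2
  refine h2.congr (fun k => ?_)
  have := norm_sq_HH (cc (NN k))
  simp only [cc_apply] at this
  rw [← this, Real.sqrt_sq (norm_nonneg _), rho]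

theorem partial_big (J : ℕ) : ∃ n K : ℕ, (J : ℝ) ≤ ∑ j ∈ Finset.range K, ‖ee n j - 1‖ ^ 2 := by
  induction J with
  | zero => exact ⟨0, 0, by simp⟩
  | succ J ih =>
    obtain ⟨n, K, h⟩ := ih
    obtain ⟨k0, hk0⟩ := exists_nat_gt (2 * Real.pi * n)
    let k := K + k0
    refine ⟨n + (k + 1) * NN k, k + 2, ?_⟩
    rw [Finset.sum_range_succ]
    have h1 : ∑ j ∈ Finset.range (k + 1), ‖ee ((n + (k + 1) * NN k : ℕ) : ℝ) j - 1‖ ^ 2 =
        ∑ j ∈ Finset.range (k + 1), ‖ee n j - 1‖ ^ 2 := by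
      refine Finset.sum_congr rfl (fun j hj => ?_)
      rw [Nat.cast_add, ee_add, ee_of_dvd ((k + 1) * NN k) j
        (Dvd.dvd.mul_left (NN_dvd (by have := Finset.mem_range.mp hj; omega)) _), mul_one]
    have h2 : ∑ j ∈ Finset.range K, ‖ee n j - 1‖ ^ 2 ≤
        ∑ j ∈ Finset.range (k + 1), ‖ee n j - 1‖ ^ 2 :=
      Finset.sum_le_sum_of_subset_of_nonneg (Finset.range_mono (by omega))
        (fun _ _ _ => sq_nonneg _)
    have h3 : 1 ≤ ‖ee ((n + (k + 1) * NN k : ℕ) : ℝ) (k + 1) - 1‖ := by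
      rw [Nat.cast_add, ee_add, ee_half]
      have h4 := ee_bound n (k + 1)
      have h5 : 2 * Real.pi * |(n : ℝ)| / (((k + 1 : ℕ) : ℝ) + 1) ≤ 1 := by
        rw [Nat.abs_cast, div_le_one (by positivity)]
        have : (k0 : ℝ) ≤ ((k + 1 : ℕ) : ℝ) := by exact_mod_cast (by omega : k0 ≤ k + 1)
        linarith
      have h6 : (-2 : ℂ) = (ee n (k + 1) * -1 - 1) + (ee n (k + 1) - 1) := by ring
      have h7 := norm_add_le (ee n (k + 1) * -1 - 1) (ee n (k + 1) - 1)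
      rw [← h6] at h7
      simp only [norm_neg, Complex.norm_ofNat] at h7
      linarith
    have h4 : 1 ≤ ‖ee ((n + (k + 1) * NN k : ℕ) : ℝ) (k + 1) - 1‖ ^ 2 := one_le_pow₀ h3
    rw [h1]
    push_cast at h4 ⊢
    linarith

theorem rho_unbounded (r : ℝ) : ∃ n : ℕ, r ≤ rho n := by
  obtain ⟨J, hJ⟩ := exists_nat_gt (r ^ 2)
  obtain ⟨n, K, h⟩ := partial_big J
  refine ⟨n, ?_⟩
  have h1 := norm_sq_HH (cc n)
  simp only [cc_apply] at h1
  have h2 : ∑ j ∈ Finset.range K, ‖ee n j - 1‖ ^ 2 ≤ ∑' j, ‖ee n j - 1‖ ^ 2 :=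
    (summ_ee n).sum_le_tsum _ (fun _ _ => sq_nonneg _)
  have h3 : r ^ 2 ≤ rho n ^ 2 := by
    rw [rho, h1]
    linarith
  exact le_trans (le_abs_self r) (abs_le_of_sq_le_sq' h3 (rho_nonneg _) |> fun h => abs_le.mpr h)

theorem rho_nat (n k : ℕ) : |rho ((n + k : ℕ) : ℝ) - rho n| ≤ k * rho 1 := by
  induction k with
  | zero => simp
  | succ k ih =>
    have h1 := rho_add ((n + k : ℕ) : ℝ) 1
    have h2 : ((n + (k + 1) : ℕ) : ℝ) = ((n + k : ℕ) : ℝ) + 1 := by push_cast; ring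
    rw [h2]
    rw [abs_le] at *
    push_cast at *
    constructor <;> linarith [h1.1, h1.2, ih.1, ih.2]

/-- there are long blocks on which `rho` is comparable to a given large number -/
theorem rho_block (J : ℕ) (r : ℝ) (hr0 : 0 < r) (hr : (J + 1) * rho 1 ≤ r / 2) :
    ∃ n : ℕ, ∀ k < J, r / 2 ≤ rho ((n + k : ℕ) : ℝ) ∧ rho ((n + k : ℕ) : ℝ) ≤ 2 * r := by
  classical
  have hex := rho_unbounded r
  have h1 := Nat.find_spec hex
  have h2 : Nat.find hex ≠ 0 := by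
    intro h
    rw [h, Nat.cast_zero, rho_zero] at h1
    linarith
  obtain ⟨m, hm⟩ := Nat.exists_eq_succ_of_ne_zero h2
  have h3 := Nat.find_min hex (m := m) (by omega)
  rw [hm] at h1
  have h4 := abs_le.mp (rho_nat m 1)
  refine ⟨m + 1, fun k hk => ?_⟩
  have h5 := abs_le.mp (rho_nat (m + 1) k)
  have h6 : (k : ℝ) * rho 1 ≤ J * rho 1 :=
    mul_le_mul_of_nonneg_right (by exact_mod_cast hk.le) (rho_nonneg _)
  have h7 := rho_nonneg 1
  simp only [Nat.succ_eq_add_one, Nat.cast_one, one_mul] at h1 h4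
  push Not at h3
  constructor <;> nlinarith [h4.1, h4.2, h5.1, h5.2]

/-! ### the slowly oscillating function -/

noncomputable def phi (x : ℝ) : ℝ := Real.log (1 + x)

theorem phi_le {m x y : ℝ} (hm : 0 ≤ m) (hx : m ≤ x) (hxy : x ≤ y) :
    0 ≤ phi y - phi x ∧ phi y - phi x ≤ (y - x) / (1 + m) := by
  unfold phi
  have h1 : 0 < 1 + x := by linarith
  have h2 : 0 < 1 + y := by linarith
  constructor
  · have := Real.log_le_log h1 (by linarith : 1 + x ≤ 1 + y)
    linarith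
  · rw [← Real.log_div h2.ne' h1.ne']
    refine (Real.log_le_sub_one_of_pos (div_pos h2 h1)).trans ?_
    have : (1 + y) / (1 + x) - 1 = (y - x) / (1 + x) := by field_simp; ring
    rw [this]
    exact div_le_div_of_nonneg_left (by linarith) (by linarith) (by linarith)

theorem phi_abs {m x y : ℝ} (hm : 0 ≤ m) (hx : m ≤ x) (hy : m ≤ y) :
    |phi y - phi x| ≤ |y - x| / (1 + m) := by
  rcases le_total x y with h | h
  · obtain ⟨h1, h2⟩ := phi_le hm hx h
    rw [abs_of_nonneg h1, abs_of_nonneg (by linarith)]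
    exact h2
  · obtain ⟨h1, h2⟩ := phi_le hm hy h
    rw [abs_sub_comm, abs_sub_comm y, abs_of_nonneg h1, abs_of_nonneg (by linarith)]
    exact h2

theorem phi_nonneg {x : ℝ} (hx : 0 ≤ x) : 0 ≤ phi x := Real.log_nonneg (by linarith)

noncomputable def gg (s : ℝ) : ℝ := Real.cos (phi (phi |s|))

theorem gg_bound (s : ℝ) : |gg s| ≤ 1 := Real.abs_cos_le_one _

theorem gg_lip (s s' : ℝ) : |gg s - gg s'| ≤ |s - s'| := by
  refine (Real.abs_cos_sub_cos_le _ _).trans ?_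
  have h1 := phi_abs le_rfl (phi_nonneg (abs_nonneg s')) (phi_nonneg (abs_nonneg s))
  have h2 := phi_abs le_rfl (abs_nonneg s') (abs_nonneg s)
  simp only [add_zero, div_one] at h1 h2
  exact h1.trans (h2.trans (abs_abs_sub_abs_le_abs_sub s s'))

theorem gg_slow (η : ℝ) (hη : 0 < η) : ∃ S : ℝ, 0 < S ∧ ∀ s s', S ≤ s → s / 4 ≤ s' →
    s' ≤ 4 * s → |gg s' - gg s| ≤ η := by
  refine ⟨4 * Real.exp (15 / η), by positivity, fun s s' h1 h2 h3 => ?_⟩
  have he : 0 < Real.exp (15 / η) := Real.exp_pos _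
  have hs : 0 < s := by linarith
  have hs' : 0 < s' := by linarith
  refine (Real.abs_cos_sub_cos_le _ _).trans ?_
  rw [abs_of_pos hs, abs_of_pos hs']
  have hm : ∀ x, Real.exp (15 / η) ≤ x → 15 / η ≤ phi x := by
    intro x hx
    unfold phi
    rw [Real.le_log_iff_exp_le (by linarith)]
    linarith
  have h4 := phi_abs (m := 15 / η) (by positivity) (hm s (by linarith)) (hm s' (by linarith))
  have h5 := phi_abs (m := s / 4) (by positivity) (x := s) (y := s') (by linarith) h2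
  have h6 : |s' - s| / (1 + s / 4) ≤ 15 := by
    rw [div_le_iff₀ (by positivity), abs_le]
    constructor <;> linarith
  refine h4.trans ?_
  rw [div_le_iff₀ (by positivity)]
  have : η * (1 + 15 / η) = η + 15 := by field_simp
  rw [this]
  linarith

theorem gg_val (θ : ℝ) (hθ : 0 ≤ θ) : ∃ s, θ ≤ s ∧ gg s = Real.cos θ := by
  have h1 : θ ≤ Real.exp θ - 1 := by linarith [Real.add_one_le_exp θ]
  have h2 : Real.exp θ - 1 ≤ Real.exp (Real.exp θ - 1) - 1 := by
    linarith [Real.add_one_le_exp (Real.exp θ - 1)]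
  refine ⟨Real.exp (Real.exp θ - 1) - 1, by linarith, ?_⟩
  unfold gg phi
  rw [abs_of_nonneg (by linarith)]
  simp

theorem gg_cont : Continuous gg := by
  have : LipschitzWith 1 gg := LipschitzWith.of_dist_le_mul (fun x y => by
    simpa [Real.dist_eq] using gg_lip x y)
  exact this.continuous

/-! ### the sequence -/

noncomputable def FF (n : ℕ) : ℝ := gg (rho n ^ 2)

theorem FF_bound (n : ℕ) : |FF n| ≤ 1 := gg_bound _

theorem FF_rigid (n : ℕ) : Tendsto (fun k => FF (n + NN k)) atTop (𝓝 (FF n)) := by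
  have h1 : Tendsto (fun k => rho ((n + NN k : ℕ) : ℝ)) atTop (𝓝 (rho n)) := by
    rw [tendsto_iff_norm_sub_tendsto_zero]
    refine squeeze_zero (fun _ => norm_nonneg _) (fun k => ?_) rho_rigid
    rw [Nat.cast_add]
    exact rho_add _ _
  exact (gg_cont.tendsto _).comp (h1.pow 2)

theorem FF_const (c : ℝ) (hc : ∀ A : ℝ, ∃ θ, A ≤ θ ∧ Real.cos θ = c) (J : ℕ) (η : ℝ)
    (hη : 0 < η) : ∃ n : ℕ, ∀ k < J, |FF (n + k) - c| ≤ η := by
  obtain ⟨S, hS, hS'⟩ := gg_slow η hη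
  obtain ⟨θ, h1, h2⟩ := hc (S + (2 * ((J + 1) * rho 1)) ^ 2)
  have h0 : 0 ≤ (2 * ((J + 1) * rho 1)) ^ 2 := sq_nonneg _
  obtain ⟨s, h3, h4⟩ := gg_val θ (by linarith)
  have hs : 0 < s := by linarith
  have h5 : 2 * ((J + 1) * rho 1) ≤ √s := Real.le_sqrt_of_sq_le (by linarith)
  obtain ⟨n, hn⟩ := rho_block J (√s) (Real.sqrt_pos.mpr hs) (by linarith)
  refine ⟨n, fun k hk => ?_⟩
  obtain ⟨h6, h7⟩ := hn k hk
  have h8 : √s ^ 2 = s := Real.sq_sqrt hs.le
  have h9 := Real.sqrt_nonneg s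
  rw [← h2, ← h4]
  refine hS' s _ (by linarith) ?_ ?_
  · nlinarith
  · nlinarith [rho_nonneg ((n + k : ℕ) : ℝ)]

theorem FF_one (J : ℕ) (η : ℝ) (hη : 0 < η) : ∃ n : ℕ, ∀ k < J, |FF (n + k) - 1| ≤ η := by
  refine FF_const 1 (fun A => ?_) J η hη
  obtain ⟨m, hm⟩ := exists_nat_gt A
  refine ⟨m * (2 * Real.pi), ?_, Real.cos_nat_mul_two_pi m⟩
  have := Real.pi_gt_three
  have h0 : (0 : ℝ) ≤ m := Nat.cast_nonneg m
  nlinarith

theorem FF_neg_one (J : ℕ) (η : ℝ) (hη : 0 < η) :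
    ∃ n : ℕ, ∀ k < J, |FF (n + k) - (-1)| ≤ η := by
  refine FF_const (-1) (fun A => ?_) J η hη
  obtain ⟨m, hm⟩ := exists_nat_gt A
  refine ⟨m * (2 * Real.pi) + Real.pi, ?_, Real.cos_nat_mul_two_pi_add_pi m⟩
  have := Real.pi_gt_three
  have h0 : (0 : ℝ) ≤ m := Nat.cast_nonneg m
  nlinarith

end Pool.Agent.H242Z.Null
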