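import Mathlib

/-!
# Polynomial covering numbers for slowly oscillating functions of Hilbert space distances
-/

set_option autoImplicit false

namespace Pool.Agent.H242Z.Null

open scoped RealInnerProductSpace

variable {H : Type} [NormedAddCommGroup H] [InnerProductSpace ℝ H]

/-- The perceptron argument. -/
theorem perceptron {κ : Type} (e : κ → H) (R η : ℝ) (hR : 0 < R) (hη : 0 < η)
    (he : ∀ k, ‖e k‖ ^ 2 ≤ R) (t : ℕ) : ∀ v : H, ∃ p : Fin t → Option κ,
      (∀ k, ⟪e k, v - (η / R) • ∑ i, (p i).elim 0 e⟫ ≤ η) ∨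
        ‖v - (η / R) • ∑ i, (p i).elim 0 e‖ ^ 2 ≤ ‖v‖ ^ 2 - t * (η ^ 2 / R) := by
  induction t with
  | zero =>
    intro v
    exact ⟨fun _ => none, Or.inr (by simp)⟩
  | succ t ih =>
    intro v
    by_cases h : ∀ k, ⟪e k, v⟫ ≤ η
    · exact ⟨fun _ => none, Or.inl (by simpa using h)⟩
    · push Not at h
      obtain ⟨k, hk⟩ := h
      obtain ⟨p, hp⟩ := ih (v - (η / R) • e k)
      refine ⟨Fin.cons (some k) p, ?_⟩
      have hs : v - (η / R) • ∑ i : Fin (t + 1), ((Fin.cons (some k) p : Fin (t + 1) → Option κ) i).elim 0 e =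
          v - (η / R) • e k - (η / R) • ∑ i, (p i).elim 0 e := by
        rw [Fin.sum_univ_succ]
        simp only [Fin.cons_zero, Fin.cons_succ, Option.elim_some, smul_add]
        abel
      rw [hs]
      rcases hp with hp | hp
      · exact Or.inl hp
      · right
        refine hp.trans ?_
        have h1 : ‖v - (η / R) • e k‖ ^ 2 =
            ‖v‖ ^ 2 - 2 * (η / R) * ⟪e k, v⟫ + (η / R) ^ 2 * ‖e k‖ ^ 2 := by
          rw [norm_sub_sq_real, inner_smul_right, norm_smul, real_inner_comm, mul_pow,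
            Real.norm_eq_abs, sq_abs]
          ring
        rw [h1]
        have h2 : (η / R) ^ 2 * ‖e k‖ ^ 2 ≤ (η / R) ^ 2 * R :=
          mul_le_mul_of_nonneg_left (he k) (sq_nonneg _)
        have h3 : (η / R) ^ 2 * R = η ^ 2 / R := by field_simp
        have h4 : (η / R) * η ≤ (η / R) * ⟪e k, v⟫ :=
          mul_le_mul_of_nonneg_left hk.le (div_pos hη hR).le
        have h5 : (η / R) * η = η ^ 2 / R := by field_simp
        push_cast
        nlinarith

theorem perceptron' {ι : Type} (a : ι → H) (R η : ℝ) (hR : 0 < R) (hη : 0 < η)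
    (ha : ∀ k, ‖a k‖ ^ 2 ≤ R) (t : ℕ) (ht : R < t * (η ^ 2 / R)) (v : H) (hv : ‖v‖ ^ 2 ≤ R) :
    ∃ p : Fin t → Option (ι ⊕ ι), ∀ k,
      |⟪a k, v - (η / R) • ∑ i, (p i).elim 0 (Sum.elim a (fun k => - a k))⟫| ≤ η := by
  obtain ⟨p, hp⟩ := perceptron (Sum.elim a (fun k => - a k)) R η hR hη (by
    rintro (k | k)
    · exact ha k
    · simpa using ha k) t v
  refine ⟨p, fun k => ?_⟩
  rcases hp with hp | hp
  · have h1 := hp (Sum.inl k)
    have h2 := hp (Sum.inr k)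
    simp only [Sum.elim_inl, Sum.elim_inr, inner_neg_left] at h1 h2
    rw [abs_le]
    constructor <;> linarith
  · exfalso
    have := sq_nonneg ‖v - (η / R) • ∑ i, (p i).elim 0 (Sum.elim a (fun k => - a k))‖
    linarith

theorem grid (η A : ℝ) (hη : 0 < η) (L : ℕ) (hL : A / η < L) (x : ℝ) (h0 : 0 ≤ x) (hA : x ≤ A) :
    ∃ j : Fin L, |x - (j : ℕ) * η| ≤ η := by
  have h1 : ⌊x / η⌋₊ < L := by
    have : (⌊x / η⌋₊ : ℝ) ≤ x / η := Nat.floor_le (div_nonneg h0 hη.le)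
    have h2 : x / η ≤ A / η := div_le_div_of_nonneg_right hA hη.le
    exact_mod_cast (this.trans h2).trans_lt hL
  refine ⟨⟨_, h1⟩, ?_⟩
  have h2 : (⌊x / η⌋₊ : ℝ) ≤ x / η := Nat.floor_le (div_nonneg h0 hη.le)
  have h3 : x / η < ⌊x / η⌋₊ + 1 := Nat.lt_floor_add_one _
  rw [le_div_iff₀ hη] at h2
  rw [div_lt_iff₀ hη] at h3
  rw [abs_le]
  constructor <;> simp only <;> nlinarith

/-- comparison of the squared distances -/
theorem compare (x y r : ℝ) (hx : 0 ≤ x) (hy : 0 ≤ y) (h1 : y ≤ r) (h2 : x ≤ r + y)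
    (h3 : r ≤ x + y) : (y ^ 2 ≤ x ^ 2 → x ^ 2 / 4 ≤ r ^ 2 ∧ r ^ 2 ≤ 4 * x ^ 2) ∧
      (x ^ 2 ≤ y ^ 2 → y ^ 2 / 4 ≤ r ^ 2 ∧ r ^ 2 ≤ 4 * y ^ 2) := by
  have hr : 0 ≤ r := hy.trans h1
  constructor
  · intro h
    have h4 : y ≤ x := by nlinarith
    constructor <;> nlinarith
  · intro h
    have h4 : x ≤ y := by nlinarith
    constructor <;> nlinarith

theorem cover (g : ℝ → ℝ) (hb : ∀ s, |g s| ≤ 1) (hl : ∀ s s', |g s - g s'| ≤ |s - s'|)
    (hs : ∀ η : ℝ, 0 < η → ∃ S : ℝ, 0 < S ∧ ∀ s s', S ≤ s → s / 4 ≤ s' → s' ≤ 4 * s →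
      |g s' - g s| ≤ η) (η : ℝ) (hη : 0 < η) :
    ∃ C k : ℕ, ∀ (ι : Type) [Fintype ι] (u : ι → H), ∃ W : Finset (ι → ℝ),
      W.card ≤ C * (Fintype.card ι + 1) ^ k ∧
      ∀ v : H, ∃ w ∈ W, ∀ b, |g (‖u b - v‖ ^ 2) - w b| ≤ 3 * η := by
  classical
  obtain ⟨S, hS, hS'⟩ := hs η hη
  obtain ⟨L, hL⟩ := exists_nat_gt (2 / η)
  obtain ⟨L', hL'⟩ := exists_nat_gt (S / η)
  obtain ⟨t, ht⟩ := exists_nat_gt (S / (η ^ 2 / S))
  rw [div_lt_iff₀ (by positivity)] at ht
  refine ⟨1 + L + L' * 2 ^ t, t + 2, fun ι _ u => ?_⟩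
  rcases isEmpty_or_nonempty ι with hι | hι
  · refine ⟨{fun _ => 0}, ?_, fun v => ⟨_, Finset.mem_singleton_self _, fun b => hι.elim b⟩⟩
    simp only [Finset.card_singleton, Fintype.card_eq_zero, zero_add, one_pow, mul_one]
    omega
  let D : ι → ι → ℝ := fun b0 b => ‖u b - u b0‖ ^ 2
  let a : ι → ι → H := fun b0 b => if S ≤ D b0 b then 0 else u b - u b0
  let z : ι → (Fin t → Option (ι ⊕ ι)) → H := fun b0 p =>
    (η / S) • ∑ i, (p i).elim 0 (Sum.elim (a b0) (fun k => - a b0 k))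
  let w1 : ι × Option ι × Fin L → ι → ℝ := fun q b =>
    if ∃ b1, q.2.1 = some b1 ∧ D q.1 b1 ≤ D q.1 b then g (D q.1 b) else -1 + (q.2.2 : ℕ) * η
  let w2 : ι × (Fin t → Option (ι ⊕ ι)) × Fin L' → ι → ℝ := fun q b =>
    if S ≤ D q.1 b then g (D q.1 b)
    else g (D q.1 b - 2 * ⟪a q.1 b, z q.1 q.2.1⟫ + (q.2.2 : ℕ) * η)
  refine ⟨Finset.univ.image w1 ∪ Finset.univ.image w2, ?_, fun v => ?_⟩
  · refine (Finset.card_union_le _ _).trans ?_
    refine (add_le_add Finset.card_image_le Finset.card_image_le).trans ?_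
    simp only [Finset.card_univ, Fintype.card_prod, Fintype.card_option, Fintype.card_fin,
      Fintype.card_fun, Fintype.card_sum]
    generalize Fintype.card ι = n
    have h1 : n * ((n + 1) * L) ≤ L * (n + 1) ^ (t + 2) := by
      calc n * ((n + 1) * L) ≤ (n + 1) * ((n + 1) * L) := Nat.mul_le_mul_right _ (by omega)
        _ = L * (n + 1) ^ 2 := by ring
        _ ≤ L * (n + 1) ^ (t + 2) :=
          Nat.mul_le_mul_left _ (Nat.pow_le_pow_right (by omega) (by omega))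
    have h2 : n * ((n + n + 1) ^ t * L') ≤ L' * 2 ^ t * (n + 1) ^ (t + 2) := by
      calc n * ((n + n + 1) ^ t * L') ≤ (n + 1) ^ 2 * ((2 * (n + 1)) ^ t * L') :=
            Nat.mul_le_mul (by nlinarith)
              (Nat.mul_le_mul_right _ (Nat.pow_le_pow_left (by omega) _))
        _ = L' * 2 ^ t * (n + 1) ^ (t + 2) := by rw [mul_pow]; ring
    calc _ ≤ L * (n + 1) ^ (t + 2) + L' * 2 ^ t * (n + 1) ^ (t + 2) := add_le_add h1 h2
      _ ≤ (1 + L + L' * 2 ^ t) * (n + 1) ^ (t + 2) := by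
        rw [← add_mul]
        exact Nat.mul_le_mul_right _ (by omega)
  obtain ⟨b0, -, hb0⟩ := Finset.exists_min_image Finset.univ (fun b => ‖u b - v‖)
    Finset.univ_nonempty
  have hcmp : ∀ b, (‖v - u b0‖ ^ 2 ≤ D b0 b →
        D b0 b / 4 ≤ ‖u b - v‖ ^ 2 ∧ ‖u b - v‖ ^ 2 ≤ 4 * D b0 b) ∧
      (D b0 b ≤ ‖v - u b0‖ ^ 2 →
        ‖v - u b0‖ ^ 2 / 4 ≤ ‖u b - v‖ ^ 2 ∧ ‖u b - v‖ ^ 2 ≤ 4 * ‖v - u b0‖ ^ 2) := by
    intro b
    refine compare ‖u b - u b0‖ ‖v - u b0‖ ‖u b - v‖ (norm_nonneg _) (norm_nonneg _) ?_ ?_ ?_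
    · rw [norm_sub_rev]
      exact hb0 b (Finset.mem_univ _)
    · have : u b - u b0 = (u b - v) + (v - u b0) := by abel
      rw [this]
      exact norm_add_le _ _
    · have : u b - v = (u b - u b0) - (v - u b0) := by abel
      rw [this]
      exact norm_sub_le _ _
  by_cases hd : S ≤ ‖v - u b0‖ ^ 2
  · -- all distances are large
    obtain ⟨j, hj⟩ := grid η 2 hη L hL (g (‖v - u b0‖ ^ 2) + 1)
      (by have := abs_le.mp (hb (‖v - u b0‖ ^ 2)); linarith)
      (by have := abs_le.mp (hb (‖v - u b0‖ ^ 2)); linarith)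
    obtain ⟨o, ho⟩ : ∃ o : Option ι, ∀ b,
        (∃ b1, o = some b1 ∧ D b0 b1 ≤ D b0 b) ↔ ‖v - u b0‖ ^ 2 ≤ D b0 b := by
      by_cases hne : (Finset.univ.filter (fun b => ‖v - u b0‖ ^ 2 ≤ D b0 b)).Nonempty
      · obtain ⟨b1, hb1, hb1'⟩ := Finset.exists_min_image _ (D b0) hne
        refine ⟨some b1, fun b => ⟨?_, fun h => ⟨b1, rfl, hb1' b (by simpa using h)⟩⟩⟩
        rintro ⟨b2, h2, h3⟩
        obtain rfl : b1 = b2 := by simpa using h2
        exact (Finset.mem_filter.mp hb1).2.trans h3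
      · refine ⟨none, fun b => ⟨?_, fun h => (hne ⟨b, by simpa using h⟩).elim⟩⟩
        rintro ⟨b2, h2, -⟩
        simp at h2
    refine ⟨w1 (b0, o, j), Finset.mem_union_left _ (Finset.mem_image_of_mem _ (Finset.mem_univ _)),
      fun b => ?_⟩
    simp only [w1, ho]
    split_ifs with h
    · have := hS' _ _ (hd.trans h) ((hcmp b).1 h).1 ((hcmp b).1 h).2
      linarith
    · have h' := (not_le.mp h).le
      have h1 := abs_le.mp (hS' _ _ hd ((hcmp b).2 h').1 ((hcmp b).2 h').2)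
      have h2 := abs_le.mp hj
      rw [abs_le]
      constructor <;> linarith
  · have hd' := (not_le.mp hd).le
    obtain ⟨j, hj⟩ := grid η S hη L' hL' (‖v - u b0‖ ^ 2) (sq_nonneg _) hd'
    obtain ⟨p, hp⟩ := perceptron' (a b0) S η hS hη (fun b => by
      simp only [a]
      split_ifs with h
      · simpa using hS.le
      · exact (not_le.mp h).le) t ht (v - u b0) hd'
    refine ⟨w2 (b0, p, j), Finset.mem_union_right _ (Finset.mem_image_of_mem _ (Finset.mem_univ _)),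
      fun b => ?_⟩
    simp only [w2]
    split_ifs with h
    · have h' := hd'.trans h
      have := hS' _ _ h ((hcmp b).1 h').1 ((hcmp b).1 h').2
      linarith
    · refine (hl _ _).trans ?_
      have ha : a b0 b = u b - u b0 := by simp only [a, if_neg h]
      have h1 : ‖u b - v‖ ^ 2 = D b0 b - 2 * ⟪a b0 b, v - u b0⟫ + ‖v - u b0‖ ^ 2 := by
        have : u b - v = (u b - u b0) - (v - u b0) := by abel
        rw [this, norm_sub_sq_real, ha]
      have h2 := abs_le.mp (hp b)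
      rw [inner_sub_right] at h2
      have h3 := abs_le.mp hj
      rw [h1, abs_le]
      simp only [z]
      constructor <;> linarith

end Pool.Agent.H242Z.Null
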