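import Pool.Agent.H242Z.NullCover
import Pool.Agent.H242Z.NullCocycle

/-!
# A transitive null system with two fixed points
-/

set_option autoImplicit false

namespace Pool.Agent.H242Z.Null

open Filter Topology

theorem FF_cover (η : ℝ) (hη : 0 < η) : ∃ C k : ℕ, ∀ (ι : Type) [Fintype ι] (β : ι → ℕ),
    ∃ W : Finset (ι → ℝ), W.card ≤ C * (Fintype.card ι + 1) ^ k ∧
      ∀ m : ℕ, ∃ w ∈ W, ∀ b, |FF (m + β b) - w b| ≤ 3 * η := by
  obtain ⟨C, k, h⟩ := cover (H := HH) gg gg_bound gg_lip gg_slow η hη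
  refine ⟨C, k, fun ι _ β => ?_⟩
  obtain ⟨W, hW, hW'⟩ := h ι (fun b => cc (β b))
  refine ⟨W, hW, fun m => ?_⟩
  obtain ⟨w, hw, hw'⟩ := hW' (cc (-(m : ℝ)))
  refine ⟨w, hw, fun b => ?_⟩
  have := hw' b
  rw [norm_cc_sub] at this
  unfold FF rho
  rw [Nat.cast_add, add_comm]
  exact this

noncomputable def orb (n : ℕ) : ℕ → ℝ := fun k => FF (n + k)

def XS : Set (ℕ → ℝ) := closure (Set.range orb)

theorem XS_compact : IsCompact XS := by
  have h1 : IsCompact (Set.pi Set.univ (fun _ : ℕ => Set.Icc (-1 : ℝ) 1)) :=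
    isCompact_univ_pi (fun _ => isCompact_Icc)
  refine h1.of_isClosed_subset isClosed_closure (closure_minimal ?_ h1.isClosed)
  rintro _ ⟨n, rfl⟩ k _
  exact abs_le.mp (FF_bound _)

def sh (y : ℕ → ℝ) : ℕ → ℝ := fun k => y (k + 1)

theorem sh_cont : Continuous sh := continuous_pi (fun k => continuous_apply (k + 1))

theorem sh_orb (n : ℕ) : sh (orb n) = orb (n + 1) := by
  funext k
  simp only [sh, orb]
  congr 1
  omega

theorem sh_mem {y : ℕ → ℝ} (hy : y ∈ XS) : sh y ∈ XS :=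
  map_mem_closure sh_cont hy (by
    rintro _ ⟨n, rfl⟩
    exact ⟨n + 1, (sh_orb n).symm⟩)

abbrev XX : Type := XS

def TT (y : XX) : XX := ⟨sh y.1, sh_mem y.2⟩

theorem TT_cont : Continuous TT := (sh_cont.comp continuous_subtype_val).subtype_mk _

theorem TT_iter (n : ℕ) (y : XX) (k : ℕ) : (TT^[n] y).1 k = y.1 (n + k) := by
  induction n generalizing k with
  | zero => simp
  | succ n ih =>
    rw [Function.iterate_succ_apply']
    change (TT^[n] y).1 (k + 1) = _
    rw [ih, Nat.add_assoc, Nat.add_comm 1 k]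

noncomputable def oo (n : ℕ) : XX := ⟨orb n, subset_closure ⟨n, rfl⟩⟩

theorem TT_oo (n a : ℕ) : TT^[n] (oo a) = oo (a + n) := by
  apply Subtype.ext
  funext k
  rw [TT_iter]
  simp only [oo, orb, add_assoc]

theorem oo_dense : DenseRange oo := by
  unfold DenseRange
  rw [Subtype.dense_iff]
  apply closure_mono
  rintro _ ⟨n, rfl⟩
  exact ⟨oo n, ⟨n, rfl⟩, rfl⟩

theorem oo_rigid (b : ℕ) : Tendsto (fun k => oo (b + NN k)) atTop (𝓝 (oo b)) := by
  rw [tendsto_subtype_rng, tendsto_pi_nhds]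
  intro j
  refine (FF_rigid (b + j)).congr (fun k => ?_)
  simp only [oo, orb]
  congr 1
  omega

theorem transitive (U V : Set XX) (hU : IsOpen U) (hV : IsOpen V) (hU' : U.Nonempty)
    (hV' : V.Nonempty) : ∃ n : ℕ, 1 ≤ n ∧ (V ∩ TT^[n] ⁻¹' U).Nonempty := by
  obtain ⟨a, ha⟩ := oo_dense.exists_mem_open hV hV'
  obtain ⟨b, hb⟩ := oo_dense.exists_mem_open hU hU'
  have h1 := (oo_rigid b).eventually (hU.mem_nhds hb)
  obtain ⟨k, hk1, hk2⟩ := (h1.and (eventually_ge_atTop a)).exists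
  have h2 := NN_ge k
  refine ⟨b + NN k - a, by omega, oo a, ha, ?_⟩
  rw [Set.mem_preimage, TT_oo]
  have : a + (b + NN k - a) = b + NN k := by omega
  rw [this]
  exact hk1

theorem const_mem (c : ℝ) (hc : ∀ (J : ℕ) (η : ℝ), 0 < η → ∃ n : ℕ, ∀ k < J, |FF (n + k) - c| ≤ η) :
    (fun _ => c) ∈ XS := by
  choose n hn using fun J : ℕ => hc J (1 / ((J : ℝ) + 1)) (by positivity)
  refine mem_closure_of_tendsto (b := atTop) (f := fun J => orb (n J)) ?_
    (Eventually.of_forall (fun J => ⟨n J, rfl⟩))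
  rw [tendsto_pi_nhds]
  intro k
  rw [tendsto_iff_norm_sub_tendsto_zero]
  refine squeeze_zero' (Eventually.of_forall (fun _ => norm_nonneg _)) ?_
    tendsto_one_div_add_atTop_nhds_zero_nat
  filter_upwards [eventually_gt_atTop k] with J hJ
  exact hn J k hJ

def pp : XX := ⟨fun _ => 1, const_mem 1 FF_one⟩
def qq : XX := ⟨fun _ => -1, const_mem (-1) FF_neg_one⟩

theorem pp_ne : pp ≠ qq := by
  intro h
  have := congrFun (congrArg Subtype.val h) 0
  simp only [pp, qq] at this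
  linarith

theorem TT_pp (n : ℕ) : TT^[n] pp = pp := Function.iterate_fixed rfl n
theorem TT_qq (n : ℕ) : TT^[n] qq = qq := Function.iterate_fixed rfl n

instance : CompactSpace XX := isCompact_iff_compactSpace.mp XS_compact

/-- approximation of a point of the orbit closure on finitely many coordinates -/
theorem approx (y : XX) {ι : Type} [Fintype ι] (β : ι → ℕ) (η : ℝ) (hη : 0 < η) :
    ∃ m : ℕ, ∀ b, |y.1 (β b) - FF (m + β b)| < η := by
  have hopen : IsOpen {z : XX | ∀ b, |y.1 (β b) - z.1 (β b)| < η} := by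
    rw [Set.ofPred_forall]
    refine isOpen_iInter_of_finite (fun b => isOpen_lt ?_ continuous_const)
    exact (continuous_const.sub ((continuous_apply (β b)).comp continuous_subtype_val)).abs
  obtain ⟨m, hm⟩ := oo_dense.exists_mem_open hopen ⟨y, fun b => by simpa using hη⟩
  exact ⟨m, hm⟩

theorem poly_le_exp (C k J : ℕ) (δ : ℝ) (hδ : 0 < δ) :
    ∀ᶠ n : ℕ in atTop, ((C * (n * J + 1) ^ k : ℕ) : ℝ) ≤ Real.exp (δ * n) := by
  have h1 := (Real.tendsto_pow_mul_exp_neg_atTop_nhds_zero k).comp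
    (Tendsto.const_mul_atTop hδ tendsto_natCast_atTop_atTop)
  have h2 := h1.const_mul ((C : ℝ) * ((J + 1) / δ) ^ k)
  rw [mul_zero] at h2
  filter_upwards [h2.eventually (gt_mem_nhds one_pos), eventually_ge_atTop 1] with n hn hn1
  simp only [Function.comp] at hn
  have h3 : (1 : ℝ) ≤ n := by exact_mod_cast hn1
  have h4 : ((n : ℝ) * J + 1) ^ k ≤ ((J + 1) / δ) ^ k * (δ * n) ^ k := by
    rw [← mul_pow]
    refine pow_le_pow_left₀ (by positivity) ?_ k
    have : ((J : ℝ) + 1) / δ * (δ * n) = n * J + n := by field_simp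
    rw [this]
    linarith
  rw [Real.exp_neg, ← mul_assoc, ← div_eq_mul_inv, div_lt_one (Real.exp_pos _)] at hn
  push_cast
  calc (C : ℝ) * (n * J + 1) ^ k ≤ C * (((J + 1) / δ) ^ k * (δ * n) ^ k) :=
        mul_le_mul_of_nonneg_left h4 (Nat.cast_nonneg C)
    _ = C * ((J + 1) / δ) ^ k * (δ * n) ^ k := by ring
    _ ≤ _ := hn.le

noncomputable abbrev metr : MetricSpace XX := TopologicalSpace.metrizableSpaceMetric XX

attribute [local instance] metr

theorem unif (ε : ℝ) (hε : 0 < ε) : ∃ (J : ℕ) (η : ℝ), 0 < η ∧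
    ∀ y z : XX, (∀ k < J, |y.1 k - z.1 k| ≤ η) → dist y z < ε := by
  have hK : IsCompact {p : XX × XX | ε ≤ dist p.1 p.2} :=
    (isClosed_le continuous_const continuous_dist).isCompact
  obtain ⟨J, hJ⟩ := hK.elim_directed_cover
    (fun J : ℕ => {p : XX × XX | ∃ k < J, 1 / ((J : ℝ) + 1) < |p.1.1 k - p.2.1 k|}) (fun J => by
      have : {p : XX × XX | ∃ k < J, 1 / ((J : ℝ) + 1) < |p.1.1 k - p.2.1 k|} =
          ⋃ k ∈ Set.Iio J, {p : XX × XX | 1 / ((J : ℝ) + 1) < |p.1.1 k - p.2.1 k|} := by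
        ext p
        simp
      rw [this]
      refine isOpen_biUnion (fun k _ => isOpen_lt continuous_const ?_)
      exact (((continuous_apply k).comp (continuous_subtype_val.comp continuous_fst)).sub
        ((continuous_apply k).comp (continuous_subtype_val.comp continuous_snd))).abs) (by
      intro p hp
      have hne : p.1 ≠ p.2 := by
        intro h
        have hp' : ε ≤ dist p.1 p.2 := hp
        rw [h, dist_self] at hp'
        linarith
      obtain ⟨k, hk⟩ : ∃ k, p.1.1 k ≠ p.2.1 k := by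
        by_contra hcon
        push Not at hcon
        exact hne (Subtype.ext (funext hcon))
      have hpos : 0 < |p.1.1 k - p.2.1 k| := abs_pos.mpr (sub_ne_zero.mpr hk)
      obtain ⟨J, hJ1, hJ2⟩ := ((tendsto_one_div_add_atTop_nhds_zero_nat.eventually
        (gt_mem_nhds hpos)).and (eventually_gt_atTop k)).exists
      exact Set.mem_iUnion.mpr ⟨J, k, hJ2, hJ1⟩) (by
      refine Monotone.directed_le (fun J J' h p hp => ?_)
      obtain ⟨k, hk, hk'⟩ := hp
      exact ⟨k, by omega, lt_of_le_of_lt (Nat.one_div_le_one_div h) hk'⟩)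
  refine ⟨J, 1 / ((J : ℝ) + 1), by positivity, fun y z h => ?_⟩
  by_contra hcon
  obtain ⟨k, hk, hk'⟩ := hJ (show (y, z) ∈ {p : XX × XX | ε ≤ dist p.1 p.2} from not_lt.mp hcon)
  exact absurd (h k hk) (not_le.mpr hk')

theorem null (a : ℕ → ℕ) (ε : ℝ) (hε : 0 < ε) (δ : ℝ) (hδ : 0 < δ) :
    ∀ᶠ n in atTop, ∀ F : Finset XX,
      (∀ x ∈ F, ∀ y ∈ F, x ≠ y → ∃ i < n, ε ≤ dist (TT^[a i] x) (TT^[a i] y)) →
      (F.card : ℝ) ≤ Real.exp (δ * n) := by
  classical
  obtain ⟨J, η, hη, hJ⟩ := unif ε hε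
  obtain ⟨C, k, hC⟩ := FF_cover (η / 8) (by positivity)
  filter_upwards [poly_le_exp C k J δ hδ] with n hn F hF
  obtain ⟨W, hW, hW'⟩ := hC (Fin n × Fin J) (fun b => a b.1 + b.2)
  have h1 : ∀ y : XX, ∃ w ∈ W, ∀ b : Fin n × Fin J, |y.1 (a b.1 + b.2) - w b| ≤ η / 2 := by
    intro y
    obtain ⟨m, hm⟩ := approx y (fun b : Fin n × Fin J => a b.1 + b.2) (η / 8) (by positivity)
    obtain ⟨w, hw, hw'⟩ := hW' m
    refine ⟨w, hw, fun b => ?_⟩
    have h2 := abs_lt.mp (hm b)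
    have h3 := abs_le.mp (hw' b)
    rw [abs_le]
    constructor <;> linarith
  choose w hw hw' using h1
  have h2 : F.card ≤ W.card := by
    refine Finset.card_le_card_of_injOn w (fun y _ => hw y) (fun x hx y hy hxy => ?_)
    by_contra hne
    obtain ⟨i, hi, hi'⟩ := hF x hx y hy hne
    refine absurd (hJ _ _ (fun j hj => ?_)) (not_lt.mpr hi')
    rw [TT_iter, TT_iter]
    have h3 := abs_le.mp (hw' x (⟨i, hi⟩, ⟨j, hj⟩))
    have h4 := abs_le.mp (hw' y (⟨i, hi⟩, ⟨j, hj⟩))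
    rw [hxy] at h3
    rw [abs_le]
    simp only at h3 h4
    constructor <;> linarith
  refine le_trans ?_ hn
  rw [Fintype.card_prod, Fintype.card_fin, Fintype.card_fin] at hW
  exact_mod_cast h2.trans hW

theorem shift_sum (f : ℕ → ℝ) (hf : ∀ t, 0 ≤ f t) (a c n : ℕ) (h : a ≤ c) :
    ∑ t ∈ Finset.Ico c n, f t ≤ ∑ i ∈ Finset.range n, f (a + i) := by
  have h1 : ∑ i ∈ Finset.range n, f (a + i) = ∑ t ∈ Finset.Ico a (a + n), f t := by
    rw [Finset.sum_Ico_eq_sum_range]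
    simp
  rw [h1]
  exact Finset.sum_le_sum_of_subset_of_nonneg (Finset.Ico_subset_Ico h (by omega))
    (fun t _ _ => hf t)

theorem not_meq : ¬ ∀ ε : ℝ, 0 < ε → ∃ δ : ℝ, 0 < δ ∧ ∀ x y : XX, dist x y < δ →
    ∀ᶠ n in atTop,
      (∑ i ∈ Finset.range n, dist (TT^[i] x) (TT^[i] y)) / (n : ℝ) < ε := by
  intro h
  have hd : 0 < dist pp qq := dist_pos.mpr pp_ne
  obtain ⟨δ, hδ, h⟩ := h (dist pp qq / 3) (by positivity)
  obtain ⟨a, ha⟩ := oo_dense.exists_mem_open (Metric.isOpen_ball (x := pp) (ε := δ))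
    ⟨pp, Metric.mem_ball_self hδ⟩
  obtain ⟨b, hb⟩ := oo_dense.exists_mem_open (Metric.isOpen_ball (x := qq) (ε := δ))
    ⟨qq, Metric.mem_ball_self hδ⟩
  obtain ⟨n, ⟨h1, h2⟩, h3⟩ := (((h _ _ ha).and (h _ _ hb)).and
    (eventually_ge_atTop (3 * (a + b) + 1))).exists
  simp only [TT_oo, TT_pp, TT_qq] at h1 h2
  have hn : (0 : ℝ) < n := by exact_mod_cast (by omega : 0 < n)
  rw [div_lt_iff₀ hn] at h1 h2
  have h4 := shift_sum (fun t => dist (oo t) pp) (fun _ => dist_nonneg) a (a + b) n (by omega)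
  have h5 := shift_sum (fun t => dist (oo t) qq) (fun _ => dist_nonneg) b (a + b) n (by omega)
  have h6 : ∑ _t ∈ Finset.Ico (a + b) n, dist pp qq ≤
      ∑ t ∈ Finset.Ico (a + b) n, (dist (oo t) pp + dist (oo t) qq) :=
    Finset.sum_le_sum (fun t _ => dist_triangle_left _ _ _)
  rw [Finset.sum_add_distrib, Finset.sum_const, Nat.card_Ico, nsmul_eq_mul,
    Nat.cast_sub (by omega)] at h6
  have h7 : ((3 * (a + b) + 1 : ℕ) : ℝ) ≤ n := by exact_mod_cast h3
  push_cast at h6 h7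
  nlinarith

end Pool.Agent.H242Z.Null
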