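import Mathlib

set_option autoImplicit false

namespace Pool.Agent.H242Z.Sat

/-- one mutation of a seed with three cluster and three frozen variables -/
def step {K : Type} [Field K]
    (s : (Fin 3 ⊕ Fin 3 → K) × Matrix (Fin 3 ⊕ Fin 3) (Fin 3) ℤ) (m : Fin 3) :
    (Fin 3 ⊕ Fin 3 → K) × Matrix (Fin 3 ⊕ Fin 3) (Fin 3) ℤ :=
  (Function.update s.1 (Sum.inl m)
    ((∏ i, s.1 i ^ (s.2 i m).toNat + ∏ i, s.1 i ^ (-(s.2 i m)).toNat) / s.1 (Sum.inl m)),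
   Matrix.of (fun (i : Fin 3 ⊕ Fin 3) (j : Fin 3) =>
     if i = Sum.inl m ∨ j = m then -(s.2 i j)
     else s.2 i j + Int.sign (s.2 i m) * max (s.2 i m * s.2 (Sum.inl m) j) 0))

def B0 : Matrix (Fin 3) (Fin 3) ℤ := !![0, -1, 1; 2, 0, -2; -2, 2, 0]

def M0 : Matrix (Fin 3 ⊕ Fin 3) (Fin 3) ℤ :=
  Matrix.fromRows !![0, -1, 1; 2, 0, -2; -2, 2, 0] !![1, 0, 0; 0, 1, 0; 0, 0, 1]
def M1 : Matrix (Fin 3 ⊕ Fin 3) (Fin 3) ℤ :=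
  Matrix.fromRows !![0, 1, -1; -2, 0, 2; 2, -2, 0] !![1, 0, 0; 0, 1, 0; 0, 2, -1]
def M2 : Matrix (Fin 3 ⊕ Fin 3) (Fin 3) ℤ :=
  Matrix.fromRows !![0, -1, 1; 2, 0, 0; -2, 0, 0] !![-1, 1, 0; 0, 1, 0; 0, 2, -1]
def M3 : Matrix (Fin 3 ⊕ Fin 3) (Fin 3) ℤ :=
  Matrix.fromRows !![0, -1, -1; 2, 0, 0; 2, 0, 0] !![-1, 1, 0; 0, 1, 0; -2, 2, 1]
def M4 : Matrix (Fin 3 ⊕ Fin 3) (Fin 3) ℤ :=
  Matrix.fromRows !![0, 1, -1; -2, 0, 0; 2, 0, 0] !![1, -1, 0; 2, -1, 0; 2, -2, 1]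

theorem hM0 : Matrix.fromRows B0 (1 : Matrix (Fin 3) (Fin 3) ℤ) = M0 := by
  ext i j
  rcases i with i | i <;> fin_cases i <;> fin_cases j <;> rfl

def V {K : Type} (a b c y0 y1 y2 : K) : Fin 3 ⊕ Fin 3 → K := Sum.elim ![a, b, c] ![y0, y1, y2]

variable {K : Type} [Field K]

theorem prodV (a b c y0 y1 y2 : K) (e : Fin 3 ⊕ Fin 3 → ℕ) :
    ∏ i, V a b c y0 y1 y2 i ^ e i = a ^ e (Sum.inl 0) * b ^ e (Sum.inl 1) * c ^ e (Sum.inl 2) *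
      (y0 ^ e (Sum.inr 0) * y1 ^ e (Sum.inr 1) * y2 ^ e (Sum.inr 2)) := by
  rw [Fintype.prod_sum_type, Fin.prod_univ_three, Fin.prod_univ_three]
  rfl

omit [Field K] in
theorem upd0 (a b c y0 y1 y2 t : K) :
    Function.update (V a b c y0 y1 y2) (Sum.inl 0) t = V t b c y0 y1 y2 := by
  funext i
  rcases i with i | i <;> fin_cases i <;> rfl

omit [Field K] in
theorem upd1 (a b c y0 y1 y2 t : K) :
    Function.update (V a b c y0 y1 y2) (Sum.inl 1) t = V a t c y0 y1 y2 := by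
  funext i
  rcases i with i | i <;> fin_cases i <;> rfl

omit [Field K] in
theorem upd2 (a b c y0 y1 y2 t : K) :
    Function.update (V a b c y0 y1 y2) (Sum.inl 2) t = V a b t y0 y1 y2 := by
  funext i
  rcases i with i | i <;> fin_cases i <;> rfl

theorem s1 (a b c y0 y1 y2 : K) :
    step (V a b c y0 y1 y2, M0) 2 = (V a b ((a * y2 + b ^ 2) / c) y0 y1 y2, M1) := by
  refine Prod.ext ?_ ?_
  · simp only [step, prodV, upd2]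
    change V a b ((a ^ 1 * b ^ 0 * c ^ 0 * (y0 ^ 0 * y1 ^ 0 * y2 ^ 1) +
        a ^ 0 * b ^ 2 * c ^ 0 * (y0 ^ 0 * y1 ^ 0 * y2 ^ 0)) / c) y0 y1 y2 = _
    simp
  · ext i j
    rcases i with i | i <;> fin_cases i <;> fin_cases j <;> rfl

theorem s2 (a b c y0 y1 y2 : K) :
    step (V a b c y0 y1 y2, M1) 0 = (V ((c ^ 2 * y0 + b ^ 2) / a) b c y0 y1 y2, M2) := by
  refine Prod.ext ?_ ?_
  · simp only [step, prodV, upd0]
    change V ((a ^ 0 * b ^ 0 * c ^ 2 * (y0 ^ 1 * y1 ^ 0 * y2 ^ 0) +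
        a ^ 0 * b ^ 2 * c ^ 0 * (y0 ^ 0 * y1 ^ 0 * y2 ^ 0)) / a) b c y0 y1 y2 = _
    simp
  · ext i j
    rcases i with i | i <;> fin_cases i <;> fin_cases j <;> rfl

theorem s3 (a b c y0 y1 y2 : K) :
    step (V a b c y0 y1 y2, M2) 2 = (V a b ((a + y2) / c) y0 y1 y2, M3) := by
  refine Prod.ext ?_ ?_
  · simp only [step, prodV, upd2]
    change V a b ((a ^ 1 * b ^ 0 * c ^ 0 * (y0 ^ 0 * y1 ^ 0 * y2 ^ 0) +
        a ^ 0 * b ^ 0 * c ^ 0 * (y0 ^ 0 * y1 ^ 0 * y2 ^ 1)) / c) y0 y1 y2 = _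
    simp
  · ext i j
    rcases i with i | i <;> fin_cases i <;> fin_cases j <;> rfl

theorem s4 (a b c y0 y1 y2 : K) :
    step (V a b c y0 y1 y2, M3) 1 = (V a ((y0 * y1 * y2 ^ 2 + a) / b) c y0 y1 y2, M4) := by
  refine Prod.ext ?_ ?_
  · simp only [step, prodV, upd1]
    change V a ((a ^ 0 * b ^ 0 * c ^ 0 * (y0 ^ 1 * y1 ^ 1 * y2 ^ 2) +
        a ^ 1 * b ^ 0 * c ^ 0 * (y0 ^ 0 * y1 ^ 0 * y2 ^ 0)) / b) c y0 y1 y2 = _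
    simp
  · ext i j
    rcases i with i | i <;> fin_cases i <;> fin_cases j <;> rfl

theorem s5 (a b c y0 y1 y2 : K) :
    (step (V a b c y0 y1 y2, M4) 0).1 (Sum.inl 0) =
      (c ^ 2 * (y0 * y1 ^ 2 * y2 ^ 2) + b ^ 2) / a := by
  simp only [step, prodV, upd0]
  change (a ^ 0 * b ^ 0 * c ^ 2 * (y0 ^ 1 * y1 ^ 2 * y2 ^ 2) +
        a ^ 0 * b ^ 2 * c ^ 0 * (y0 ^ 0 * y1 ^ 0 * y2 ^ 0)) / a = _
  simp

theorem final (a b c y0 y1 y2 : K) (ha : a ≠ 0) (hb : b ≠ 0) (hc : c ≠ 0)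
    (h1 : a * y2 + b ^ 2 ≠ 0) (h2 : (a * y2 + b ^ 2) ^ 2 * y0 + b ^ 2 * c ^ 2 ≠ 0) :
    (List.foldl step (V a b c y0 y1 y2, M0) [2, 0, 2, 1, 0]).1 (Sum.inl 0) =
      a⁻¹ + a⁻¹ * b ^ 2 * c⁻¹ ^ 2 * y0 + 2 * (c⁻¹ ^ 2 * y0 * y2)
        + a * b⁻¹ ^ 2 * c⁻¹ ^ 2 * y0 * y2 ^ 2 + 2 * (b⁻¹ ^ 2 * y0 * y1 * y2 ^ 2)
        + a⁻¹ * b⁻¹ ^ 2 * c ^ 2 * y0 * y1 ^ 2 * y2 ^ 2 + a⁻¹ * y0 ^ 2 * y1 ^ 2 * y2 ^ 2 := by
  simp only [List.foldl_cons, List.foldl_nil, s1, s2, s3, s4, s5]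
  have e1 : (((a * y2 + b ^ 2) / c) ^ 2 * y0 + b ^ 2) / a =
      ((a * y2 + b ^ 2) ^ 2 * y0 + b ^ 2 * c ^ 2) / (a * c ^ 2) := by
    field_simp
  rw [e1]
  have e2 : (((a * y2 + b ^ 2) ^ 2 * y0 + b ^ 2 * c ^ 2) / (a * c ^ 2) + y2) /
      ((a * y2 + b ^ 2) / c) = (c ^ 2 + (a * y2 + b ^ 2) * y0) / (a * c) := by
    field_simp
    ring
  rw [e2, div_eq_iff (div_ne_zero h2 (mul_ne_zero ha (pow_ne_zero _ hc)))]
  field_simp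
  ring

def E (a b c d e f : ℤ) : Fin 3 ⊕ Fin 3 → ℤ := Sum.elim ![a, b, c] ![d, e, f]

noncomputable def cc : (Fin 3 ⊕ Fin 3 → ℤ) →₀ ℤ :=
  Finsupp.single (E (-1) 0 0 0 0 0) 1 + Finsupp.single (E (-1) 2 (-2) 1 0 0) 1
    + Finsupp.single (E 0 0 (-2) 1 0 1) 2 + Finsupp.single (E 1 (-2) (-2) 1 0 2) 1
    + Finsupp.single (E 0 (-2) 0 1 1 2) 2 + Finsupp.single (E (-1) (-2) 2 1 2 2) 1
    + Finsupp.single (E (-1) 0 0 2 2 2) 1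

theorem prodE (a b c y0 y1 y2 : K) (e0 e1 e2 e3 e4 e5 : ℤ) :
    ∏ i, V a b c y0 y1 y2 i ^ E e0 e1 e2 e3 e4 e5 i =
      a ^ e0 * b ^ e1 * c ^ e2 * (y0 ^ e3 * y1 ^ e4 * y2 ^ e5) := by
  rw [Fintype.prod_sum_type, Fin.prod_univ_three, Fin.prod_univ_three]
  rfl

theorem sum_cc (a b c y0 y1 y2 : K) :
    cc.sum (fun e r => (r : K) * ∏ i, V a b c y0 y1 y2 i ^ e i) =
      a⁻¹ + a⁻¹ * b ^ 2 * c⁻¹ ^ 2 * y0 + 2 * (c⁻¹ ^ 2 * y0 * y2)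
        + a * b⁻¹ ^ 2 * c⁻¹ ^ 2 * y0 * y2 ^ 2 + 2 * (b⁻¹ ^ 2 * y0 * y1 * y2 ^ 2)
        + a⁻¹ * b⁻¹ ^ 2 * c ^ 2 * y0 * y1 ^ 2 * y2 ^ 2 + a⁻¹ * y0 ^ 2 * y1 ^ 2 * y2 ^ 2 := by
  have hadd : ∀ f g : (Fin 3 ⊕ Fin 3 → ℤ) →₀ ℤ,
      (f + g).sum (fun e r => (r : K) * ∏ i, V a b c y0 y1 y2 i ^ e i) =
      f.sum (fun e r => (r : K) * ∏ i, V a b c y0 y1 y2 i ^ e i) +
      g.sum (fun e r => (r : K) * ∏ i, V a b c y0 y1 y2 i ^ e i) := by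
    intro f g
    apply Finsupp.sum_add_index'
    · intro e; simp
    · intro e r1 r2; push_cast; ring
  have hs : ∀ (e : Fin 3 ⊕ Fin 3 → ℤ) (r : ℤ),
      (Finsupp.single e r).sum (fun e r => (r : K) * ∏ i, V a b c y0 y1 y2 i ^ e i) =
      (r : K) * ∏ i, V a b c y0 y1 y2 i ^ e i := by
    intro e r
    apply Finsupp.sum_single_index
    simp
  simp only [cc, hadd, hs, prodE]
  simp only [zpow_neg, zpow_ofNat]
  push_cast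
  ring

theorem mem1 : E (-1) 2 (-2) 1 0 0 ∈ cc.support := by
  rw [Finsupp.mem_support_iff]
  simp only [cc, Finsupp.add_apply, Finsupp.single_apply]
  decide

theorem mem2 : E (-1) (-2) 2 1 2 2 ∈ cc.support := by
  rw [Finsupp.mem_support_iff]
  simp only [cc, Finsupp.add_apply, Finsupp.single_apply]
  decide

theorem notmem : E (-1) 0 0 1 1 1 ∉ cc.support := by
  rw [Finsupp.mem_support_iff]
  simp only [cc, Finsupp.add_apply, Finsupp.single_apply]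
  decide

theorem hull : (fun i => (E (-1) 0 0 1 1 1 i : ℝ)) ∈ convexHull ℝ
    ((fun b : Fin 3 ⊕ Fin 3 → ℤ => fun i => (b i : ℝ)) ''
      (↑cc.support : Set (Fin 3 ⊕ Fin 3 → ℤ))) := by
  have h1 := subset_convexHull ℝ _ (Set.mem_image_of_mem
    (fun b : Fin 3 ⊕ Fin 3 → ℤ => fun i => (b i : ℝ)) (Finset.mem_coe.mpr mem1))
  have h2 := subset_convexHull ℝ _ (Set.mem_image_of_mem
    (fun b : Fin 3 ⊕ Fin 3 → ℤ => fun i => (b i : ℝ)) (Finset.mem_coe.mpr mem2))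
  have h3 := (convex_convexHull ℝ _) h1 h2 (a := 1 / 2) (b := 1 / 2) (by norm_num) (by norm_num)
    (by norm_num)
  convert h3 using 1
  funext i
  rcases i with i | i <;> fin_cases i <;> simp [E] <;> norm_num

abbrev P := MvPolynomial (Fin 3 ⊕ Fin 3) ℤ
abbrev KK := FractionRing P

noncomputable def xx (i : Fin 3 ⊕ Fin 3) : KK := algebraMap P KK (MvPolynomial.X i)

theorem xx_eq : xx = V (xx (Sum.inl 0)) (xx (Sum.inl 1)) (xx (Sum.inl 2))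
    (xx (Sum.inr 0)) (xx (Sum.inr 1)) (xx (Sum.inr 2)) := by
  funext i
  rcases i with i | i <;> fin_cases i <;> rfl

theorem ne_of_eval (p : P) (h : MvPolynomial.eval (fun _ => (1 : ℤ)) p ≠ 0) :
    algebraMap P KK p ≠ 0 := by
  intro h0
  have : p = 0 := (IsFractionRing.injective P KK) (by rw [h0, map_zero])
  rw [this] at h
  simp at h

theorem xx_ne (i : Fin 3 ⊕ Fin 3) : xx i ≠ 0 := ne_of_eval _ (by simp)

theorem main : (List.foldl step (xx, M0) [2, 0, 2, 1, 0]).1 (Sum.inl 0) =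
    cc.sum (fun e r => (r : KK) * ∏ i, xx i ^ e i) := by
  rw [xx_eq, sum_cc]
  apply final _ _ _ _ _ _ (xx_ne _) (xx_ne _) (xx_ne _)
  · have := ne_of_eval (MvPolynomial.X (Sum.inl 0) * MvPolynomial.X (Sum.inr 2) +
      MvPolynomial.X (Sum.inl 1) ^ 2) (by simp)
    simpa [xx] using this
  · have := ne_of_eval ((MvPolynomial.X (Sum.inl 0) * MvPolynomial.X (Sum.inr 2) +
      MvPolynomial.X (Sum.inl 1) ^ 2) ^ 2 * MvPolynomial.X (Sum.inr 0) +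
      MvPolynomial.X (Sum.inl 1) ^ 2 * MvPolynomial.X (Sum.inl 2) ^ 2) (by simp)
    simpa [xx] using this

end Pool.Agent.H242Z.Sat
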