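import Mathlib
import Pool.Agent.Helper514.IoD

/-!
# Smale systems: products, and the cat map on the torus
-/

set_option autoImplicit false

namespace Pool.Agent.H242Z.Smale

open Metric Topology

structure IsSmale {X : Type} [MetricSpace X] (f : X ≃ₜ X) (ε lam : ℝ) (br : X → X → X) : Prop where
  cont : ContinuousOn (fun p : X × X => br p.1 p.2) {p | dist p.1 p.2 ≤ ε}
  self : ∀ x, br x x = x
  a1 : ∀ x y z, dist y z ≤ ε → dist x (br y z) ≤ ε → dist x z ≤ ε → br x (br y z) = br x z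
  a2 : ∀ x y z, dist x y ≤ ε → dist (br x y) z ≤ ε → dist x z ≤ ε → br (br x y) z = br x z
  eqv : ∀ x y, dist x y ≤ ε → dist (f x) (f y) ≤ ε → f (br x y) = br (f x) (f y)
  st : ∀ x y z, dist x y ≤ ε → br y x = x → dist x z ≤ ε → br z x = x →
    dist (f y) (f z) ≤ lam * dist y z
  un : ∀ x y z, dist x y ≤ ε → br x y = x → dist x z ≤ ε → br x z = x →
    dist (f.symm y) (f.symm z) ≤ lam * dist y z

theorem IsSmale.prod {X Y : Type} [MetricSpace X] [MetricSpace Y] {f : X ≃ₜ X} {g : Y ≃ₜ Y}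
    {ε lam : ℝ} {br : X → X → X} {br' : Y → Y → Y} (hl : 0 ≤ lam) (h : IsSmale f ε lam br)
    (h' : IsSmale g ε lam br') :
    IsSmale (f.prodCongr g) ε lam (fun p q => (br p.1 q.1, br' p.2 q.2)) := by
  have hd : ∀ p q : X × Y, dist p q ≤ ε → dist p.1 q.1 ≤ ε ∧ dist p.2 q.2 ≤ ε := by
    intro p q hpq
    rwa [Prod.dist_eq, max_le_iff] at hpq
  refine ⟨?_, ?_, ?_, ?_, ?_, ?_, ?_⟩
  · refine ContinuousOn.prodMk ?_ ?_
    · exact h.cont.comp (f := fun p : (X × Y) × (X × Y) => (p.1.1, p.2.1)) (by fun_prop)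
        (fun p hp => (hd _ _ hp).1)
    · exact h'.cont.comp (f := fun p : (X × Y) × (X × Y) => (p.1.2, p.2.2)) (by fun_prop)
        (fun p hp => (hd _ _ hp).2)
  · intro x
    simp [h.self, h'.self]
  · intro x y z h1 h2 h3
    exact Prod.ext (h.a1 _ _ _ (hd _ _ h1).1 (hd _ _ h2).1 (hd _ _ h3).1)
      (h'.a1 _ _ _ (hd _ _ h1).2 (hd _ _ h2).2 (hd _ _ h3).2)
  · intro x y z h1 h2 h3
    exact Prod.ext (h.a2 _ _ _ (hd _ _ h1).1 (hd _ _ h2).1 (hd _ _ h3).1)
      (h'.a2 _ _ _ (hd _ _ h1).2 (hd _ _ h2).2 (hd _ _ h3).2)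
  · intro x y h1 h2
    exact Prod.ext (h.eqv _ _ (hd _ _ h1).1 (hd _ _ h2).1) (h'.eqv _ _ (hd _ _ h1).2 (hd _ _ h2).2)
  · intro x y z h1 h2 h3 h4
    have b1 := h.st x.1 y.1 z.1 (hd _ _ h1).1 (congrArg Prod.fst h2) (hd _ _ h3).1
      (congrArg Prod.fst h4)
    have b2 := h'.st x.2 y.2 z.2 (hd _ _ h1).2 (congrArg Prod.snd h2) (hd _ _ h3).2
      (congrArg Prod.snd h4)
    rw [Prod.dist_eq, Prod.dist_eq, mul_max_of_nonneg _ _ hl]
    exact max_le_max b1 b2
  · intro x y z h1 h2 h3 h4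
    have b1 := h.un x.1 y.1 z.1 (hd _ _ h1).1 (congrArg Prod.fst h2) (hd _ _ h3).1
      (congrArg Prod.fst h4)
    have b2 := h'.un x.2 y.2 z.2 (hd _ _ h1).2 (congrArg Prod.snd h2) (hd _ _ h3).2
      (congrArg Prod.snd h4)
    rw [Prod.dist_eq, Prod.dist_eq, mul_max_of_nonneg _ _ hl]
    exact max_le_max b1 b2

/-! ### the torus -/

abbrev TT : Type := UnitAddCircle × UnitAddCircle

def pr : ℝ × ℝ →+ TT where
  toFun v := ((v.1 : UnitAddCircle), (v.2 : UnitAddCircle))
  map_zero' := rfl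
  map_add' _ _ := rfl

theorem pr_apply (v : ℝ × ℝ) : pr v = ((v.1 : UnitAddCircle), (v.2 : UnitAddCircle)) := rfl

theorem pr_cont : Continuous pr :=
  (continuous_quotient_mk'.comp continuous_fst).prodMk (continuous_quotient_mk'.comp continuous_snd)

noncomputable def l1 (x : UnitAddCircle) : ℝ := (AddCircle.equivIoc 1 (-(1 / 2)) x : ℝ)

theorem coe_l1 (x : UnitAddCircle) : ((l1 x : ℝ) : UnitAddCircle) = x := AddCircle.coe_equivIoc

theorem l1_coe {t : ℝ} (ht : |t| < 1 / 2) : l1 (t : UnitAddCircle) = t := by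
  have h := abs_lt.mp ht
  unfold l1
  rw [AddCircle.equivIoc_coe_eq (x := t) ⟨h.1, by linarith [h.2]⟩]

theorem abs_l1 (x : UnitAddCircle) : |l1 x| = ‖x‖ := by
  have h := (AddCircle.equivIoc 1 (-(1 / 2)) x).2
  have h2 : |l1 x| ≤ |(1 : ℝ)| / 2 := by
    rw [abs_one, abs_le]
    exact ⟨h.1.le, by have := h.2; unfold l1; linarith⟩
  rw [← (AddCircle.norm_coe_eq_abs_iff 1 one_ne_zero).mpr h2, coe_l1]

theorem l1_cont {x : UnitAddCircle} (hx : ‖x‖ < 1 / 2) : ContinuousAt l1 x := by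
  refine continuous_subtype_val.continuousAt.comp (AddCircle.continuousAt_equivIoc 1 _ ?_)
  rintro rfl
  rw [(AddCircle.norm_coe_eq_abs_iff 1 one_ne_zero).mpr (by norm_num [abs_of_pos])] at hx
  norm_num [abs_of_pos] at hx

noncomputable def lf (x : TT) : ℝ × ℝ := (l1 x.1, l1 x.2)

theorem pr_lf (x : TT) : pr (lf x) = x := Prod.ext (coe_l1 _) (coe_l1 _)

theorem lf_pr {v : ℝ × ℝ} (hv : ‖v‖ < 1 / 2) : lf (pr v) = v :=
  Prod.ext (l1_coe ((norm_fst_le v).trans_lt hv)) (l1_coe ((norm_snd_le v).trans_lt hv))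

theorem norm_lf (x : TT) : ‖lf x‖ = ‖x‖ := by
  rw [Prod.norm_def, Prod.norm_def]
  simp only [lf, Real.norm_eq_abs, abs_l1]

theorem lf_cont {x : TT} (hx : ‖x‖ < 1 / 2) : ContinuousAt lf x :=
  ((l1_cont ((norm_fst_le x).trans_lt hx)).comp continuousAt_fst).prodMk
    ((l1_cont ((norm_snd_le x).trans_lt hx)).comp continuousAt_snd)

theorem norm_pr {v : ℝ × ℝ} (hv : ‖v‖ < 1 / 2) : ‖pr v‖ = ‖v‖ := by
  rw [← norm_lf, lf_pr hv]

theorem lf_zero : lf 0 = 0 := by
  have := lf_pr (v := 0) (by simp)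
  rwa [map_zero] at this

/-- a continuous injection of the torus into itself is onto -/
theorem torus_surj (σ : TT → TT) (hc : Continuous σ) (hi : Function.Injective σ) :
    Function.Surjective σ := by
  have hclosed : IsClosed (Set.range σ) := (isCompact_range hc).isClosed
  have hopen : IsOpen (Set.range σ) := by
    rw [isOpen_iff_mem_nhds]
    rintro _ ⟨x0, rfl⟩
    let e := Complex.equivRealProdCLM
    let G : ℂ → TT := fun v => σ (x0 + pr (e v)) - σ x0
    have hG : Continuous G := (hc.comp (continuous_const.add (pr_cont.comp e.continuous))).sub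
      continuous_const
    have hG0 : G 0 = 0 := by simp [G]
    have h1 : ∀ᶠ v in 𝓝 (0 : ℂ), ‖G v‖ < 1 / 2 ∧ ‖e v‖ < 1 / 2 := by
      refine Filter.Eventually.and ?_ ?_
      · exact hG.norm.continuousAt.eventually_lt continuousAt_const (by simp [hG0])
      · exact e.continuous.norm.continuousAt.eventually_lt continuousAt_const (by simp)
    obtain ⟨r, hr, h2⟩ := Metric.nhds_basis_closedBall.eventually_iff.mp h1
    have h3 := Pool.Agent.Helper514.IoD.image_mem_nhds (fun v => e.symm (lf (G v))) 0 r hr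
      (fun v hv => (e.symm.continuous.continuousAt.comp
        ((lf_cont (h2 hv).1).comp hG.continuousAt)).continuousWithinAt) (by
        intro v hv w hw hvw
        have a1 := congrArg pr (e.symm.injective hvw)
        rw [pr_lf, pr_lf] at a1
        have a2 := add_left_cancel (hi (sub_left_injective a1))
        have a3 := congrArg lf a2
        rw [lf_pr (h2 hv).2, lf_pr (h2 hw).2] at a3
        exact e.injective a3)
    have h4 : ContinuousAt (fun y : TT => e.symm (lf (y - σ x0))) (σ x0) :=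
      e.symm.continuous.continuousAt.comp (ContinuousAt.comp (g := lf)
        (f := fun y : TT => y - σ x0) (lf_cont (by simp)) (by fun_prop))
    have h5 := h4.preimage_mem_nhds (t := (fun v => e.symm (lf (G v))) '' closedBall 0 r) (by
      simpa [hG0] using h3)
    refine Filter.mem_of_superset h5 (fun y hy => ?_)
    obtain ⟨v, -, hv⟩ := hy
    have a1 := congrArg pr (e.symm.injective hv)
    rw [pr_lf, pr_lf] at a1
    exact ⟨_, sub_left_injective a1⟩
  rw [← Set.range_eq_univ]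
  exact IsClopen.eq_univ ⟨hclosed, hopen⟩ (Set.range_nonempty σ)

/-- the cat map -/
noncomputable def cat : TT ≃ₜ TT where
  toFun x := (x.1 + x.1 + x.2, x.1 + x.2)
  invFun x := (x.1 - x.2, x.2 + x.2 - x.1)
  left_inv x := by ext <;> simp only <;> abel
  right_inv x := by ext <;> simp only <;> abel
  continuous_toFun := by fun_prop
  continuous_invFun := by fun_prop

def AA (v : ℝ × ℝ) : ℝ × ℝ := (v.1 + v.1 + v.2, v.1 + v.2)
def AI (v : ℝ × ℝ) : ℝ × ℝ := (v.1 - v.2, v.2 + v.2 - v.1)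

theorem cat_pr (v : ℝ × ℝ) : cat (pr v) = pr (AA v) := rfl
theorem cat_symm_pr (v : ℝ × ℝ) : cat.symm (pr v) = pr (AI v) := rfl

theorem cat_add (x y : TT) : cat (x + y) = cat x + cat y := by
  change (_, _) = (_, _) + (_, _)
  ext <;> simp only [Prod.fst_add, Prod.snd_add] <;> abel

theorem cat_sub (x y : TT) : cat (x - y) = cat x - cat y := by
  change (_, _) = (_, _) - (_, _)
  ext <;> simp only [Prod.fst_sub, Prod.snd_sub] <;> abel

theorem cat_symm_sub (x y : TT) : cat.symm (x - y) = cat.symm x - cat.symm y := by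
  apply cat.injective
  rw [cat_sub]
  simp

noncomputable def s5 : ℝ := √5

theorem s5_sq : s5 * s5 = 5 := Real.mul_self_sqrt (by norm_num)
theorem s5_gt : 2 < s5 := Real.lt_sqrt_of_sq_lt (by norm_num)
theorem s5_lt : s5 < 3 := by nlinarith [s5_sq, s5_gt]

/-- the projection onto the stable direction -/
noncomputable def PP (v : ℝ × ℝ) : ℝ × ℝ :=
  (((5 - s5) * v.1 - 2 * s5 * v.2) / 10, (-2 * s5 * v.1 + (5 + s5) * v.2) / 10)

theorem PP_cont : Continuous PP := by unfold PP; fun_prop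

theorem PP_sub (v w : ℝ × ℝ) : PP (v - w) = PP v - PP w := by
  ext <;> simp only [PP, Prod.fst_sub, Prod.snd_sub] <;> ring

theorem PP_zero : PP 0 = 0 := by ext <;> simp [PP]

theorem PP_PP (v : ℝ × ℝ) : PP (PP v) = PP v := by
  ext <;> simp only [PP]
  · linear_combination ((5 * v.1) / 100) * s5_sq
  · linear_combination ((5 * v.2) / 100) * s5_sq

theorem PP_AA (v : ℝ × ℝ) : PP (AA v) = AA (PP v) := by
  ext <;> simp only [PP, AA] <;> ring

theorem AA_PP (v : ℝ × ℝ) : AA (PP v) = ((3 - s5) / 2) • PP v := by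
  ext <;> simp only [PP, AA, Prod.smul_fst, Prod.smul_snd, smul_eq_mul]
  · linear_combination (-(v.1 + 2 * v.2) / 20) * s5_sq
  · linear_combination (-(2 * v.1 - v.2) / 20) * s5_sq

theorem AI_QQ (v : ℝ × ℝ) : AI (v - PP v) = ((3 - s5) / 2) • (v - PP v) := by
  ext <;> simp only [PP, AI, Prod.smul_fst, Prod.smul_snd, smul_eq_mul, Prod.fst_sub, Prod.snd_sub]
  · linear_combination ((v.1 + 2 * v.2) / 20) * s5_sq
  · linear_combination ((2 * v.1 - v.2) / 20) * s5_sq

theorem norm_PP (v : ℝ × ℝ) : ‖PP v‖ ≤ 2 * ‖v‖ := by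
  have h1 := abs_le.mp (norm_fst_le v)
  have h2 := abs_le.mp (norm_snd_le v)
  have := s5_gt
  have := s5_lt
  rw [norm_prod_le_iff]
  simp only [PP, Real.norm_eq_abs, abs_le]
  refine ⟨⟨?_, ?_⟩, ?_, ?_⟩ <;> nlinarith [h1.1, h1.2, h2.1, h2.2]

theorem norm_AA (v : ℝ × ℝ) : ‖AA v‖ ≤ 3 * ‖v‖ := by
  have h1 := abs_le.mp (norm_fst_le v)
  have h2 := abs_le.mp (norm_snd_le v)
  have := norm_nonneg v
  rw [norm_prod_le_iff]
  simp only [AA, Real.norm_eq_abs, abs_le]
  refine ⟨⟨?_, ?_⟩, ?_, ?_⟩ <;> linarith [h1.1, h1.2, h2.1, h2.2]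

noncomputable def brT (x y : TT) : TT := x + pr (PP (lf (y - x)))

theorem norm_lf_le {x y : TT} (h : dist x y ≤ 1 / 100) : ‖lf (y - x)‖ ≤ 1 / 100 := by
  rwa [norm_lf, ← dist_eq_norm, dist_comm]

theorem contr {w : ℝ × ℝ} (hw : ‖w‖ ≤ 2 / 100) :
    ‖pr (((3 - s5) / 2) • w)‖ ≤ 1 / 2 * ‖pr w‖ := by
  have := s5_gt
  have := s5_lt
  have h1 : ‖((3 - s5) / 2) • w‖ ≤ 1 / 2 * ‖w‖ := by
    rw [norm_smul, Real.norm_eq_abs, abs_of_pos (by linarith)]
    exact mul_le_mul_of_nonneg_right (by linarith) (norm_nonneg _)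
  rw [norm_pr (by linarith), norm_pr (by linarith)]
  exact h1

theorem cat_smale : IsSmale cat (1 / 100) (1 / 2) brT := by
  refine ⟨?_, ?_, ?_, ?_, ?_, ?_, ?_⟩
  · intro p hp
    refine ContinuousAt.continuousWithinAt (continuousAt_fst.add
      ((pr_cont.comp PP_cont).continuousAt.comp (ContinuousAt.comp (g := lf)
        (f := fun p : TT × TT => p.2 - p.1) (lf_cont ?_) (by fun_prop))))
    have := norm_lf_le hp
    rw [norm_lf] at this
    linarith
  · intro x
    simp [brT, lf_zero, PP_zero]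
  · intro x y z h1 _ h3
    have b1 := norm_lf_le h1
    have b3 := norm_lf_le h3
    have b4 := norm_PP (lf (z - y))
    have e : brT y z - x = pr (lf (z - x) - (lf (z - y) - PP (lf (z - y)))) := by
      rw [map_sub, map_sub, pr_lf, pr_lf, brT]
      abel
    have b5 := norm_sub_le (lf (z - x)) (lf (z - y) - PP (lf (z - y)))
    have b6 := norm_sub_le (lf (z - y)) (PP (lf (z - y)))
    rw [brT, e, lf_pr (by linarith), PP_sub, PP_sub, PP_PP, sub_self, sub_zero, brT]
  · intro x y z h1 _ h3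
    have b1 := norm_lf_le h1
    have b3 := norm_lf_le h3
    have b4 := norm_PP (lf (y - x))
    have e : z - brT x y = pr (lf (z - x) - PP (lf (y - x))) := by
      rw [map_sub, pr_lf, brT]
      abel
    have b5 := norm_sub_le (lf (z - x)) (PP (lf (y - x)))
    rw [brT, e, lf_pr (by linarith), PP_sub, PP_PP, map_sub, brT, brT]
    abel
  · intro x y h1 _
    have b1 := norm_lf_le h1
    have b2 := norm_AA (lf (y - x))
    have e : cat y - cat x = pr (AA (lf (y - x))) := by rw [← cat_pr, pr_lf, cat_sub]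
    rw [brT, brT, e, lf_pr (by linarith), cat_add, cat_pr, PP_AA]
  · intro x y z h1 h2 h3 h4
    have key : ∀ y, dist x y ≤ 1 / 100 → brT y x = x → PP (lf (x - y)) = lf (x - y) := by
      intro y h1 h2
      have b1 := norm_lf_le (dist_comm x y ▸ h1)
      have b2 := norm_PP (lf (x - y))
      have e : pr (PP (lf (x - y))) = x - y := by
        rw [brT] at h2
        exact eq_sub_of_add_eq' h2
      have := congrArg lf e
      rwa [lf_pr (by linarith)] at this
    have b1 := norm_lf_le (dist_comm x y ▸ h1)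
    have b3 := norm_lf_le (dist_comm x z ▸ h3)
    have e : y - z = pr (lf (x - z) - lf (x - y)) := by
      rw [map_sub, pr_lf, pr_lf]
      abel
    have e2 : PP (lf (x - z) - lf (x - y)) = lf (x - z) - lf (x - y) := by
      rw [PP_sub, key y h1 h2, key z h3 h4]
    have b5 := norm_sub_le (lf (x - z)) (lf (x - y))
    rw [dist_eq_norm, dist_eq_norm, ← cat_sub, e, cat_pr, ← e2, AA_PP, e2]
    exact contr (by linarith)
  · intro x y z h1 h2 h3 h4
    have key : ∀ y, dist x y ≤ 1 / 100 → brT x y = x → PP (lf (y - x)) = 0 := by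
      intro y h1 h2
      have b1 := norm_lf_le h1
      have b2 := norm_PP (lf (y - x))
      have e : pr (PP (lf (y - x))) = 0 := by
        rw [brT] at h2
        exact add_eq_left.mp h2
      have := congrArg lf e
      rwa [lf_pr (by linarith), lf_zero] at this
    have b1 := norm_lf_le h1
    have b3 := norm_lf_le h3
    have e : y - z = pr (lf (y - x) - lf (z - x)) := by
      rw [map_sub, pr_lf, pr_lf]
      abel
    have e2 : lf (y - x) - lf (z - x) - PP (lf (y - x) - lf (z - x)) = lf (y - x) - lf (z - x) := by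
      rw [PP_sub, key y h1 h2, key z h3 h4]
      simp
    have b5 := norm_sub_le (lf (y - x)) (lf (z - x))
    rw [dist_eq_norm, dist_eq_norm, ← cat_symm_sub, e, cat_symm_pr, ← e2, AI_QQ, e2]
    exact contr (by linarith)

end Pool.Agent.H242Z.Smale
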