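import Mathlib
import Pool.Agent.H242Z.SmaleT

/-!
# A countable Smale system: one orbit running from a source to a sink
-/

set_option autoImplicit false

namespace Pool.Agent.H242Z.Smale

open Metric Topology

noncomputable def aa (n : ℕ) : ℝ := 3 - 2 * (1 / 2) ^ n

def KK : Set ℝ := insert 3 (Set.range aa)

def ZS : Set ℝ := KK ∪ (fun t => -t) '' KK

theorem aa_zero : aa 0 = 1 := by norm_num [aa]

theorem aa_succ (n : ℕ) : aa (n + 1) = (aa n + 3) / 2 := by
  unfold aa
  rw [pow_succ]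
  ring

theorem aa_ge (n : ℕ) : 1 ≤ aa n := by
  induction n with
  | zero => rw [aa_zero]
  | succ n ih => rw [aa_succ]; linarith

theorem KK_compact : IsCompact KK := by
  apply Filter.Tendsto.isCompact_insert_range
  have h := (tendsto_pow_atTop_nhds_zero_of_lt_one (r := (1 / 2 : ℝ)) (by norm_num)
    (by norm_num)).const_mul 2
  have h2 := h.const_sub 3
  rw [mul_zero, sub_zero] at h2
  exact h2

theorem ZS_compact : IsCompact ZS := KK_compact.union (KK_compact.image continuous_neg)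

theorem ZS_countable : ZS.Countable :=
  have h : KK.Countable := (Set.countable_range aa).insert 3
  h.union (h.image _)

theorem mem_ZS {t : ℝ} : t ∈ ZS ↔ t = 3 ∨ t = -3 ∨ ∃ n, t = aa n ∨ t = -aa n := by
  constructor
  · rintro ((h | ⟨n, h⟩) | ⟨s, h | ⟨n, h⟩, h'⟩)
    · exact Or.inl h
    · exact Or.inr (Or.inr ⟨n, Or.inl h.symm⟩)
    · exact Or.inr (Or.inl (by rw [← h', h]))
    · exact Or.inr (Or.inr ⟨n, Or.inr (by rw [← h', h])⟩)
  · rintro (h | h | ⟨n, h | h⟩)
    · exact Or.inl (Or.inl h)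
    · exact Or.inr ⟨3, Or.inl rfl, h.symm⟩
    · exact Or.inl (Or.inr ⟨n, h.symm⟩)
    · exact Or.inr ⟨aa n, Or.inr ⟨n, rfl⟩, h.symm⟩

theorem ZS_cases {t : ℝ} (h : t ∈ ZS) : 1 ≤ t ∨ t = -1 ∨ t ≤ -2 := by
  rcases mem_ZS.mp h with h | h | ⟨n, h | h⟩
  · left; linarith
  · right; right; linarith
  · left; rw [h]; exact aa_ge n
  · cases n with
    | zero => right; left; rw [h, aa_zero]
    | succ n => right; right; rw [h, aa_succ]; linarith [aa_ge n]

noncomputable def gg (t : ℝ) : ℝ := min (2 * t + 3) ((t + 3) / 2)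
noncomputable def gi (t : ℝ) : ℝ := max ((t - 3) / 2) (2 * t - 3)

theorem gg_ge {t : ℝ} (h : -1 ≤ t) : gg t = (t + 3) / 2 := min_eq_right (by linarith)
theorem gg_le {t : ℝ} (h : t ≤ -1) : gg t = 2 * t + 3 := min_eq_left (by linarith)
theorem gi_ge {t : ℝ} (h : 1 ≤ t) : gi t = 2 * t - 3 := max_eq_right (by linarith)
theorem gi_le {t : ℝ} (h : t ≤ 1) : gi t = (t - 3) / 2 := max_eq_left (by linarith)

theorem gi_gg (t : ℝ) : gi (gg t) = t := by
  rcases le_total t (-1) with h | h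
  · rw [gg_le h, gi_le (by linarith)]; ring
  · rw [gg_ge h, gi_ge (by linarith)]; ring

theorem gg_gi (t : ℝ) : gg (gi t) = t := by
  rcases le_total t 1 with h | h
  · rw [gi_le h, gg_le (by linarith)]; ring
  · rw [gi_ge h, gg_ge (by linarith)]; ring

theorem gi_neg (t : ℝ) : gi (-t) = -gg t := by
  rcases le_total t (-1) with h | h
  · rw [gg_le h, gi_ge (by linarith)]; ring
  · rw [gg_ge h, gi_le (by linarith)]; ring

theorem gg_aa (n : ℕ) : gg (aa n) = aa (n + 1) := by
  rw [gg_ge (by linarith [aa_ge n]), aa_succ]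

theorem gg_naa (n : ℕ) : gg (-aa (n + 1)) = -aa n := by
  rw [← gg_aa, ← gi_neg, gg_gi]

theorem gg_naa0 : gg (-aa 0) = aa 0 := by
  rw [aa_zero, gg_ge le_rfl]; norm_num

theorem gg_mem {t : ℝ} (h : t ∈ ZS) : gg t ∈ ZS := by
  rw [mem_ZS] at h ⊢
  rcases h with rfl | rfl | ⟨n, rfl | rfl⟩
  · left; rw [gg_ge (by norm_num)]; norm_num
  · right; left; rw [gg_le (by norm_num)]; norm_num
  · exact Or.inr (Or.inr ⟨n + 1, Or.inl (gg_aa n)⟩)
  · cases n with
    | zero => exact Or.inr (Or.inr ⟨0, Or.inl gg_naa0⟩)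
    | succ n => exact Or.inr (Or.inr ⟨n, Or.inr (gg_naa n)⟩)

theorem neg_mem {t : ℝ} (h : t ∈ ZS) : -t ∈ ZS := by
  rw [mem_ZS] at h ⊢
  rcases h with rfl | rfl | ⟨n, rfl | rfl⟩
  · exact Or.inr (Or.inl rfl)
  · exact Or.inl (neg_neg _)
  · exact Or.inr (Or.inr ⟨n, Or.inr rfl⟩)
  · exact Or.inr (Or.inr ⟨n, Or.inl (neg_neg _)⟩)

theorem gi_mem {t : ℝ} (h : t ∈ ZS) : gi t ∈ ZS := by
  rw [← neg_neg t, gi_neg]
  exact neg_mem (gg_mem (neg_mem h))

abbrev ZZ : Type := ZS

instance : CompactSpace ZZ := isCompact_iff_compactSpace.mp ZS_compact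
instance : Countable ZZ := ZS_countable.to_subtype

noncomputable def gZ : ZZ ≃ₜ ZZ where
  toFun x := ⟨gg x, gg_mem x.2⟩
  invFun x := ⟨gi x, gi_mem x.2⟩
  left_inv x := Subtype.ext (gi_gg _)
  right_inv x := Subtype.ext (gg_gi _)
  continuous_toFun := by unfold gg; fun_prop
  continuous_invFun := by unfold gi; fun_prop

theorem gZ_val (x : ZZ) : (gZ x : ℝ) = gg x := rfl
theorem gZ_symm_val (x : ZZ) : (gZ.symm x : ℝ) = gi x := rfl

noncomputable def brZ (x y : ZZ) : ZZ := if (x : ℝ) ≤ 0 then x else y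

theorem brZ_neg {x : ZZ} (y : ZZ) (h : (x : ℝ) ≤ 0) : brZ x y = x := if_pos h
theorem brZ_pos {x : ZZ} (y : ZZ) (h : 0 < (x : ℝ)) : brZ x y = y := if_neg (not_le.mpr h)

theorem dZ {x y : ZZ} (h : dist x y ≤ 1 / 100) :
    (x : ℝ) - y ≤ 1 / 100 ∧ (y : ℝ) - x ≤ 1 / 100 := by
  rw [Subtype.dist_eq, Real.dist_eq, abs_le] at h
  constructor <;> linarith [h.1, h.2]

theorem gZ_smale : IsSmale gZ (1 / 100) (1 / 2) brZ := by
  refine ⟨?_, ?_, ?_, ?_, ?_, ?_, ?_⟩
  · refine Continuous.continuousOn ?_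
    unfold brZ
    refine Continuous.if_le continuous_fst continuous_snd (by fun_prop) continuous_const ?_
    intro p hp
    rcases ZS_cases p.1.2 with h | h | h <;> linarith
  · intro x
    unfold brZ
    simp
  · intro x y z h1 h2 h3
    rcases le_or_gt (x : ℝ) 0 with hx | hx
    · rw [brZ_neg _ hx, brZ_neg _ hx]
    · rw [brZ_pos _ hx, brZ_pos _ hx, brZ_pos]
      have b1 := dZ h1
      have b3 := dZ h3
      rcases ZS_cases x.2 with h | h | h <;> linarith [b1.2, b3.1]
  · intro x y z h1 h2 h3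
    rcases le_or_gt (x : ℝ) 0 with hx | hx
    · rw [brZ_neg y hx]
    · rw [brZ_pos y hx, brZ_pos _ hx, brZ_pos]
      have b1 := dZ h1
      rcases ZS_cases x.2 with h | h | h <;> linarith [b1.1]
  · intro x y h1 h2
    have b1 := dZ h1
    rcases ZS_cases x.2 with h | h | h
    · rw [brZ_pos _ (by linarith), brZ_pos]
      rw [gZ_val, gg_ge (by linarith)]
      linarith
    · have : y = x := by
        apply Subtype.ext
        rcases ZS_cases y.2 with h' | h' | h' <;> linarith [b1.1, b1.2]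
      subst this
      unfold brZ
      simp
    · rw [brZ_neg _ (by linarith), brZ_neg]
      rw [gZ_val, gg_le (by linarith)]
      linarith
  · intro x y z h1 h2 h3 h4
    have b1 := dZ h1
    have b3 := dZ h3
    rcases le_or_gt (x : ℝ) 0 with hx | hx
    · have hx' : (x : ℝ) ≤ -1 := by rcases ZS_cases x.2 with h | h | h <;> linarith
      rw [brZ_neg _ (by linarith [b1.2])] at h2
      rw [brZ_neg _ (by linarith [b3.2])] at h4
      rw [h2, h4]
      simp
    · rw [Subtype.dist_eq, Subtype.dist_eq, gZ_val, gZ_val, gg_ge (by linarith [b1.1]),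
        gg_ge (by linarith [b3.1]), Real.dist_eq, Real.dist_eq,
        show ((y : ℝ) + 3) / 2 - (z + 3) / 2 = (1 / 2) * (y - z) by ring, abs_mul]
      norm_num
  · intro x y z h1 h2 h3 h4
    have b1 := dZ h1
    have b3 := dZ h3
    rcases le_or_gt (x : ℝ) 0 with hx | hx
    · rw [Subtype.dist_eq, Subtype.dist_eq, gZ_symm_val, gZ_symm_val, gi_le (by linarith [b1.2]),
        gi_le (by linarith [b3.2]), Real.dist_eq, Real.dist_eq,
        show ((y : ℝ) - 3) / 2 - (z - 3) / 2 = (1 / 2) * (y - z) by ring, abs_mul]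
      norm_num
    · rw [brZ_pos _ hx] at h2 h4
      rw [h2, h4]
      simp

theorem gZ_fix {x : ZZ} : gZ x = x ↔ (x : ℝ) = 3 ∨ (x : ℝ) = -3 := by
  rw [Subtype.ext_iff, gZ_val]
  rcases le_total (x : ℝ) (-1) with h | h
  · rw [gg_le h]
    constructor
    · intro h'; right; linarith
    · rintro (h' | h') <;> linarith
  · rw [gg_ge h]
    constructor
    · intro h'; left; linarith
    · rintro (h' | h') <;> linarith

theorem aa_mem (n : ℕ) : aa n ∈ ZS := mem_ZS.mpr (Or.inr (Or.inr ⟨n, Or.inl rfl⟩))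

noncomputable def pA (n : ℕ) : ZZ := ⟨aa n, aa_mem n⟩
noncomputable def nA (n : ℕ) : ZZ := ⟨-aa n, neg_mem (aa_mem n)⟩

/-- an invariant set contains all or none of the points that are not fixed -/
theorem orbit (S : Set ZZ) (hS : ∀ x, gZ x ∈ S ↔ x ∈ S) {x : ZZ} (hx : gZ x ≠ x) :
    x ∈ S ↔ pA 0 ∈ S := by
  have h1 : ∀ n, pA n ∈ S ↔ pA 0 ∈ S := by
    intro n
    induction n with
    | zero => rfl
    | succ n ih => rw [← ih, ← hS (pA n), show gZ (pA n) = pA (n + 1) from Subtype.ext (gg_aa n)]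
  have h2 : ∀ n, nA n ∈ S ↔ pA 0 ∈ S := by
    intro n
    induction n with
    | zero => rw [← hS (nA 0), show gZ (nA 0) = pA 0 from Subtype.ext gg_naa0]
    | succ n ih =>
      rw [← ih, ← hS (nA (n + 1)), show gZ (nA (n + 1)) = nA n from Subtype.ext (gg_naa n)]
  rw [Ne, gZ_fix] at hx
  rcases mem_ZS.mp x.2 with h | h | ⟨n, h | h⟩
  · exact absurd (Or.inl h) hx
  · exact absurd (Or.inr h) hx
  · rw [show x = pA n from Subtype.ext h]; exact h1 n
  · rw [show x = nA n from Subtype.ext h]; exact h2 n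

theorem gZ_surj (φ : ZZ → ZZ) (he : ∀ x, φ (gZ x) = gZ (φ x)) (hi : Function.Injective φ) :
    Function.Surjective φ := by
  have hfin : {x : ZZ | gZ x = x}.Finite := by
    refine Set.Finite.of_finite_image (f := Subtype.val) ?_ Subtype.val_injective.injOn
    refine (Set.toFinite ({3, -3} : Set ℝ)).subset ?_
    rintro _ ⟨x, hx, rfl⟩
    exact gZ_fix.mp hx
  intro y
  by_cases hy : gZ y = y
  · have hm : Set.MapsTo φ {x : ZZ | gZ x = x} {x : ZZ | gZ x = x} := by
      intro x hx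
      change gZ (φ x) = φ x
      rw [← he, hx]
    obtain ⟨x, -, hx⟩ := ((hfin.injOn_iff_bijOn_of_mapsTo hm).mp hi.injOn).surjOn hy
    exact ⟨x, hx⟩
  · have hS : ∀ x, gZ x ∈ Set.range φ ↔ x ∈ Set.range φ := by
      intro x
      constructor
      · rintro ⟨w, hw⟩
        refine ⟨gZ.symm w, gZ.injective ?_⟩
        rw [← he, ← hw]
        simp
      · rintro ⟨w, rfl⟩
        exact ⟨gZ w, he w⟩
    have h0 : gZ (φ y) ≠ φ y := by
      rw [← he]
      exact fun h => hy (hi h)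
    exact (orbit _ hS hy).mpr ((orbit _ hS h0).mp ⟨y, rfl⟩)

/-- the product system -/
noncomputable def FF : (ZZ × TT) ≃ₜ (ZZ × TT) := gZ.prodCongr cat

theorem FF_surj (τ : ZZ × TT → ZZ × TT) (hc : Continuous τ) (he : ∀ x, τ (FF x) = FF (τ x))
    (hi : Function.Injective τ) : Function.Surjective τ := by
  have h1 : ∀ z t, (τ (z, t)).1 = (τ (z, 0)).1 := fun z t =>
    TotallyDisconnectedSpace.eq_of_continuous (fun t : TT => (τ (z, t)).1) (by fun_prop) t 0
  have h2 : ∀ z, Function.Surjective (fun t => (τ (z, t)).2) := by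
    intro z
    refine torus_surj _ (by fun_prop) (fun t s hts => ?_)
    have : τ (z, t) = τ (z, s) := Prod.ext (by rw [h1 z t, h1 z s]) hts
    exact congrArg Prod.snd (hi this)
  have h3 : Function.Surjective (fun z => (τ (z, 0)).1) := by
    refine gZ_surj _ (fun z => ?_) (fun z w hzw => ?_)
    · rw [← h1 (gZ z) (cat 0)]
      exact congrArg Prod.fst (he (z, 0))
    · obtain ⟨t, ht⟩ := h2 w (τ (z, 0)).2
      have : τ (z, 0) = τ (w, t) := Prod.ext (by rw [h1 w t]; exact hzw) ht.symm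
      exact congrArg Prod.fst (hi this)
  rintro ⟨z, t⟩
  obtain ⟨w, hw⟩ := h3 z
  obtain ⟨s, hs⟩ := h2 w t
  exact ⟨(w, s), Prod.ext (by rw [h1 w s]; exact hw) hs⟩

theorem FF_wander (p : ZZ × TT) (hp : 0 < (p.1 : ℝ)) (n : ℕ) (hn : 1 ≤ n) :
    2 ≤ (((⇑FF)^[n] p).1 : ℝ) := by
  have key : ∀ q : ZZ × TT, 0 < (q.1 : ℝ) → 2 ≤ ((FF q).1 : ℝ) := by
    intro q hq
    change 2 ≤ gg q.1
    rw [gg_ge (by linarith)]
    rcases ZS_cases q.1.2 with h | h | h <;> linarith
  induction n, hn using Nat.le_induction with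
  | base => exact key p hp
  | succ n _ ih =>
    rw [Function.iterate_succ_apply']
    exact key _ (by linarith)

theorem TT_uncountable : ¬ Countable TT := by
  intro h
  have : Subsingleton TT := subsingleton_of_preconnected_totallyDisconnected
  have h2 := congrArg lf (Subsingleton.elim (pr (1 / 4, 0)) (pr 0))
  rw [lf_pr (by simp [Prod.norm_def]; norm_num), lf_pr (by simp)] at h2
  simp at h2

end Pool.Agent.H242Z.Smale
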